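import Pool.Agent.Lib.MP_b93bad_an.Defs

/-! Projection (area) inequality for convex functions and the Cauchy formula. -/

namespace Pool.Agent.Lib.MP_b93bad_an

open MeasureTheory Set Metric Real

abbrev E := EuclideanSpace ℝ (Fin 2)

/-- The unit vector of angle `θ`. -/
noncomputable def nu (θ : ℝ) : E := !₂[cos θ, sin θ]

/-- Transverse coordinate. -/
noncomputable def tr (θ : ℝ) (x : E) : ℝ := x 0 * sin θ - x 1 * cos θ

/-- Longitudinal coordinate. -/
noncomputable def lo (θ : ℝ) (x : E) : ℝ := x 0 * cos θ + x 1 * sin θ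

lemma sub_eq (θ : ℝ) {x y : E} (h : tr θ x = tr θ y) : y - x = (lo θ y - lo θ x) • nu θ := by
  have := sin_sq_add_cos_sq θ
  unfold tr at h
  ext i
  fin_cases i <;> simp [lo, nu]
  · linear_combination (x 0 - y 0) * this - sin θ * h
  · linear_combination (x 1 - y 1) * this + cos θ * h

lemma clm_apply (L : E →L[ℝ] ℝ) (θ : ℝ) :
    L (nu θ) = cos θ * L (EuclideanSpace.single 0 1) + sin θ * L (EuclideanSpace.single 1 1) := by
  have : nu θ = cos θ • EuclideanSpace.single 0 1 + sin θ • EuclideanSpace.single 1 1 := by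
    ext i; fin_cases i <;> simp [nu]
  rw [this]; simp

lemma support {u : E → ℝ} {s : Set E} (hu : ConvexOn ℝ s u) {x y : E} (hx : x ∈ s) (hy : y ∈ s)
    (hd : DifferentiableAt ℝ u x) : u x + fderiv ℝ u x (y - x) ≤ u y := by
  have h1 : ConvexOn ℝ (Icc (0 : ℝ) 1) (u ∘ AffineMap.lineMap x y) :=
    (hu.comp_affineMap (AffineMap.lineMap x y)).subset
      (fun t ht => hu.1.lineMap_mem hx hy ht) (convex_Icc 0 1)
  have h2 : HasDerivAt (u ∘ AffineMap.lineMap x y) (fderiv ℝ u x (y - x)) (0 : ℝ) :=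
    HasFDerivAt.comp_hasDerivAt _ (by simpa using hd.hasFDerivAt) AffineMap.hasDerivAt_lineMap
  have := h1.le_slope_of_hasDerivAt (left_mem_Icc.2 zero_le_one) (right_mem_Icc.2 zero_le_one)
    one_pos h2
  simp [slope] at this
  rw [map_sub]
  linarith

lemma after {u : E → ℝ} {s : Set E} (hu : ConvexOn ℝ s u) {θ : ℝ} {x y : E} (hx : x ∈ s)
    (hy : y ∈ s) (hp : 0 < fderiv ℝ u x (nu θ)) (h : tr θ x = tr θ y) (hl : lo θ x < lo θ y) :
    u x < u y := by
  have hd : DifferentiableAt ℝ u x := by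
    by_contra hd
    simp [fderiv_zero_of_not_differentiableAt hd] at hp
  have := support hu hx hy hd
  rw [sub_eq θ h, map_smul, smul_eq_mul] at this
  nlinarith

lemma area {u : E → ℝ} {s T : Set E} (hu : ConvexOn ℝ s u) (θ : ℝ) (hT : MeasurableSet T)
    (hTs : T ⊆ s) {R : Set (ℝ × ℝ)} (hR : MeasurableSet R)
    (h : ∀ x ∈ T, 0 < fderiv ℝ u x (nu θ) → (tr θ x, u x) ∈ R) :
    ∫⁻ x in T, ENNReal.ofReal (fderiv ℝ u x (nu θ)) ≤ volume R := by
  let e0 : E := EuclideanSpace.single 0 1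
  let e1 : E := EuclideanSpace.single 1 1
  let l : E →L[ℝ] ℝ := sin θ • EuclideanSpace.proj 0 - cos θ • EuclideanSpace.proj 1
  have hl : ∀ x, l x = tr θ x := fun x => by simp [l, tr]; ring
  let f : E → E := fun x => l x • e0 + u x • e1
  let f' : E → E →L[ℝ] E := fun x => l.smulRight e0 + (fderiv ℝ u x).smulRight e1
  let P := {x | 0 < fderiv ℝ u x (nu θ)}
  have hP : MeasurableSet P := measurableSet_lt measurable_const (measurable_fderiv_apply_const ℝ u _)
  have det : ∀ x, (f' x).det = fderiv ℝ u x (nu θ) := fun x => by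
    rw [ContinuousLinearMap.det, ← LinearMap.det_toMatrix (EuclideanSpace.basisFun (Fin 2) ℝ).toBasis,
      Matrix.det_fin_two, clm_apply]
    simp [LinearMap.toMatrix_apply, f', l, e0, e1]
    ring
  have f0 : ∀ x, f x 0 = tr θ x := fun x => by simp [f, e0, e1, hl]
  have f1 : ∀ x, f x 1 = u x := fun x => by simp [f, e0, e1]
  have key := lintegral_abs_det_fderiv_le_addHaar_image volume (hT.inter hP) (f := f) (f' := f')
    (fun x hx => by
      have hd : DifferentiableAt ℝ u x := by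
        by_contra hd
        have := hx.2
        simp [P, fderiv_zero_of_not_differentiableAt hd] at this
      exact ((l.hasFDerivAt.smul_const e0).add (hd.hasFDerivAt.smul_const e1)).hasFDerivWithinAt)
    (fun x hx y hy e => by
      have e0 : tr θ x = tr θ y := by rw [← f0, ← f0, e]
      have e1 : u x = u y := by rw [← f1, ← f1, e]
      have a1 := fun h => (after hu (hTs hx.1) (hTs hy.1) hx.2 e0 h).ne e1
      have a2 := fun h => (after hu (hTs hy.1) (hTs hx.1) hy.2 e0.symm h).ne e1.symm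
      have := sub_eq θ e0
      rw [le_antisymm (not_lt.1 a1) (not_lt.1 a2), sub_self, zero_smul, sub_eq_zero] at this
      exact this.symm)
  have mp := (volume_preserving_finTwoArrow ℝ).comp (PiLp.volume_preserving_ofLp (Fin 2))
  calc _ = ∫⁻ x in T ∩ P, ENNReal.ofReal |(f' x).det| := by
        rw [inter_comm, ← Measure.restrict_restrict hP, ← lintegral_indicator hP]
        refine lintegral_congr fun x => ?_
        by_cases hx : x ∈ P
        · rw [indicator_of_mem hx, det, abs_of_pos hx]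
        · rw [indicator_of_notMem hx, ENNReal.ofReal_of_nonpos (not_lt.1 hx)]
    _ ≤ _ := key
    _ ≤ _ := by
        rw [← mp.measure_preimage hR.nullMeasurableSet]
        refine measure_mono ?_
        rintro _ ⟨x, hx, rfl⟩
        simpa [f0, f1] using h x hx.1 hx.2

lemma polar (a b : ℝ) : ∃ φ ∈ Ioc (-π) π, ∀ θ, cos θ * a + sin θ * b =
    √(a ^ 2 + b ^ 2) * cos (θ - φ) ∧ sin θ * a - cos θ * b = √(a ^ 2 + b ^ 2) * sin (θ - φ) := by
  refine ⟨Complex.arg ⟨a, b⟩, Complex.arg_mem_Ioc _, fun θ => ?_⟩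
  have h1 := Complex.norm_mul_cos_arg ⟨a, b⟩
  have h2 := Complex.norm_mul_sin_arg ⟨a, b⟩
  rw [Complex.norm_eq_sqrt_sq_add_sq] at h1 h2
  simp only at h1 h2
  rw [cos_sub, sin_sub]
  exact ⟨by linear_combination -cos θ * h1 - sin θ * h2, by
    linear_combination -sin θ * h1 + cos θ * h2⟩

lemma norm_nu (θ : ℝ) : ‖nu θ‖ = 1 := by
  simp [nu, EuclideanSpace.norm_eq]

lemma crofton (L : E →L[ℝ] ℝ) (α : ℝ) :
    2 * ‖L‖ ≤ ∫ θ in α..α + 2 * π, max (L (nu θ)) 0 := by
  obtain ⟨φ, -, hφ⟩ := polar (L (EuclideanSpace.single 0 1)) (L (EuclideanSpace.single 1 1))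
  have hL : ‖L‖ ≤ √(L (EuclideanSpace.single 0 1) ^ 2 + L (EuclideanSpace.single 1 1) ^ 2) := by
    refine L.opNorm_le_bound (sqrt_nonneg _) fun x => ?_
    have : x = x 0 • EuclideanSpace.single 0 1 + x 1 • EuclideanSpace.single 1 1 := by
      ext i; fin_cases i <;> simp
    rw [EuclideanSpace.norm_eq, ← sqrt_mul (by positivity)]
    refine Real.abs_le_sqrt ?_
    nth_rewrite 1 [this]
    simp only [map_add, map_smul, smul_eq_mul, Fin.sum_univ_two, norm_eq_abs, sq_abs]
    nlinarith [sq_nonneg (x 0 * L (EuclideanSpace.single 1 1) - x 1 * L (EuclideanSpace.single 0 1))]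
  simp only [clm_apply, fun θ => (hφ θ).1]
  generalize √_ = R at *
  have hR : 0 ≤ R := (norm_nonneg _).trans hL
  have hp : Function.Periodic (fun θ => max (R * cos (θ - φ)) 0) (2 * π) := fun θ => by
    simp only [add_sub_right_comm, cos_add_two_pi]
  have hc : Continuous fun θ => max (R * cos (θ - φ)) 0 := by fun_prop
  rw [hp.intervalIntegral_add_eq α (φ - π / 2), ← intervalIntegral.integral_add_adjacent_intervals
    (b := φ + π / 2) (hc.intervalIntegrable _ _) (hc.intervalIntegrable _ _)]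
  have h1 : 0 ≤ ∫ θ in (φ + π / 2)..(φ - π / 2 + 2 * π), max (R * cos (θ - φ)) 0 :=
    intervalIntegral.integral_nonneg (by linarith [pi_pos]) fun _ _ => le_max_right _ _
  have h2 : ∫ θ in (φ - π / 2)..(φ + π / 2), R * cos (θ - φ) ≤
      ∫ θ in (φ - π / 2)..(φ + π / 2), max (R * cos (θ - φ)) 0 :=
    intervalIntegral.integral_mono_on (by linarith [pi_pos])
      (Continuous.intervalIntegrable (by fun_prop) _ _) (hc.intervalIntegrable _ _)
      fun _ _ => le_max_left _ _
  rw [intervalIntegral.integral_const_mul, intervalIntegral.integral_comp_sub_right cos,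
    integral_cos] at h2
  simp only [add_sub_cancel_left, sub_sub_cancel_left, sin_neg, sin_pi_div_two] at h2
  linarith

lemma arc (x : E) (hx : ‖x‖ < 1) (α : ℝ) {η : ℝ} (h0 : 0 ≤ η) :
    volume {θ ∈ Ioc α (α + 2 * π) | |tr θ x| ≤ η ∧ 1 / 2 ≤ lo θ x} ≤ ENNReal.ofReal (20 * η) := by
  obtain ⟨φ, -, hφ⟩ := polar (x 0) (x 1)
  have hn : √(x 0 ^ 2 + x 1 ^ 2) < 1 := by simpa [EuclideanSpace.norm_eq] using hx
  have hn0 := sqrt_nonneg (x 0 ^ 2 + x 1 ^ 2)
  generalize √_ = R at *
  have hπ := pi_pos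
  obtain ⟨n, hn1, hn2⟩ : ∃ n : ℤ, φ + n * (2 * π) - π ≤ α ∧ α < φ + n * (2 * π) + π := by
    refine ⟨⌊(α - φ + π) / (2 * π)⌋, ?_, ?_⟩
    · have := (le_div_iff₀ (by positivity)).1 (Int.floor_le ((α - φ + π) / (2 * π))); linarith
    · have := (div_lt_iff₀ (by positivity)).1 (Int.lt_floor_add_one ((α - φ + π) / (2 * π)))
      linarith
  have key : ∀ (θ : ℝ) (j : ℤ), |θ - (φ + j * (2 * π))| ≤ π → |tr θ x| ≤ η → 1 / 2 ≤ lo θ x →
      θ ∈ closedBall (φ + j * (2 * π)) (5 * η) := fun θ j h1 h2 h3 => by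
    obtain ⟨a, b⟩ := hφ θ
    have c : cos (θ - φ) = cos (θ - (φ + j * (2 * π))) := by
      rw [← cos_sub_int_mul_two_pi _ j]; congr 1; ring
    have d : sin (θ - φ) = sin (θ - (φ + j * (2 * π))) := by
      rw [← sin_sub_int_mul_two_pi _ j]; congr 1; ring
    rw [mem_closedBall, Real.dist_eq]
    generalize θ - (φ + j * (2 * π)) = y at *
    have e1 : 1 / 2 ≤ R * cos y := by rw [← c, ← a]; unfold lo at h3; linarith
    have e2 : R * |sin y| ≤ η := by
      rw [← abs_of_nonneg hn0, ← abs_mul, ← d, ← b]; unfold tr at h2; rwa [mul_comm, mul_comm (cos θ)]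
    have e3 : |y| ≤ π / 2 := by
      by_contra hc
      have := cos_nonpos_of_pi_div_two_le_of_le (not_le.1 hc).le (by linarith)
      rw [cos_abs] at this
      nlinarith
    have e4 := mul_abs_le_abs_sin e3
    have e5 : 1 / 2 ≤ R := by nlinarith [cos_le_one y]
    have e6 : |sin y| ≤ 2 * η := by nlinarith [abs_nonneg (sin y)]
    rw [div_mul_eq_mul_div, div_le_iff₀ hπ] at e4
    nlinarith [pi_le_four, abs_nonneg (sin y)]
  calc _ ≤ volume (closedBall (φ + n * (2 * π)) (5 * η) ∪
        closedBall (φ + (n + 1 : ℤ) * (2 * π)) (5 * η)) := by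
        refine measure_mono ?_
        rintro θ ⟨⟨h1, h2⟩, h3, h4⟩
        rcases le_total θ (φ + n * (2 * π) + π) with h | h
        · exact Or.inl (key θ n (abs_le.2 ⟨by linarith, by linarith⟩) h3 h4)
        · exact Or.inr (key θ (n + 1) (abs_le.2 ⟨by push_cast; linarith, by push_cast; linarith⟩)
            h3 h4)
    _ ≤ _ := by
        refine (measure_union_le _ _).trans_eq ?_
        rw [Real.volume_closedBall, Real.volume_closedBall, ← ENNReal.ofReal_add (by positivity)
          (by positivity)]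
        congr 1; ring

end Pool.Agent.Lib.MP_b93bad_an
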