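import Pool.Agent.Lib.MP_b93bad_an.A

/-! The bottom function of a dihedral body. -/

namespace Pool.Agent.Lib.MP_b93bad_an

open MeasureTheory Set Metric Real

variable {k : ℕ} {α M : ℝ} {g : ℝ → ℝ}

lemma hull_le {a b c d : ℝ} (h : ∀ p ∈ frame k α g, a * p.1 0 + b * p.1 1 + c * p.2 ≤ d) :
    ∀ p ∈ convexHull ℝ (frame k α g), a * p.1 0 + b * p.1 1 + c * p.2 ≤ d :=
  convexHull_min (t := {p : E × ℝ | a * p.1 0 + b * p.1 1 + c * p.2 ≤ d}) h
    fun p hp q hq s t hs ht hst => by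
    have h1 := mul_le_mul_of_nonneg_left (show _ ≤ d from hp) hs
    have h2 := mul_le_mul_of_nonneg_left (show _ ≤ d from hq) ht
    have : s * d + t * d = d := by rw [← add_mul, hst, one_mul]
    simp only [mem_ofPred_eq, Prod.fst_add, Prod.smul_fst, PiLp.add_apply, PiLp.smul_apply,
      smul_eq_mul, Prod.snd_add, Prod.smul_snd]
    linarith

lemma mem_zero {y : E} (this : y ∈ closedBall (0 : E) 1) :
    (y, (0 : ℝ)) ∈ convexHull ℝ (frame k α g) := by
  rw [← convexHull_sphere_eq_closedBall _ zero_le_one] at this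
  exact convexHull_min (t := LinearMap.inl ℝ E ℝ ⁻¹' convexHull ℝ (frame k α g))
    (fun x hx => subset_convexHull ℝ _ (Or.inl ⟨by simpa using hx, rfl⟩))
    ((convex_convexHull ℝ _).linear_preimage _) this

variable (hM : 0 < M) (hg : ∀ r ∈ Icc (0 : ℝ) 1, -M ≤ g r ∧ g r ≤ 0)
include hM hg

lemma hull_ge {y : E} {z : ℝ} (h : (y, z) ∈ convexHull ℝ (frame k α g)) : -M ≤ z := by
  have := hull_le (a := 0) (b := 0) (c := -1) (d := M) (by
    rintro p (⟨-, h⟩ | ⟨i, -, r, hr, -, -, h⟩)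
    · rw [h]; linarith
    · rw [h]; linarith [(hg r hr).1]) _ h
  simp only at this
  linarith

lemma bottom_le {y : E} {z : ℝ} (h : (y, z) ∈ convexHull ℝ (frame k α g)) :
    bottom k α g y ≤ z :=
  csInf_le ⟨-M, fun _ h => hull_ge hM hg h⟩ h

omit hM hg in
lemma le_bottom {y : E} (hy : y ∈ closedBall (0 : E) 1) {c : ℝ}
    (h : ∀ z, (y, z) ∈ convexHull ℝ (frame k α g) → c ≤ z) : c ≤ bottom k α g y :=
  le_csInf ⟨0, mem_zero hy⟩ h

lemma bottom_convex : ConvexOn ℝ (closedBall (0 : E) 1) (bottom k α g) := by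
  refine ⟨convex_closedBall _ _, fun x hx y hy s t hs ht hst =>
    le_of_forall_pos_le_add fun ε hε => ?_⟩
  obtain ⟨z, z1, z2⟩ := exists_lt_of_csInf_lt (s := {z | (x, z) ∈ convexHull ℝ (frame k α g)})
    ⟨0, mem_zero hx⟩ (lt_add_of_pos_right _ hε)
  obtain ⟨w, w1, w2⟩ := exists_lt_of_csInf_lt (s := {z | (y, z) ∈ convexHull ℝ (frame k α g)})
    ⟨0, mem_zero hy⟩ (lt_add_of_pos_right _ hε)
  have := bottom_le hM hg (y := s • x + t • y) (z := s * z + t * w)
    (convex_convexHull ℝ _ z1 w1 hs ht hst)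
  have h1 := mul_le_mul_of_nonneg_left z2.le hs
  have h2 := mul_le_mul_of_nonneg_left w2.le ht
  have : s * ε + t * ε = ε := by rw [← add_mul, hst, one_mul]
  simp only [smul_eq_mul, bottom] at *
  linarith

lemma depth (hM' : M ≤ 1 / 4) {e w ω : ℝ} (he0 : 0 ≤ e)
    (he : ∀ r ∈ Icc (0 : ℝ) 1, -g r - (1 - r) ≤ e) (w0 : 0 ≤ w) (w1 : w ≤ 1 / 2)
    (hw : ∀ i : ℕ, w ≤ 1 - cos (ω - (α + 2 * i * π / k))) {y : E}
    (hy : y ∈ closedBall (0 : E) 1) :
    -((1 - lo ω y + e) / (1 + w / (2 * M))) ≤ bottom k α g y := by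
  refine le_bottom hy fun z hz => ?_
  have := hull_le (a := cos ω) (b := sin ω) (c := -(1 + w / (2 * M))) (d := 1 + e) (by
    rintro p (⟨h1, h⟩ | ⟨i, -, r, hr, h1, h2, h⟩)
    · have : p.1 0 ^ 2 + p.1 1 ^ 2 = 1 := by
        have := EuclideanSpace.norm_sq_eq p.1
        simp only [h1, Fin.sum_univ_two, norm_eq_abs, sq_abs] at this
        linarith
      rw [h]
      nlinarith [sq_nonneg (p.1 0 - cos ω), sq_nonneg (p.1 1 - sin ω), sin_sq_add_cos_sq ω]
    · have a1 := hw i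
      have a2 := he r hr
      obtain ⟨a3, a4⟩ := hg r hr
      have a5 : w / (2 * M) * -g r ≤ w / 2 := by
        rw [div_mul_eq_mul_div, div_le_div_iff₀ (by positivity) two_pos]; nlinarith
      have a6 := cos_le_one (ω - (α + 2 * i * π / k))
      rw [cos_sub] at a1 a6
      rw [h, h1, h2]
      rcases le_total r (1 / 2) with h3 | h3
      · nlinarith [hr.1]
      · nlinarith) _ hz
  rw [neg_le, le_div_iff₀ (by positivity)]
  simp only [lo] at *
  linarith

omit hM hg in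
lemma middle {i : ℕ} (hi : i < k) {r η θ τ : ℝ} (hr : r ∈ Icc (0 : ℝ) 1) (h0 : η ≤ 1 / 3)
    (hθ : |θ - (α + 2 * i * π / k)| ≤ η) (hη : 0 < η) (hτ : |τ| ≤ η) :
    ∃ z ∈ closedBall (0 : E) 1, tr θ z = τ ∧ (1 + r) / 2 - 5 * η ^ 2 ≤ lo θ z ∧
      (z, g r / 2) ∈ convexHull ℝ (frame k α g) := by
  generalize hβ : α + 2 * i * π / k = β at hθ
  have s1 : |sin (θ - β)| ≤ η := abs_sin_le_abs.trans hθ
  have s2 : 1 - η ^ 2 / 2 ≤ cos (θ - β) := by
    have := one_sub_sq_div_two_le_cos (x := θ - β)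
    have := sq_le_sq' (abs_le.1 hθ).1 (abs_le.1 hθ).2
    linarith
  obtain ⟨t, ht⟩ : ∃ t, t = 2 * τ - r * sin (θ - β) := ⟨_, rfl⟩
  have t1 : |t| ≤ 3 * η := by
    have := abs_le.1 s1; have := abs_le.1 hτ
    rw [ht]
    exact abs_le.2 ⟨by nlinarith [hr.1, hr.2], by nlinarith [hr.1, hr.2]⟩
  have t2 : t ^ 2 ≤ (3 * η) ^ 2 := sq_le_sq' (abs_le.1 t1).1 (abs_le.1 t1).2
  have t3 : 0 ≤ 1 - t ^ 2 := by nlinarith
  have t4 := sq_sqrt t3
  have t5 : 1 - t ^ 2 ≤ √(1 - t ^ 2) := le_sqrt_of_sq_le (by nlinarith [sq_nonneg t])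
  generalize √(1 - t ^ 2) = c at *
  have sc := sin_sq_add_cos_sq θ
  let b : E := !₂[c * cos θ + t * sin θ, c * sin θ - t * cos θ]
  let x : E := !₂[r * cos β, r * sin β]
  have hb : ‖b‖ = 1 := by
    rw [EuclideanSpace.norm_eq, sqrt_eq_one]
    simp [b]
    linear_combination t4 + (c ^ 2 + t ^ 2) * sc
  have hx : ‖x‖ ≤ 1 := by
    rw [EuclideanSpace.norm_eq, sqrt_le_one]
    simp [x, mul_pow]
    nlinarith [sin_sq_add_cos_sq β, hr.1, hr.2]
  refine ⟨(1 / 2 : ℝ) • x + (1 / 2 : ℝ) • b, convex_closedBall (0 : E) 1 (by simpa using hx)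
    (by simpa using hb.le) (by norm_num) (by norm_num) (by norm_num), ?_, ?_, ?_⟩
  · rw [sin_sub] at ht
    simp [tr, x, b]
    linear_combination (1 / 2) * ht + (t / 2) * sc
  · rw [cos_sub] at s2
    have : lo θ ((1 / 2 : ℝ) • x + (1 / 2 : ℝ) • b) =
        (r * (cos θ * cos β + sin θ * sin β) + c) / 2 := by
      simp [lo, x, b]
      linear_combination (c / 2) * sc
    rw [this]
    nlinarith [hr.1, hr.2, sq_nonneg η]
  · have := convex_convexHull ℝ (frame k α g)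
      (subset_convexHull ℝ _ (show (x, g r) ∈ frame k α g from
        Or.inr ⟨i, hi, r, hr, by simp [x, hβ], by simp [x, hβ], rfl⟩))
      (subset_convexHull ℝ _ (show (b, (0 : ℝ)) ∈ frame k α g from Or.inl ⟨hb, rfl⟩))
      (show (0 : ℝ) ≤ 1 / 2 by norm_num) (show (0 : ℝ) ≤ 1 / 2 by norm_num) (by norm_num)
    convert this using 1
    ext <;> simp
    ring

omit hM hg

lemma abs_sin_mul (n : ℕ) (x : ℝ) : |sin (n * x)| ≤ n * |sin x| := by
  induction n with
  | zero => simp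
  | succ n ih =>
    push_cast
    rw [add_mul, one_mul, sin_add]
    have h1 := abs_cos_le_one x
    have h2 := abs_cos_le_one (n * x)
    have := abs_add_le (sin (n * x) * cos x) (cos (n * x) * sin x)
    rw [abs_mul, abs_mul] at this
    nlinarith [abs_nonneg (sin (n * x)), abs_nonneg (sin x)]

lemma w_le (hk : 0 < k) (ω : ℝ) (i : ℕ) :
    (1 - cos (k * (ω - α))) / k ^ 2 ≤ 1 - cos (ω - (α + 2 * i * π / k)) := by
  have hk' : (0 : ℝ) < k := by exact_mod_cast hk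
  have h1 : cos (k * (ω - α)) = cos (2 * (k * ((ω - (α + 2 * i * π / k)) / 2))) := by
    rw [← cos_sub_nat_mul_two_pi _ i]; congr 1; field_simp; ring
  have h2 : cos (ω - (α + 2 * i * π / k)) = cos (2 * ((ω - (α + 2 * i * π / k)) / 2)) := by
    congr 1; ring
  rw [h1, h2]
  generalize (ω - (α + 2 * i * π / k)) / 2 = x
  have := pow_le_pow_left₀ (abs_nonneg _) (abs_sin_mul k x) 2
  rw [mul_pow, sq_abs, sq_abs] at this
  rw [div_le_iff₀ (by positivity), cos_two_mul_eq_one_sub, cos_two_mul_eq_one_sub]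
  linarith

end Pool.Agent.Lib.MP_b93bad_an
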