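import Pool.Agent.Lib.MP_b93bad_an.B

/-! The weighted Cauchy formula. -/

namespace Pool.Agent.Lib.MP_b93bad_an

open MeasureTheory Set Metric Real

lemma pen {q l : ℝ} (hq : 0 ≤ q) (h0 : 0 ≤ l) (h1 : l ≤ 1 / 5) :
    1 - 1 / (1 + q ^ 2) ≤ q / 2 - l * (q - 1) + 5 / 4 * l ^ 2 := by
  have hp : 0 < 1 + q ^ 2 := by positivity
  have e : 1 - 1 / (1 + q ^ 2) = q / 2 - q * (q - 1) ^ 2 / (2 * (1 + q ^ 2)) := by
    field_simp; ring
  rw [e]
  have : l * (q - 1) - 5 / 4 * l ^ 2 ≤ q * (q - 1) ^ 2 / (2 * (1 + q ^ 2)) := by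
    rw [le_div_iff₀ (by positivity)]
    rcases le_total q 1 with h | h
    · have : l * (q - 1) - 5 / 4 * l ^ 2 ≤ 0 := by nlinarith
      nlinarith [mul_nonneg hq (sq_nonneg (q - 1))]
    rcases le_total q 2 with h' | h'
    · have a1 : l * (q - 1) - 5 / 4 * l ^ 2 ≤ (q - 1) ^ 2 / 5 := by
        nlinarith [sq_nonneg (l - 2 / 5 * (q - 1))]
      have a2 : 2 * (1 + q ^ 2) ≤ 5 * q := by nlinarith
      nlinarith [mul_le_mul_of_nonneg_left a2 (sq_nonneg (q - 1))]
    · have a1 : l * (q - 1) - 5 / 4 * l ^ 2 ≤ (q - 1) / 5 := by nlinarith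
      have a2 : 2 * (1 + q ^ 2) ≤ 5 * (q * (q - 1)) := by nlinarith
      nlinarith [mul_le_mul_of_nonneg_left a2 (show 0 ≤ q - 1 by linarith)]
  linarith

/-- The strips. -/
def Z (Θ : Set ℝ) (η σ : ℝ) : Set (E × ℝ) := {p | p.2 ∈ Θ ∧ |tr p.2 p.1| ≤ η ∧ σ ≤ lo p.2 p.1}

lemma meas_Z {Θ : Set ℝ} (hΘ : MeasurableSet Θ) (η σ : ℝ) : MeasurableSet (Z Θ η σ) := by
  have h1 : Continuous fun p : E × ℝ => |tr p.2 p.1| := by unfold tr; fun_prop
  have h2 : Continuous fun p : E × ℝ => lo p.2 p.1 := by unfold lo; fun_prop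
  exact (measurable_snd hΘ).inter ((measurableSet_le h1.measurable measurable_const).inter
    (measurableSet_le measurable_const h2.measurable))

/-- The weighted integrand. -/
noncomputable def G (u : E → ℝ) (Θ : Set ℝ) (η σ : ℝ) (p : E × ℝ) : ENNReal :=
  (Z Θ η σ)ᶜ.indicator (fun p => ENNReal.ofReal (fderiv ℝ u p.1 (nu p.2))) p +
    (Z Θ η σ).indicator (fun _ => ENNReal.ofReal (1 + 25 / 4 * η)) p

lemma meas_P (u : E → ℝ) : Measurable fun p : E × ℝ => ENNReal.ofReal (fderiv ℝ u p.1 (nu p.2)) := by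
  simp only [clm_apply]
  have h : ∀ v, Measurable fun p : E × ℝ => fderiv ℝ u p.1 v := fun v =>
    (measurable_fderiv_apply_const ℝ u v).comp measurable_fst
  exact (((measurable_cos.comp measurable_snd).mul (h _)).add
    ((measurable_sin.comp measurable_snd).mul (h _))).ennreal_ofReal

lemma meas_G (u : E → ℝ) {Θ : Set ℝ} (hΘ : MeasurableSet Θ) (η σ : ℝ) : Measurable (G u Θ η σ) :=
  ((meas_P u).indicator (meas_Z hΘ η σ).compl).add (measurable_const.indicator (meas_Z hΘ η σ))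

lemma split {X : Type} [MeasurableSpace X] (μ : Measure X) {A I : Set X} (hA : MeasurableSet A)
    {f : X → ENNReal} (hf : Measurable f) (c : ENNReal) :
    ∫⁻ x in I, (Aᶜ.indicator f x + A.indicator (fun _ => c) x) ∂μ =
      ∫⁻ x in I \ A, f x ∂μ + c * μ (I ∩ A) := by
  rw [lintegral_add_left (hf.indicator hA.compl), lintegral_indicator hA.compl,
    lintegral_indicator hA, Measure.restrict_restrict hA.compl, Measure.restrict_restrict hA,
    setLIntegral_const, inter_comm, inter_comm A, sdiff_eq]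

lemma pointwise (u : E → ℝ) {Θ : Set ℝ} (hΘ : MeasurableSet Θ) (α : ℝ) {η σ : ℝ} (h0 : 0 ≤ η)
    (h1 : η ≤ 1 / 25) (hσ : 1 / 2 ≤ σ) {x : E} (hx : x ∈ ball (0 : E) 1) :
    ENNReal.ofReal (4 * (1 - 1 / (1 + ‖fderiv ℝ u x‖ ^ 2))) ≤
      ∫⁻ θ in Ioc α (α + 2 * π), G u Θ η σ (x, θ) := by
  have hA : MeasurableSet (Prod.mk x ⁻¹' Z Θ η σ) := measurable_prodMk_left (meas_Z hΘ η σ)
  have hf : Measurable fun θ => ENNReal.ofReal (fderiv ℝ u x (nu θ)) :=
    (meas_P u).comp measurable_prodMk_left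
  have e1 := split volume (I := Ioc α (α + 2 * π)) hA hf (ENNReal.ofReal (1 + 25 / 4 * η))
  have e2 := lintegral_inter_add_sdiff (μ := volume)
    (fun θ => ENNReal.ofReal (fderiv ℝ u x (nu θ))) (Ioc α (α + 2 * π)) hA
  have e3 : volume (Ioc α (α + 2 * π) ∩ Prod.mk x ⁻¹' Z Θ η σ) ≤ ENNReal.ofReal (20 * η) :=
    le_trans (measure_mono fun θ h => mem_sep h.1 ⟨h.2.2.1, hσ.trans h.2.2.2⟩)
      (arc x (by simpa using hx) α h0)
  have e4 : ∫⁻ θ in Ioc α (α + 2 * π) ∩ Prod.mk x ⁻¹' Z Θ η σ,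
      ENNReal.ofReal (fderiv ℝ u x (nu θ)) ≤ ENNReal.ofReal ‖fderiv ℝ u x‖ *
        volume (Ioc α (α + 2 * π) ∩ Prod.mk x ⁻¹' Z Θ η σ) := by
    rw [← setLIntegral_const]
    refine lintegral_mono fun θ => ENNReal.ofReal_le_ofReal ?_
    simpa [norm_nu] using (le_abs_self _).trans ((fderiv ℝ u x).le_opNorm (nu θ))
  have e5 : ENNReal.ofReal (2 * ‖fderiv ℝ u x‖) ≤
      ∫⁻ θ in Ioc α (α + 2 * π), ENNReal.ofReal (fderiv ℝ u x (nu θ)) := by
    have hc : Continuous fun θ => max (fderiv ℝ u x (nu θ)) 0 := by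
      simp only [clm_apply]; fun_prop
    have := crofton (fderiv ℝ u x) α
    rw [intervalIntegral.integral_of_le (by linarith [pi_pos])] at this
    refine (ENNReal.ofReal_le_ofReal this).trans_eq ?_
    rw [ofReal_integral_eq_lintegral_ofReal (hc.integrableOn_Icc.mono_set Ioc_subset_Icc_self)
      (ae_of_all _ fun θ => le_max_right _ _)]
    simp
  refine le_trans ?_ (le_of_eq e1.symm)
  obtain ⟨a, a0, ha⟩ : ∃ a, 0 ≤ a ∧ volume (Ioc α (α + 2 * π) ∩ Prod.mk x ⁻¹' Z Θ η σ) =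
      ENNReal.ofReal a := ⟨_, ENNReal.toReal_nonneg,
    (ENNReal.ofReal_toReal (e3.trans_lt ENNReal.ofReal_lt_top).ne).symm⟩
  rw [ha] at e3 e4 ⊢
  have q0 := norm_nonneg (fderiv ℝ u x)
  generalize ‖fderiv ℝ u x‖ = q at *
  rw [ENNReal.ofReal_le_ofReal_iff (by positivity)] at e3
  rw [← ENNReal.ofReal_mul q0] at e4
  rw [← ENNReal.ofReal_mul (by positivity)]
  have p1 := pen q0 (l := a / 4) (by positivity) (by linarith)
  have p2 : 0 ≤ 1 - 1 / (1 + q ^ 2) := by
    rw [sub_nonneg, div_le_one (by positivity)]; nlinarith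
  refine ENNReal.le_of_add_le_add_right (a := ENNReal.ofReal (q * a)) ENNReal.ofReal_ne_top ?_
  rw [← ENNReal.ofReal_add (by positivity) (by positivity)]
  calc _ ≤ ENNReal.ofReal (2 * q + (1 + 25 / 4 * η) * a) := ENNReal.ofReal_le_ofReal (by nlinarith)
    _ ≤ _ := by
      rw [ENNReal.ofReal_add (by positivity) (by positivity), add_right_comm]
      refine add_le_add_left (e5.trans ?_) _
      rw [← e2, add_comm]
      exact add_le_add_right e4 _

lemma strip (θ η σ : ℝ) : volume (ball (0 : E) 1 ∩ {x | |tr θ x| ≤ η ∧ σ ≤ lo θ x}) ≤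
    ENNReal.ofReal (2 * η) * ENNReal.ofReal (1 - σ) := by
  let l : E →L[ℝ] ℝ := cos θ • EuclideanSpace.proj 0 + sin θ • EuclideanSpace.proj 1
  have hl : ∀ x, l x = lo θ x := fun x => by simp [l, lo]; ring
  have := area (u := l) (s := univ) (l.toLinearMap.convexOn convex_univ) θ
    (T := ball (0 : E) 1 ∩ {x | |tr θ x| ≤ η ∧ σ ≤ lo θ x})
    (measurableSet_ball.inter (by
      simpa [Z] using measurable_prodMk_right (y := θ) (meas_Z MeasurableSet.univ η σ)))
    (subset_univ _)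
    (R := Icc (-η) η ×ˢ Icc σ 1) (measurableSet_Icc.prod measurableSet_Icc) fun x hx _ =>
      ⟨abs_le.1 hx.2.1, by
        have : x 0 ^ 2 + x 1 ^ 2 < 1 := by
          have h := hx.1
          rw [mem_ball_zero_iff, EuclideanSpace.norm_eq, sqrt_lt' one_pos] at h
          simpa using h
        rw [hl]
        exact ⟨hx.2.2, by
          unfold lo
          nlinarith [sq_nonneg (x 0 - cos θ), sq_nonneg (x 1 - sin θ), sin_sq_add_cos_sq θ]⟩⟩
  have e : l (nu θ) = 1 := by
    simp [l, nu]; linarith [sin_sq_add_cos_sq θ]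
  simp only [l.fderiv, e, ENNReal.ofReal_one, setLIntegral_one, Measure.volume_eq_prod,
    Measure.prod_prod, Real.volume_Icc] at this
  convert this using 3
  ring

lemma meas_R {m : ℝ → ℝ} (hm : Continuous m) (η d : ℝ) : MeasurableSet {p : ℝ × ℝ |
    p.1 ∈ Icc (-1 : ℝ) 1 ∧ p.2 ∈ Icc (-m p.1) (-(Icc (-η) η).indicator (fun _ => d) p.1)} :=
  measurableSet_region_between_cc hm.measurable.neg
    (measurable_const.indicator measurableSet_Icc).neg measurableSet_Icc

lemma region {m : ℝ → ℝ} (hm : Continuous m) {η d : ℝ} (h0 : 0 ≤ η) (h1 : η ≤ 1)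
    (hd : ∀ t ∈ Icc (-1 : ℝ) 1, (Icc (-η) η).indicator (fun _ => d) t ≤ m t) :
    volume {p : ℝ × ℝ | p.1 ∈ Icc (-1 : ℝ) 1 ∧
      p.2 ∈ Icc (-m p.1) (-(Icc (-η) η).indicator (fun _ => d) p.1)} =
      ENNReal.ofReal ((∫ t in (-1 : ℝ)..1, m t) - 2 * η * d) := by
  have hi' : IntegrableOn (fun t => (Icc (-η) η).indicator (fun _ => d) t) (Icc (-1) 1) :=
    (integrableOn_const (by simp)).indicator measurableSet_Icc
  rw [Measure.volume_eq_prod, Measure.prod_apply (meas_R hm η d),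
    intervalIntegral.integral_of_le (by norm_num), ← integral_Icc_eq_integral_Ioc]
  have e : 2 * η * d = ∫ t in Icc (-1 : ℝ) 1, (Icc (-η) η).indicator (fun _ => d) t := by
    rw [setIntegral_indicator measurableSet_Icc,
      inter_eq_right.2 (Icc_subset_Icc (by linarith) h1), setIntegral_const]
    simp [Measure.real, h0]
    left; ring
  rw [e, ← integral_sub hm.integrableOn_Icc hi', ofReal_integral_eq_lintegral_ofReal
    (f := fun t => m t - (Icc (-η) η).indicator (fun _ => d) t) (hm.integrableOn_Icc.sub hi') ((ae_restrict_iff' measurableSet_Icc).2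
      (ae_of_all _ fun t ht => sub_nonneg.2 (hd t ht))), ← lintegral_indicator measurableSet_Icc]
  refine lintegral_congr fun t => ?_
  by_cases ht : t ∈ Icc (-1 : ℝ) 1
  · rw [indicator_of_mem ht]
    simp only [preimage_ofPred_eq, ht, true_and, ofPred_mem_eq, Real.volume_Icc]
    congr 1; ring
  · rw [indicator_of_notMem ht]
    simp only [preimage_ofPred_eq, ht, false_and, ofPred_false, measure_empty]

lemma int_m {M e κ : ℝ} (hM : 0 ≤ M) (h1 : 1 ≤ κ) (h2 : M + κ * M ≤ 2) :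
    ∫ t in (-1 : ℝ)..1, min M (min (1 + t + e) ((1 - t + e) / κ)) ≤
      2 * M - M ^ 2 / 2 - κ * M ^ 2 / 2 + 2 * e * M := by
  have hc : Continuous fun t => min M (min (1 + t + e) ((1 - t + e) / κ)) := by fun_prop
  rw [← intervalIntegral.integral_add_adjacent_intervals (b := -1 + M) (hc.intervalIntegrable _ _)
    (hc.intervalIntegrable _ _), ← intervalIntegral.integral_add_adjacent_intervals
    (a := -1 + M) (b := 1 - κ * M) (hc.intervalIntegrable _ _) (hc.intervalIntegrable _ _)]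
  have a1 := intervalIntegral.integral_mono_on (μ := volume) (a := -1) (b := -1 + M) (by linarith)
    (hc.intervalIntegrable _ _) (g := fun t => (1 + e) + t)
    (Continuous.intervalIntegrable (by fun_prop) _ _) fun t _ =>
      ((min_le_right _ _).trans (min_le_left _ _)).trans_eq (by ring)
  have a2 := intervalIntegral.integral_mono_on (μ := volume) (a := -1 + M) (b := 1 - κ * M)
    (by linarith) (hc.intervalIntegrable _ _) (g := fun _ => M)
    (Continuous.intervalIntegrable (by fun_prop) _ _) fun t _ => min_le_left _ _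
  have a3 := intervalIntegral.integral_mono_on (μ := volume) (a := 1 - κ * M) (b := 1)
    (by nlinarith) (hc.intervalIntegrable _ _) (g := fun t => ((1 + e) - t) / κ)
    (Continuous.intervalIntegrable (by fun_prop) _ _) fun t _ =>
      ((min_le_right _ _).trans (min_le_right _ _)).trans_eq (by ring)
  rw [intervalIntegral.integral_add (by simp) (by simp)] at a1
  rw [intervalIntegral.integral_div, intervalIntegral.integral_sub (by simp) (by simp)] at a3
  simp only [intervalIntegral.integral_const, integral_id, smul_eq_mul] at a1 a2 a3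
  have : ((1 - (1 - κ * M)) * (1 + e) - (1 ^ 2 - (1 - κ * M) ^ 2) / 2) / κ =
      e * M + κ * M ^ 2 / 2 := by
    field_simp; ring
  rw [this] at a3
  nlinarith

end Pool.Agent.Lib.MP_b93bad_an
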