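import Pool.Agent.Lib.MP_b93bad_an.C

/-! The resistance of a dihedral body and of the truncated cone. -/

namespace Pool.Agent.Lib.MP_b93bad_an

open MeasureTheory Set Metric Real

lemma tr_mem (θ : ℝ) {x : E} (hx : x ∈ ball (0 : E) 1) : tr θ x ∈ Icc (-1 : ℝ) 1 := by
  have : x 0 ^ 2 + x 1 ^ 2 < 1 := by
    rw [mem_ball_zero_iff, EuclideanSpace.norm_eq, sqrt_lt' one_pos] at hx
    simpa using hx
  unfold tr
  constructor <;> nlinarith [sq_nonneg (x 0 - sin θ), sq_nonneg (x 1 - cos θ),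
    sq_nonneg (x 0 + sin θ), sq_nonneg (x 1 + cos θ), sin_sq_add_cos_sq θ]

lemma slice {u : E → ℝ} (hu : ConvexOn ℝ (closedBall (0 : E) 1) u)
    (u0 : ∀ x ∈ closedBall (0 : E) 1, u x ≤ 0) {Θ : Set ℝ} (hΘ : MeasurableSet Θ)
    {M e κ η σ d θ : ℝ} (hM : 0 < M) (he : 0 ≤ e) (k1 : 1 ≤ κ) (k2 : κ * M ≤ 1 / 2) (h0 : 0 ≤ η)
    (h1 : η ≤ 1 / 25) (hσ : σ ≤ 1) (d1 : d ≤ M / 2)
    (hm : ∀ x ∈ closedBall (0 : E) 1,
      -min M (min (1 + tr θ x + e) ((1 - tr θ x + e) / κ)) ≤ u x)
    (hz : θ ∈ Θ → ∀ τ, |τ| ≤ η → ∃ z ∈ closedBall (0 : E) 1, tr θ z = τ ∧ σ ≤ lo θ z ∧ u z ≤ -d) :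
    ∫⁻ x in ball (0 : E) 1, G u Θ η σ (x, θ) ≤
      ENNReal.ofReal (2 * M - M ^ 2 / 2 - κ * M ^ 2 / 2 + 2 * e * M +
        Θ.indicator (fun _ => (1 + 25 / 4 * η) * (2 * η * (1 - σ)) - 2 * η * d) θ) := by
  have hA : MeasurableSet ((fun x => (x, θ)) ⁻¹' Z Θ η σ) := measurable_prodMk_right (meas_Z hΘ η σ)
  have hM2 : M ≤ 1 / 2 := by nlinarith
  have hc : Continuous fun t => min M (min (1 + t + e) ((1 - t + e) / κ)) := by fun_prop
  have im := int_m (e := e) hM.le k1 (by linarith)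
  have key : ∀ d', d' ≤ M / 2 → (∀ x ∈ ball (0 : E) 1 \ (fun x => (x, θ)) ⁻¹' Z Θ η σ,
      0 < fderiv ℝ u x (nu θ) → |tr θ x| ≤ η → u x ≤ -d') →
      ∫⁻ x in ball (0 : E) 1 \ (fun x => (x, θ)) ⁻¹' Z Θ η σ,
        ENNReal.ofReal (fderiv ℝ u x (nu θ)) ≤
        ENNReal.ofReal (2 * M - M ^ 2 / 2 - κ * M ^ 2 / 2 + 2 * e * M - 2 * η * d') := by
    intro d' d2 h
    refine (area hu θ (measurableSet_ball.diff hA) (sdiff_subset.trans ball_subset_closedBall)
      (meas_R hc η d') fun x hx hp => ⟨tr_mem θ hx.1, hm x (ball_subset_closedBall hx.1), ?_⟩).trans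
      ((region hc h0 (by linarith) fun t ht => ?_).le.trans (ENNReal.ofReal_le_ofReal (by linarith)))
    · by_cases h2 : tr θ x ∈ Icc (-η) η
      · rw [indicator_of_mem h2]; exact h x hx hp (abs_le.2 h2)
      · rw [indicator_of_notMem h2, neg_zero]; exact u0 x (ball_subset_closedBall hx.1)
    · by_cases h2 : t ∈ Icc (-η) η
      · rw [indicator_of_mem h2]
        refine le_min (by linarith) (le_min (by linarith [h2.1]) ?_)
        rw [le_div_iff₀ (by linarith)]
        nlinarith [h2.2]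
      · rw [indicator_of_notMem h2]
        exact le_min hM.le (le_min (by linarith [ht.1]) (div_nonneg (by linarith [ht.2]) (by linarith)))
  refine le_trans (le_of_eq (split volume (I := ball (0 : E) 1) hA
    ((meas_P u).comp measurable_prodMk_right) (ENNReal.ofReal (1 + 25 / 4 * η)))) ?_
  by_cases hθ : θ ∈ Θ
  · have a1 := key d d1 fun x hx hp ht => by
      obtain ⟨z, z1, z2, z3, z4⟩ := hz hθ _ ht
      have : lo θ x < σ := by
        by_contra hc
        exact hx.2 ⟨hθ, ht, not_lt.1 hc⟩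
      exact (after hu (ball_subset_closedBall hx.1) z1 hp z2.symm (this.trans_le z3)).le.trans z4
    have a2 : volume (ball (0 : E) 1 ∩ (fun x => (x, θ)) ⁻¹' Z Θ η σ) ≤ _ :=
      le_trans (measure_mono fun x hx => mem_inter hx.1 hx.2.2) (strip θ η σ)
    rw [← ENNReal.ofReal_mul (by positivity)] at a2
    refine (add_le_add a1 (mul_le_mul_right a2 _)).trans_eq ?_
    rw [indicator_of_mem hθ, ← ENNReal.ofReal_mul (by positivity), ← ENNReal.ofReal_add
      (by nlinarith) (mul_nonneg (by positivity) (mul_nonneg (by positivity) (by linarith)))]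
    congr 1; ring
  · have a1 := key 0 (by linarith) fun x hx _ _ => by
      rw [neg_zero]; exact u0 x (ball_subset_closedBall hx.1)
    have a2 : ball (0 : E) 1 ∩ (fun x => (x, θ)) ⁻¹' Z Θ η σ = ∅ :=
      eq_empty_of_forall_notMem fun x hx => hθ hx.2.1
    rw [a2, indicator_of_notMem hθ]
    simpa using a1

lemma arcs {k : ℕ} (hk : 0 < k) (α : ℝ) {η : ℝ} (h0 : 0 ≤ η) (h1 : k * η ≤ 1) :
    ∃ Θ : Set ℝ, MeasurableSet Θ ∧ Θ ⊆ Ioc α (α + 2 * π) ∧ volume.real Θ = k * η ∧
      ∀ θ ∈ Θ, ∃ i < k, 0 < η ∧ |θ - (α + 2 * i * π / k)| ≤ η := by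
  have hk' : (0 : ℝ) < k := by exact_mod_cast hk
  have key : ∀ i j : ℕ, i < j → α + 2 * i * π / k + η ≤ α + 2 * j * π / k := fun i j h => by
    have : (i : ℝ) + 1 ≤ j := by exact_mod_cast h
    rw [add_assoc, add_le_add_iff_left, div_add' _ _ _ hk'.ne', div_le_div_iff_of_pos_right hk']
    nlinarith [pi_gt_three]
  refine ⟨⋃ i ∈ Finset.range k, Ioc (α + 2 * i * π / k) (α + 2 * i * π / k + η),
    Finset.measurableSet_biUnion _ fun _ _ => measurableSet_Ioc, fun θ h => ?_, ?_, fun θ h => ?_⟩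
  · obtain ⟨i, hi, h⟩ := mem_iUnion₂.1 h
    have := key i k (Finset.mem_range.1 hi)
    have e : 2 * k * π / k = 2 * π := by field_simp
    have : 0 ≤ 2 * i * π / k := by positivity
    exact ⟨by linarith [h.1], by linarith [h.2]⟩
  · rw [measureReal_biUnion_finset (fun i _ j _ h => ?_) (fun _ _ => measurableSet_Ioc)
      (fun _ _ => by simp)]
    · simp [h0]
    · rcases lt_or_gt_of_ne h with h | h
      · exact Ioc_disjoint_Ioc_of_le (key i j h)
      · exact (Ioc_disjoint_Ioc_of_le (key j i h)).symm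
  · obtain ⟨i, hi, h⟩ := mem_iUnion₂.1 h
    exact ⟨i, Finset.mem_range.1 hi, by linarith [h.1, h.2],
      abs_le.2 ⟨by linarith [h.1], by linarith [h.2]⟩⟩

lemma ic (c : ℝ) : IntegrableOn (fun _ => c) (ball (0 : E) 1) :=
  integrableOn_const measure_ball_lt_top.ne

lemma resistance_eq (u : E → ℝ) : resistance u =
    π - ∫ x in ball (0 : E) 1, (1 - 1 / (1 + ‖fderiv ℝ u x‖ ^ 2)) ∧
    IntegrableOn (fun x => 1 / (1 + ‖fderiv ℝ u x‖ ^ 2)) (ball (0 : E) 1) := by
  have hi : IntegrableOn (fun x => 1 / (1 + ‖fderiv ℝ u x‖ ^ 2)) (ball (0 : E) 1) :=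
    Measure.integrableOn_of_bounded (M := 1) measure_ball_lt_top.ne
      (((measurable_fderiv ℝ u).norm.pow_const 2).const_add 1 |>.const_div 1).aestronglyMeasurable
      (ae_of_all _ fun x => by
        rw [norm_of_nonneg (by positivity), div_le_one (by positivity)]
        nlinarith [sq_nonneg ‖fderiv ℝ u x‖])
  refine ⟨?_, hi⟩
  rw [integral_sub (ic 1) hi, setIntegral_const]
  simp [resistance, Measure.real, pi_pos.le]

variable {k : ℕ} {α M : ℝ} {g : ℝ → ℝ}

lemma estimate (hk : 3 ≤ k) (hM : 0 < M) (hM' : M ≤ 1 / 4)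
    (hg : ∀ r ∈ Icc (0 : ℝ) 1, -M ≤ g r ∧ g r ≤ 0) {e r η : ℝ} (he0 : 0 ≤ e)
    (he : ∀ r ∈ Icc (0 : ℝ) 1, -g r - (1 - r) ≤ e) (hr : r ∈ Icc (0 : ℝ) 1) (hr' : 1 / 2 ≤ r)
    (h0 : 0 ≤ η) (h1 : k * η ≤ 1 / 10) :
    π - (π * M - π * M ^ 2 / 2 + π * e * M - π * M / (8 * k ^ 2) + k * η / 4 *
      ((1 + 25 / 4 * η) * (2 * η * ((1 - r) / 2 + 5 * η ^ 2)) + η * g r)) ≤
      resistance (bottom k α g) := by
  have hk' : (3 : ℝ) ≤ k := by exact_mod_cast hk
  have h2 : η ≤ 1 / 25 := by nlinarith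
  obtain ⟨Θ, hΘ, t1, t2, t3⟩ := arcs (by omega : 0 < k) α h0 (by linarith)
  obtain ⟨w, hw⟩ : ∃ w : ℝ → ℝ, w = fun θ => (1 - cos (k * (θ - π / 2 - α))) / k ^ 2 := ⟨_, rfl⟩
  have w0 : ∀ θ, 0 ≤ w θ := fun θ => by
    rw [hw]; exact div_nonneg (by linarith [cos_le_one (k * (θ - π / 2 - α))]) (by positivity)
  have w1 : ∀ θ, w θ ≤ 1 / 2 := fun θ => by
    rw [hw, div_le_iff₀ (by positivity)]; nlinarith [neg_one_le_cos (k * (θ - π / 2 - α))]
  have wi : ∫ θ in α..α + 2 * π, w θ = 2 * π / k ^ 2 := by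
    have : ∫ θ in α..α + 2 * π, cos (k * (θ - π / 2 - α)) = 0 := by
      simp only [sub_sub, mul_sub]
      rw [intervalIntegral.integral_comp_mul_sub cos (by positivity), integral_cos,
        show k * (α + 2 * π) - k * (π / 2 + α) = k * α - k * (π / 2 + α) + k * (2 * π) by ring,
        sin_add_nat_mul_two_pi]
      simp
    rw [hw, intervalIntegral.integral_div, intervalIntegral.integral_sub (by simp)
      (Continuous.intervalIntegrable (by fun_prop) _ _), this]
    simp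
  have wc : Continuous w := by rw [hw]; fun_prop
  obtain ⟨D, hD⟩ : ∃ D, D = (1 + 25 / 4 * η) * (2 * η * (1 - ((1 + r) / 2 - 5 * η ^ 2))) -
    2 * η * (-g r / 2) := ⟨_, rfl⟩
  obtain ⟨g1, g2⟩ := hg r hr
  have sl : ∀ θ, ∫⁻ x in ball (0 : E) 1, G (bottom k α g) Θ η ((1 + r) / 2 - 5 * η ^ 2) (x, θ) ≤
      ENNReal.ofReal (2 * M - M ^ 2 + 2 * e * M - M / 4 * w θ + Θ.indicator (fun _ => D) θ) := by
    intro θ
    have := w0 θ
    refine (slice (bottom_convex hM hg) (fun x hx => bottom_le hM hg (mem_zero hx)) hΘ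
      (κ := 1 + w θ / (2 * M)) (d := -g r / 2) hM he0 (le_add_of_nonneg_right (by positivity))
      (by have := w1 θ; field_simp; linarith) h0 h2 (by nlinarith [hr.2]) (by linarith)
      (fun x hx => ?_) fun hθ τ hτ => ?_).trans_eq ?_
    · have a1 := depth hM hg hM' he0 he le_rfl (by norm_num) (ω := θ + π / 2) (k := k) (α := α)
        (fun i => by linarith [cos_le_one (θ + π / 2 - (α + 2 * i * π / k))]) hx
      have a2 := depth hM hg hM' he0 he this (w1 θ) (ω := θ - π / 2) (k := k) (α := α)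
        (fun i => by rw [hw]; exact w_le (by omega) _ i) hx
      have a3 := le_bottom hx fun z hz => hull_ge (k := k) (α := α) hM hg hz
      have b1 : lo (θ + π / 2) x = -tr θ x := by simp [lo, tr, cos_add, sin_add]; ring
      have b2 : lo (θ - π / 2) x = tr θ x := by simp [lo, tr, cos_sub, sin_sub]; ring
      rw [b1] at a1
      rw [b2] at a2
      rw [neg_le] at *
      exact le_min a3 (le_min (by simpa using a1) a2)
    · obtain ⟨i, hi, e0, e1⟩ := t3 θ hθ
      obtain ⟨z, z1, z2, z3, z4⟩ := middle (g := g) hi hr (by linarith) e1 e0 hτ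
      exact ⟨z, z1, z2, z3, (bottom_le hM hg z4).trans_eq (by ring)⟩
    · rw [hD]; congr 2; field_simp; ring
  obtain ⟨r1, r2⟩ := resistance_eq (bottom k α g)
  have p2 : ∀ q : ℝ, 0 ≤ 1 - 1 / (1 + q ^ 2) := fun q => by
    rw [sub_nonneg, div_le_one (by positivity)]; nlinarith
  have iD : IntegrableOn (Θ.indicator fun _ => D) (Ioc α (α + 2 * π)) :=
    (integrableOn_const measure_Ioc_lt_top.ne (by simp)).indicator hΘ
  have iw : IntegrableOn (fun θ => 2 * M - M ^ 2 + 2 * e * M - M / 4 * w θ) (Ioc α (α + 2 * π)) :=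
    (Continuous.integrableOn_Icc (by fun_prop)).mono_set Ioc_subset_Icc_self
  have D0 : -M ≤ D := by
    have : 0 ≤ (1 + 25 / 4 * η) * (2 * η * (1 - ((1 + r) / 2 - 5 * η ^ 2))) :=
      mul_nonneg (by positivity) (mul_nonneg (by positivity) (by nlinarith [hr.2]))
    rw [hD]; nlinarith
  have nn : ∀ θ, 0 ≤ 2 * M - M ^ 2 + 2 * e * M - M / 4 * w θ + Θ.indicator (fun _ => D) θ := by
    intro θ
    have := w1 θ
    have : -M ≤ Θ.indicator (fun _ => D) θ := by
      by_cases h : θ ∈ Θ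
      · rwa [indicator_of_mem h]
      · rw [indicator_of_notMem h]; linarith
    nlinarith [mul_nonneg he0 hM.le]
  have main := (setLIntegral_mono' (μ := volume) measurableSet_ball fun x hx =>
    pointwise (bottom k α g) hΘ α h0 h2 (σ := (1 + r) / 2 - 5 * η ^ 2) (by nlinarith) hx).trans
    ((lintegral_lintegral_swap (f := fun x θ => G (bottom k α g) Θ η _ (x, θ))
      (meas_G _ hΘ _ _).aemeasurable).le.trans (lintegral_mono sl))
  rw [← ofReal_integral_eq_lintegral_ofReal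
    (f := fun x => 4 * (1 - 1 / (1 + ‖fderiv ℝ (bottom k α g) x‖ ^ 2)))
    (((ic 1).sub r2).const_mul 4) (ae_of_all _ fun x => mul_nonneg (by norm_num) (p2 _)),
    ← ofReal_integral_eq_lintegral_ofReal (f := fun θ => 2 * M - M ^ 2 + 2 * e * M - M / 4 * w θ +
      Θ.indicator (fun _ => D) θ) (Integrable.add iw iD) (ae_of_all _ nn),
    ENNReal.ofReal_le_ofReal_iff (integral_nonneg nn), integral_const_mul, integral_add iw iD,
    setIntegral_indicator hΘ, inter_eq_right.2 t1, setIntegral_const, t2,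
    ← intervalIntegral.integral_of_le (by linarith [pi_pos]), intervalIntegral.integral_sub (by simp)
      ((wc.intervalIntegrable _ _).const_mul _), intervalIntegral.integral_const_mul, wi] at main
  simp only [intervalIntegral.integral_const, smul_eq_mul] at main
  rw [r1]
  have : M / 4 * (2 * π / k ^ 2) = 4 * (π * M / (8 * k ^ 2)) := by field_simp; ring
  rw [this, hD] at main
  linarith

lemma cone (hM : 0 < M) (hM' : M ≤ 1) : ∃ v : E → ℝ, ConvexOn ℝ (ball (0 : E) 1) v ∧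
    (∀ x ∈ ball (0 : E) 1, -M ≤ v x ∧ v x ≤ 0) ∧ resistance v ≤ π - π * M + π * M ^ 2 / 2 := by
  refine ⟨fun x => max (-M) (‖x‖ - 1), (convexOn_const _ (convex_ball _ _)).sup
    ((convexOn_norm (convex_ball _ _)).sub (concaveOn_const _ (convex_ball _ _))),
    fun x hx => ⟨le_max_left _ _, max_le (by linarith) (by simpa using (mem_ball_zero_iff.1 hx).le)⟩,
    ?_⟩
  have i1 : IntegrableOn ((closedBall (0 : E) (1 - M)).indicator fun _ => (1 / 2 : ℝ))
      (ball (0 : E) 1) := (ic _).indicator measurableSet_closedBall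
  refine (setIntegral_mono_on (resistance_eq _).2
    ((ic (1 / 2)).add i1) measurableSet_ball
    fun x _ => ?_).trans ?_
  · simp only [Pi.add_apply]
    by_cases h : x ∈ closedBall (0 : E) (1 - M)
    · rw [indicator_of_mem h, div_le_iff₀ (by positivity)]
      nlinarith [sq_nonneg ‖fderiv ℝ (fun x : E => max (-M) (‖x‖ - 1)) x‖]
    · have h' : 1 - M < ‖x‖ := by simpa using h
      have hx : x ≠ 0 := by rintro rfl; simp at h'; linarith
      have e : (fun x : E => max (-M) (‖x‖ - 1)) =ᶠ[nhds x] fun x => ‖x‖ - 1 := by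
        filter_upwards [(isOpen_lt continuous_const continuous_norm).mem_nhds h'] with y hy
        exact max_eq_right (by have : 1 - M < ‖y‖ := hy; linarith)
      rw [indicator_of_notMem h, e.fderiv_eq, fderiv_sub_const,
        norm_fderiv_norm (differentiableAt_id.norm ℝ hx)]
      norm_num
  · have v1 := measureReal_mono (μ := (volume : Measure E))
      (inter_subset_right (s := ball 0 1) (t := closedBall (0 : E) (1 - M)))
      measure_closedBall_lt_top.ne
    simp only [Pi.add_apply]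
    rw [integral_add (ic _) i1,
      setIntegral_indicator measurableSet_closedBall, setIntegral_const, setIntegral_const]
    have v2 : volume.real (closedBall (0 : E) (1 - M)) = (1 - M) ^ 2 * π := by
      simp [Measure.real, pi_pos.le, hM']
    have v3 : volume.real (ball (0 : E) 1) = π := by simp [Measure.real, pi_pos.le]
    rw [v2] at v1
    rw [v3, smul_eq_mul, smul_eq_mul]
    linarith

end Pool.Agent.Lib.MP_b93bad_an
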