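import Mathlib

/-! Newton's problem of minimal resistance: definitions. -/

namespace Pool.Agent.Lib.MP_b93bad_an

/-- Newton's resistance of `u` over the unit disk. -/
noncomputable def resistance (u : EuclideanSpace ℝ (Fin 2) → ℝ) : ℝ :=
  ∫ x in Metric.ball (0 : EuclideanSpace ℝ (Fin 2)) 1, 1 / (1 + ‖fderiv ℝ u x‖ ^ 2)

/-- The rim circle at height `0` together with the `k` radial curves with profile `g` in the
directions `α + 2 π i / k`. -/
def frame (k : ℕ) (α : ℝ) (g : ℝ → ℝ) : Set (EuclideanSpace ℝ (Fin 2) × ℝ) :=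
  {p | (‖p.1‖ = 1 ∧ p.2 = 0) ∨ ∃ i : ℕ, i < k ∧ ∃ r ∈ Set.Icc (0 : ℝ) 1,
    p.1 0 = r * Real.cos (α + 2 * i * Real.pi / k) ∧
    p.1 1 = r * Real.sin (α + 2 * i * Real.pi / k) ∧ p.2 = g r}

/-- The function whose graph is the bottom surface of the convex hull of the frame. -/
noncomputable def bottom (k : ℕ) (α : ℝ) (g : ℝ → ℝ) (y : EuclideanSpace ℝ (Fin 2)) : ℝ :=
  sInf {z : ℝ | (y, z) ∈ convexHull ℝ (frame k α g)}

end Pool.Agent.Lib.MP_b93bad_an
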