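import Pool.Agent.Lib.MP_b93bad_an.D

/-! Polar coordinates and a lower bound for the resistance of bodies with many ridges. -/

namespace Pool.Agent.Lib.MP_b93bad_an

open MeasureTheory Set Metric Real

lemma cont_nu : Continuous nu := by unfold nu; fun_prop

lemma pol {F : E → ENNReal} (hF : Measurable F) :
    ∫⁻ x, F x = ∫⁻ φ in Ioo (-π) π, ∫⁻ r in Ioi (0 : ℝ), ENNReal.ofReal r * F (r • nu φ) := by
  have mp := (PiLp.volume_preserving_toLp (Fin 2)).comp (volume_preserving_finTwoArrow ℝ).symm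
  rw [← mp.lintegral_comp hF, ← lintegral_comp_polarCoord_symm]
  have hm : Measurable fun p : ℝ × ℝ => ENNReal.ofReal p.1 * F (p.1 • nu p.2) :=
    measurable_fst.ennreal_ofReal.mul (hF.comp
      (continuous_fst.smul (cont_nu.comp continuous_snd)).measurable)
  rw [← lintegral_prod_symm' _ hm, Measure.prod_restrict, ← Measure.volume_eq_prod]
  refine lintegral_congr fun p => ?_
  rw [smul_eq_mul]
  congr 2
  ext i
  fin_cases i <;> simp [nu]

lemma norm_ray (φ : ℝ) {r : ℝ} (hr : 0 ≤ r) : ‖r • nu φ‖ = r := by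
  rw [norm_smul, norm_nu, mul_one, norm_of_nonneg hr]

lemma polInt {F : E → ℝ} (hF : Measurable F) (h0 : ∀ x, 0 ≤ F x)
    (hi : IntegrableOn F (ball (0 : E) 1)) : ENNReal.ofReal (∫ x in ball (0 : E) 1, F x) =
      ∫⁻ φ in Ioo (-π) π, ∫⁻ r in Ioo (0 : ℝ) 1, ENNReal.ofReal (r * F (r • nu φ)) := by
  rw [ofReal_integral_eq_lintegral_ofReal hi (ae_of_all _ h0), ← lintegral_indicator measurableSet_ball,
    pol (hF.ennreal_ofReal.indicator measurableSet_ball)]
  refine lintegral_congr fun φ => ?_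
  rw [← lintegral_indicator measurableSet_Ioi, ← lintegral_indicator measurableSet_Ioo]
  refine lintegral_congr fun r => ?_
  by_cases h : r ∈ Ioi (0 : ℝ)
  · have e : r • nu φ ∈ ball (0 : E) 1 ↔ r ∈ Ioo (0 : ℝ) 1 := by
      rw [mem_ball_zero_iff, norm_ray φ (le_of_lt h)]
      exact ⟨fun a => ⟨h, a⟩, fun a => a.2⟩
    rw [indicator_of_mem h]
    by_cases h1 : r ∈ Ioo (0 : ℝ) 1
    · rw [indicator_of_mem h1, indicator_of_mem (e.2 h1), ENNReal.ofReal_mul (le_of_lt h)]
    · rw [indicator_of_notMem h1, indicator_of_notMem (fun a => h1 (e.1 a)), mul_zero]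
  · rw [indicator_of_notMem h, indicator_of_notMem fun a => h a.1]

lemma lint {h : ℝ → ℝ} (hc : Continuous h) {a b : ℝ} (hab : a ≤ b) (h0 : ∀ x ∈ Ioc a b, 0 ≤ h x) :
    ∫⁻ x in Ioc a b, ENNReal.ofReal (h x) = ENNReal.ofReal (∫ x in a..b, h x) := by
  rw [intervalIntegral.integral_of_le hab, ofReal_integral_eq_lintegral_ofReal
    (hc.integrableOn_Icc.mono_set Ioc_subset_Icc_self)
    ((ae_restrict_iff' measurableSet_Ioc).2 (ae_of_all _ h0))]

lemma near {k : ℕ} (hk : 0 < k) (α φ : ℝ) :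
    ∃ j < k, cos (π / k) ≤ cos (α + 2 * j * π / k - φ) := by
  have hk' : (0 : ℝ) < k := by exact_mod_cast hk
  have p0 := pi_pos
  set m : ℤ := round ((φ - α) * k / (2 * π)) with hm
  have h1 := abs_sub_round ((φ - α) * k / (2 * π))
  rw [← hm] at h1
  have k0 : (k : ℤ) ≠ 0 := by exact_mod_cast hk.ne'
  obtain ⟨j, hj⟩ := Int.eq_ofNat_of_zero_le (Int.emod_nonneg m k0)
  have h2 := Int.emod_lt_of_pos m (show (0 : ℤ) < k by exact_mod_cast hk)
  refine ⟨j, by omega, ?_⟩
  have h3 : (m : ℝ) = j + k * (m / k : ℤ) := by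
    have := Int.emod_add_mul_ediv m k
    rw [hj] at this
    exact_mod_cast this.symm
  have e : α + 2 * j * π / k - φ =
      -(((φ - α) * k / (2 * π) - m) * (2 * π / k)) - (m / k : ℤ) * (2 * π) := by
    rw [h3]; field_simp; ring
  rw [e, cos_sub_int_mul_two_pi, cos_neg, ← cos_abs (_ * _)]
  refine cos_le_cos_of_nonneg_of_le_pi (abs_nonneg _) ?_ ?_
  · rw [div_le_iff₀ hk']
    have : (1 : ℝ) ≤ k := by exact_mod_cast hk
    nlinarith
  · rw [abs_mul, abs_of_pos (show 0 < 2 * π / k by positivity)]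
    calc _ ≤ 1 / 2 * (2 * π / k) := by gcongr
      _ = π / k := by ring

lemma dir (L : E →L[ℝ] ℝ) : ∃ φ R : ℝ, ‖L‖ ≤ R ∧ ∀ θ, L (nu θ) = R * cos (θ - φ) := by
  obtain ⟨φ, -, hφ⟩ := polar (L (EuclideanSpace.single 0 1)) (L (EuclideanSpace.single 1 1))
  refine ⟨φ, _, ?_, fun θ => (clm_apply L θ).trans (hφ θ).1⟩
  refine L.opNorm_le_bound (sqrt_nonneg _) fun x => ?_
  have : x = x 0 • EuclideanSpace.single 0 1 + x 1 • EuclideanSpace.single 1 1 := by
    ext i; fin_cases i <;> simp
  rw [EuclideanSpace.norm_eq, ← sqrt_mul (by positivity)]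
  refine Real.abs_le_sqrt ?_
  nth_rewrite 1 [this]
  simp only [map_add, map_smul, smul_eq_mul, Fin.sum_univ_two, norm_eq_abs, sq_abs]
  nlinarith [sq_nonneg (x 0 * L (EuclideanSpace.single 1 1) - x 1 * L (EuclideanSpace.single 0 1))]

variable {k : ℕ} {α M : ℝ} {g : ℝ → ℝ}

lemma cos_pos' (hk : 3 ≤ k) : 0 < cos (π / k) := by
  have hk' : (3 : ℝ) ≤ k := by exact_mod_cast hk
  have := pi_pos
  refine cos_pos_of_mem_Ioo ⟨by linarith [show 0 < π / k by positivity], ?_⟩
  rw [div_lt_div_iff₀ (by linarith) two_pos]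
  nlinarith

/-- the gradient of a dihedral body is nearly radial -/
lemma grad (hk : 3 ≤ k) (hM : 0 < M) (hg : ∀ r ∈ Icc (0 : ℝ) 1, -M ≤ g r ∧ g r ≤ 0) {x : E}
    (hx : x ∈ closedBall (0 : E) 1) :
    cos (π / k) * ‖fderiv ℝ (bottom k α g) x‖ * ‖x‖ ≤ fderiv ℝ (bottom k α g) x x := by
  by_cases hd : DifferentiableAt ℝ (bottom k α g) x
  swap
  · simp [fderiv_zero_of_not_differentiableAt hd]
  have sup := fun y hy => support (bottom_convex (k := k) (α := α) hM hg) hx (y := y) hy hd
  generalize fderiv ℝ (bottom k α g) x = L at *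
  obtain ⟨φ, R, hR, hL⟩ := dir L
  have c0 := cos_pos' hk
  have c1 := cos_le_one (π / k)
  have n0 := norm_nonneg L
  have key : ∀ p ∈ convexHull ℝ (frame k α g),
      bottom k α g x - L x + cos (π / k) * ‖L‖ * ‖p.1‖ ≤ p.2 := by
    refine convexHull_min (t := {p : E × ℝ |
      bottom k α g x - L x + cos (π / k) * ‖L‖ * ‖p.1‖ ≤ p.2}) ?_ ?_
    · rintro p (⟨h1, h2⟩ | ⟨i, -, r, hr, h1, h2, h3⟩)
      · have m : nu φ ∈ closedBall (0 : E) 1 := by simp [norm_nu]
        have a := (sup _ m).trans (bottom_le hM hg (mem_zero m))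
        rw [map_sub, hL, sub_self, cos_zero] at a
        rw [mem_ofPred_eq, h1, h2]
        nlinarith
      · obtain ⟨j, hj, a⟩ := near (show 0 < k by omega) α φ
        have m : r • nu (α + 2 * j * π / k) ∈ closedBall (0 : E) 1 := by
          rw [mem_closedBall_zero_iff, norm_ray _ hr.1]; exact hr.2
        have b := (sup _ m).trans (bottom_le (z := g r) hM hg (subset_convexHull ℝ _
          (Or.inr ⟨j, hj, r, hr, by simp [nu], by simp [nu], rfl⟩)))
        have e : p.1 = r • nu (α + 2 * i * π / k) := by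
          ext t; fin_cases t <;> simp [nu, h1, h2]
        rw [map_sub, map_smul, hL, smul_eq_mul] at b
        rw [mem_ofPred_eq, h3, e, norm_ray _ hr.1]
        have : cos (π / k) * ‖L‖ ≤ R * cos (α + 2 * j * π / k - φ) := by nlinarith
        nlinarith [mul_le_mul_of_nonneg_left this hr.1]
    · intro p hp q hq s t hs ht hst
      have h1 := mul_le_mul_of_nonneg_left (show _ ≤ p.2 from hp) hs
      have h2 := mul_le_mul_of_nonneg_left (show _ ≤ q.2 from hq) ht
      have h3 : ‖s • p.1 + t • q.1‖ ≤ s * ‖p.1‖ + t * ‖q.1‖ := by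
        refine (norm_add_le _ _).trans ?_
        rw [norm_smul, norm_smul, norm_of_nonneg hs, norm_of_nonneg ht]
      have h4 := mul_le_mul_of_nonneg_left h3 (mul_nonneg c0.le n0)
      have h5 : s * (bottom k α g x - L x) + t * (bottom k α g x - L x) =
          bottom k α g x - L x := by rw [← add_mul, hst, one_mul]
      simp only [mem_ofPred_eq, Prod.fst_add, Prod.smul_fst, smul_eq_mul, Prod.snd_add,
        Prod.smul_snd]
      linarith
  have := le_bottom (k := k) (α := α) (g := g)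
    (c := bottom k α g x - L x + cos (π / k) * ‖L‖ * ‖x‖) hx fun z hz => key (x, z) hz
  linarith

lemma ray {u : E → ℝ} (hu : ConvexOn ℝ (closedBall (0 : E) 1) u)
    (hb : ∀ x ∈ closedBall (0 : E) 1, -M ≤ u x ∧ u x ≤ 0) (φ : ℝ) :
    ∫⁻ r in Ioo (0 : ℝ) 1, ENNReal.ofReal (fderiv ℝ u (r • nu φ) (nu φ)) ≤ ENNReal.ofReal M := by
  let P := {r : ℝ | 0 < fderiv ℝ u (r • nu φ) (nu φ)}
  have hP : MeasurableSet P := measurableSet_lt measurable_const
    ((measurable_fderiv_apply_const ℝ u _).comp (continuous_id.smul continuous_const).measurable)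
  have mem : ∀ r ∈ Ioo (0 : ℝ) 1, r • nu φ ∈ closedBall (0 : E) 1 := fun r hr => by
    rw [mem_closedBall_zero_iff, norm_ray _ hr.1.le]; exact hr.2.le
  have mono : ∀ r ∈ Ioo (0 : ℝ) 1 ∩ P, ∀ s ∈ Ioo (0 : ℝ) 1 ∩ P, r < s →
      u (r • nu φ) < u (s • nu φ) := fun r hr s hs h => by
    refine after hu (mem r hr.1) (mem s hs.1) hr.2 ?_ ?_
    · simp [tr, nu]; ring
    · have := sin_sq_add_cos_sq φ
      simp only [lo, nu, PiLp.smul_apply, smul_eq_mul, Matrix.cons_val_zero, Matrix.cons_val_one]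
      nlinarith
  have key := lintegral_image_eq_lintegral_abs_deriv_mul (measurableSet_Ioo.inter hP)
    (s := Ioo (0 : ℝ) 1 ∩ P) (f := fun r => u (r • nu φ))
    (f' := fun r => fderiv ℝ u (r • nu φ) (nu φ)) (fun r hr => by
      have hd : DifferentiableAt ℝ u (r • nu φ) := by
        by_contra hd
        have := hr.2
        simp [P, fderiv_zero_of_not_differentiableAt hd] at this
      have := hd.hasFDerivAt.comp_hasDerivAt r ((hasDerivAt_id r).smul_const (nu φ))
      rw [one_smul] at this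
      exact this.hasDerivWithinAt)
    (fun r hr s hs e => le_antisymm (not_lt.1 fun h => (mono s hs r hr h).ne' e)
      (not_lt.1 fun h => (mono r hr s hs h).ne e)) fun _ => 1
  calc _ = ∫⁻ r in Ioo (0 : ℝ) 1 ∩ P, ENNReal.ofReal |fderiv ℝ u (r • nu φ) (nu φ)| * 1 := by
        rw [inter_comm, ← Measure.restrict_restrict hP, ← lintegral_indicator hP]
        refine lintegral_congr fun x => ?_
        by_cases hx : x ∈ P
        · rw [indicator_of_mem hx, abs_of_pos hx, mul_one]
        · rw [indicator_of_notMem hx, ENNReal.ofReal_of_nonpos (not_lt.1 hx)]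
    _ = _ := key.symm
    _ ≤ volume (Icc (-M) 0) := by
        rw [setLIntegral_one]
        refine measure_mono ?_
        rintro _ ⟨r, hr, rfl⟩
        exact hb _ (mem r hr.1)
    _ = _ := by simp

lemma pen2 {q l : ℝ} (hq : 0 ≤ q) (h0 : 0 ≤ l) (h1 : l ≤ 1 / 100) :
    1 - 1 / (1 + q ^ 2) ≤ q / 2 - l * (q - 1) + 101 / 100 * l ^ 2 := by
  have hp : 0 < 1 + q ^ 2 := by positivity
  have e : 1 - 1 / (1 + q ^ 2) = q / 2 - q * (q - 1) ^ 2 / (2 * (1 + q ^ 2)) := by
    field_simp; ring
  have n : 0 ≤ q * (q - 1) ^ 2 / (2 * (1 + q ^ 2)) := by positivity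
  rw [e]
  rcases le_total q 1 with h | h
  · nlinarith [sq_nonneg l]
  rcases le_total q (1 + 5 * l) with h' | h'
  · have : (q - 1) ^ 2 / (404 / 100) ≤ q * (q - 1) ^ 2 / (2 * (1 + q ^ 2)) := by
      rw [div_le_div_iff₀ (by norm_num) (by positivity)]
      have : 2 * (1 + q ^ 2) ≤ q * (404 / 100) := by nlinarith
      nlinarith [sq_nonneg (q - 1)]
    nlinarith [sq_nonneg (q - 1 - 202 / 100 * l)]
  · have : l * (q - 1) ≤ q * (q - 1) ^ 2 / (2 * (1 + q ^ 2)) := by
      rw [le_div_iff₀ (by positivity)]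
      have : l * (2 * (1 + q ^ 2)) ≤ q * (q - 1) := by nlinarith
      nlinarith
    nlinarith [sq_nonneg l]

lemma lower (hk : 3 ≤ k) (hM : 0 < M) (hM' : M ≤ 1 / 50)
    (hg : ∀ r ∈ Icc (0 : ℝ) 1, -M ≤ g r ∧ g r ≤ 0) :
    π - π * ((1 - M) * M / cos (π / k) + M ^ 2 / 2 + 101 / 600 * M ^ 3 / (1 - M)) ≤
      resistance (bottom k α g) := by
  have c0 := cos_pos' hk
  have p0 := pi_pos
  have r0 : 0 < 1 - M := by linarith
  obtain ⟨e, hi⟩ := resistance_eq (bottom k α g)
  have hb : ∀ x ∈ closedBall (0 : E) 1, -M ≤ bottom k α g x ∧ bottom k α g x ≤ 0 := fun x hx =>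
    ⟨le_bottom hx fun z hz => hull_ge hM hg hz, bottom_le hM hg (mem_zero hx)⟩
  have gr := fun x hx => grad (α := α) hk hM hg (x := x) hx
  have ry := ray (bottom_convex (k := k) (α := α) hM hg) hb
  generalize bottom k α g = u at *
  rw [e]
  refine sub_le_sub_left ((ENNReal.ofReal_le_ofReal_iff (by positivity)).1 ?_) _
  rw [polInt (F := fun x => 1 - 1 / (1 + ‖fderiv ℝ u x‖ ^ 2))
    ((((measurable_fderiv ℝ u).norm.pow_const 2).const_add 1 |>.const_div 1).const_sub 1)
    (fun x => by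
      rw [sub_nonneg, div_le_one (by positivity)]; nlinarith [sq_nonneg ‖fderiv ℝ u x‖])
    ((ic 1).sub hi)]
  let ψ : ℝ → ℝ := fun r => (r - (1 - M)) / 2 + 101 / 400 * (r - (1 - M)) ^ 2 / (1 - M)
  have i1 : ∫⁻ r in Ioc (1 - M) 1, ENNReal.ofReal (ψ r) =
      ENNReal.ofReal (M ^ 2 / 4 + 101 / 1200 * M ^ 3 / (1 - M)) := by
    rw [lint (by fun_prop) (by linarith) fun r hr => by
      have := sub_pos.2 hr.1
      positivity]
    congr 1
    have := intervalIntegral.integral_eq_sub_of_hasDerivAt (a := 1 - M) (b := 1) (f' := ψ)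
      (f := fun r => (r - (1 - M)) ^ 2 / 4 + 101 / 1200 * (r - (1 - M)) ^ 3 / (1 - M))
      (fun r _ => by
        have a := (hasDerivAt_id' r).sub_const (1 - M)
        refine (((a.fun_pow 2).div_const 4).fun_add
          (((a.fun_pow 3).const_mul (101 / 1200)).div_const (1 - M))).congr_deriv ?_
        simp only [ψ]; push_cast; ring)
      (Continuous.intervalIntegrable (by fun_prop) _ _)
    rw [this]; ring
  have inner : ∀ φ, ∫⁻ r in Ioo (0 : ℝ) 1,
      ENNReal.ofReal (r * (1 - 1 / (1 + ‖fderiv ℝ u (r • nu φ)‖ ^ 2))) ≤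
      ENNReal.ofReal (((1 - M) * M / cos (π / k) + M ^ 2 / 2 + 101 / 600 * M ^ 3 / (1 - M)) / 2) := by
    intro φ
    calc _ ≤ ∫⁻ r in Ioo (0 : ℝ) 1, ((Ioc (1 - M) 1).indicator (fun r => ENNReal.ofReal (ψ r)) r +
            ENNReal.ofReal ((1 - M) / (2 * cos (π / k))) *
              ENNReal.ofReal (fderiv ℝ u (r • nu φ) (nu φ))) := by
          refine setLIntegral_mono' measurableSet_Ioo fun r hr => ?_
          have a := gr (r • nu φ) (by
            rw [mem_closedBall_zero_iff, norm_ray _ hr.1.le]; exact hr.2.le)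
          rw [norm_ray _ hr.1.le, map_smul, smul_eq_mul, mul_comm r] at a
          have b := le_of_mul_le_mul_right a hr.1
          have q0 := norm_nonneg (fderiv ℝ u (r • nu φ))
          generalize ‖fderiv ℝ u (r • nu φ)‖ = q at *
          generalize fderiv ℝ u (r • nu φ) (nu φ) = D at *
          have D0 : 0 ≤ D := le_trans (by positivity) b
          have d : (1 - M) / 2 * q ≤ (1 - M) / (2 * cos (π / k)) * D := by
            rw [div_mul_eq_mul_div _ (2 * _), le_div_iff₀ (by positivity)]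
            nlinarith [mul_le_mul_of_nonneg_left b r0.le]
          rw [← ENNReal.ofReal_mul (by positivity)]
          by_cases h : r ∈ Ioc (1 - M) 1
          · have s0 := sub_pos.2 h.1
            have hr0 := hr.1
            rw [indicator_of_mem h, ← ENNReal.ofReal_add (by positivity) (by positivity)]
            refine ENNReal.ofReal_le_ofReal ?_
            have w := mul_le_mul_of_nonneg_left (pen2 (l := (r - (1 - M)) / (2 * r)) q0
              (by positivity) (by rw [div_le_iff₀ (by positivity)]; nlinarith [h.1, h.2])) hr0.le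
            have w1 : r * (q / 2 - (r - (1 - M)) / (2 * r) * (q - 1) +
                101 / 100 * ((r - (1 - M)) / (2 * r)) ^ 2) = (1 - M) / 2 * q + (r - (1 - M)) / 2 +
                101 / 400 * (r - (1 - M)) ^ 2 / r := by field_simp; ring
            have w2 : 101 / 400 * (r - (1 - M)) ^ 2 / r ≤
                101 / 400 * (r - (1 - M)) ^ 2 / (1 - M) := by gcongr; exact h.1.le
            simp only [ψ]
            linarith
          · rw [indicator_of_notMem h, zero_add]
            refine ENNReal.ofReal_le_ofReal ?_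
            have h' : r ≤ 1 - M := not_lt.1 fun a => h ⟨a, hr.2.le⟩
            have w := mul_le_mul_of_nonneg_left (pen2 (l := 0) q0 le_rfl (by norm_num)) hr.1.le
            nlinarith
      _ ≤ ENNReal.ofReal (M ^ 2 / 4 + 101 / 1200 * M ^ 3 / (1 - M)) +
            ENNReal.ofReal ((1 - M) / (2 * cos (π / k))) * ENNReal.ofReal M := by
          rw [lintegral_add_left (Measurable.indicator (by fun_prop) measurableSet_Ioc),
            lintegral_const_mul' _ _ ENNReal.ofReal_ne_top]
          refine add_le_add ?_ (mul_le_mul_right (ry φ) _)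
          rw [← i1, ← lintegral_indicator measurableSet_Ioc]
          exact setLIntegral_le_lintegral _ _
      _ = _ := by
          rw [← ENNReal.ofReal_mul (by positivity),
            ← ENNReal.ofReal_add (by positivity) (by positivity)]
          congr 1
          field_simp
          ring
  refine (lintegral_mono inner).trans (le_of_eq ?_)
  rw [setLIntegral_const, volume_Ioo, ← ENNReal.ofReal_mul (by positivity)]
  congr 1
  ring

end Pool.Agent.Lib.MP_b93bad_an
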