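import Pool.Agent.Lib.MP_b93bad_an.U1

/-! A competitor with about `2.5 / M` faces that beats all bodies with more than `10 / M` ridges. -/

namespace Pool.Agent.Lib.MP_b93bad_an

open MeasureTheory Set Metric Real

lemma lo_le (θ : ℝ) (x : E) : lo θ x ≤ ‖x‖ := by
  rw [EuclideanSpace.norm_eq]
  refine Real.le_sqrt_of_sq_le ?_
  simp only [lo, Fin.sum_univ_two, norm_eq_abs, sq_abs]
  nlinarith [sin_sq_add_cos_sq θ, sq_nonneg (x 0 * sin θ - x 1 * cos θ)]

lemma lo_norm (x : E) : ∃ θ, lo θ x = ‖x‖ := by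
  obtain ⟨φ, -, h⟩ := polar (x 0) (x 1)
  refine ⟨φ, ?_⟩
  have := (h φ).1
  rw [sub_self, cos_zero, mul_one] at this
  rw [EuclideanSpace.norm_eq]
  simp only [lo, Fin.sum_univ_two, norm_eq_abs, sq_abs]
  linarith

lemma lo_ray (θ φ r : ℝ) : lo θ (r • nu φ) = r * cos (φ - θ) := by
  simp [lo, nu, cos_sub]; ring

lemma lo_lin (θ s t : ℝ) (x y : E) : lo θ (s • x + t • y) = s * lo θ x + t * lo θ y := by
  simp [lo]; ring

lemma slope_le {v : E → ℝ} {x : E} (hd : DifferentiableAt ℝ v x) {σ θ c : ℝ}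
    (h1 : v x = σ * lo θ x + c) (h2 : ∀ y, σ * lo θ y + c ≤ v y) : σ ≤ ‖fderiv ℝ v x‖ := by
  have a : HasDerivAt (fun t : ℝ => v (x + t • nu θ) - σ * t) (fderiv ℝ v x (nu θ) - σ) 0 := by
    have b := HasFDerivAt.comp_hasDerivAt (0 : ℝ) (l := v) (f := fun t : ℝ => x + t • nu θ)
      (by simpa using hd.hasFDerivAt) (((hasDerivAt_id' (0 : ℝ)).smul_const (nu θ)).const_add x)
    rw [one_smul] at b
    simpa using b.fun_sub ((hasDerivAt_id' (0 : ℝ)).const_mul σ)
  have m : IsLocalMin (fun t : ℝ => v (x + t • nu θ) - σ * t) 0 :=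
    Filter.Eventually.of_forall fun t => by
      have b := h2 (x + t • nu θ)
      have e := lo_lin θ 1 t x (nu θ)
      have e' := lo_ray θ θ 1
      rw [one_smul, sub_self, cos_zero] at e'
      rw [one_smul, e'] at e
      rw [e] at b
      simp only [zero_smul, add_zero, mul_zero, sub_zero, h1]
      linarith
  have e := m.hasDerivAt_eq_zero a
  have b := (fderiv ℝ v x).le_opNorm (nu θ)
  rw [norm_nu, mul_one, norm_eq_abs] at b
  linarith [le_abs_self (fderiv ℝ v x (nu θ))]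

lemma pieces {v : E → ℝ} {p : ℝ} (h : ∀ x, ∃ σ θ c : ℝ, 0 ≤ σ ∧ σ ≤ p ∧ v x = σ * lo θ x + c ∧
    ∀ y, σ * lo θ y + c ≤ v y) : ConvexOn ℝ univ v ∧ ∀ᵐ x, DifferentiableAt ℝ v x := by
  constructor
  · refine ⟨convex_univ, fun x _ y _ s t hs ht hst => ?_⟩
    obtain ⟨σ, θ, c, -, -, a, b⟩ := h (s • x + t • y)
    have := mul_le_mul_of_nonneg_left (b x) hs
    have := mul_le_mul_of_nonneg_left (b y) ht
    have : s * c + t * c = c := by rw [← add_mul, hst, one_mul]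
    rw [a, lo_lin, smul_eq_mul, smul_eq_mul]
    linarith
  · refine LipschitzWith.ae_differentiableAt (C := p.toNNReal)
      (LipschitzWith.of_le_add_mul' p fun x y => ?_)
    obtain ⟨σ, θ, c, s0, s1, a, b⟩ := h x
    have e := lo_lin θ 1 (-1) x y
    have l := lo_le θ ((1 : ℝ) • x + (-1 : ℝ) • y)
    rw [e, one_smul, neg_one_smul, ← sub_eq_add_neg, ← dist_eq_norm] at l
    have := b y
    have d0 := dist_nonneg (x := x) (y := y)
    nlinarith

lemma three {F : ℝ → ℝ} {c1 c2 c3 R2 R3 : ℝ} (h1 : 0 ≤ c1) (h2 : 0 ≤ c2) (h3 : 0 ≤ c3)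
    (r2 : 0 ≤ R2) (r3 : 0 ≤ R3) (h : ∀ r ∈ Ioo (0 : ℝ) 1,
      F r ≤ c1 + (if r ≤ R2 then c2 else 0) + (if r ≤ R3 then c3 else 0)) :
    ∫⁻ r in Ioo (0 : ℝ) 1, ENNReal.ofReal (r * F r) ≤
      ENNReal.ofReal ((c1 + c2 * R2 ^ 2 + c3 * R3 ^ 2) / 2) := by
  have tri : ∀ c R : ℝ, 0 ≤ c → 0 ≤ R → ∫⁻ r in Ioo (0 : ℝ) 1,
      (Ioc 0 R).indicator (fun r => ENNReal.ofReal (c * r)) r ≤ ENNReal.ofReal (c * R ^ 2 / 2) := by
    intro c R hc hR
    refine (setLIntegral_le_lintegral _ _).trans (le_of_eq ?_)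
    rw [lintegral_indicator measurableSet_Ioc, lint (by fun_prop) hR fun r hr => by
      have := hr.1
      positivity, intervalIntegral.integral_const_mul, integral_id]
    congr 1; ring
  have ms : ∀ c R : ℝ, Measurable ((Ioc 0 R).indicator fun r => ENNReal.ofReal (c * r)) :=
    fun c R => Measurable.indicator (by fun_prop) measurableSet_Ioc
  have ind : ∀ c R : ℝ, ∀ r ∈ Ioo (0 : ℝ) 1, (Ioc 0 R).indicator (fun r => ENNReal.ofReal (c * r)) r
      = ENNReal.ofReal (r * if r ≤ R then c else 0) := fun c R r hr => by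
    split_ifs with a
    · rw [indicator_of_mem (show r ∈ Ioc 0 R from ⟨hr.1, a⟩), mul_comm]
    · rw [indicator_of_notMem fun b => a b.2]; simp
  calc _ ≤ ∫⁻ r in Ioo (0 : ℝ) 1, ((Ioc 0 1).indicator (fun r => ENNReal.ofReal (c1 * r)) r +
          (Ioc 0 R2).indicator (fun r => ENNReal.ofReal (c2 * r)) r +
          (Ioc 0 R3).indicator (fun r => ENNReal.ofReal (c3 * r)) r) := by
        refine setLIntegral_mono' measurableSet_Ioo fun r hr => ?_
        have r0 := hr.1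
        rw [ind _ _ r hr, ind _ _ r hr, ind _ _ r hr, if_pos hr.2.le,
          ← ENNReal.ofReal_add (by positivity) (by positivity),
          ← ENNReal.ofReal_add (by positivity) (by positivity)]
        refine ENNReal.ofReal_le_ofReal ?_
        rw [← mul_add, ← mul_add]
        exact mul_le_mul_of_nonneg_left (h r hr) r0.le
    _ ≤ _ := by
        rw [lintegral_add_right _ (ms _ _), lintegral_add_right _ (ms _ _)]
        refine (add_le_add (add_le_add (tri _ _ h1 zero_le_one) (tri _ _ h2 r2))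
          (tri _ _ h3 r3)).trans (le_of_eq ?_)
        rw [← ENNReal.ofReal_add (by positivity) (by positivity),
          ← ENNReal.ofReal_add (by positivity) (by positivity)]
        congr 1; ring

lemma sectors {n : ℕ} {a b0 b2 b4 : ℝ} (ha : n * a = π) {H : ℝ → ENNReal}
    (h0 : ∀ t, |t| ≤ a → 0 ≤ b0 + b2 * t ^ 2 + b4 * t ^ 4)
    (h : ∀ i < n, ∀ t, |t| ≤ a →
      H (-π + (2 * i + 1) * a + t) ≤ ENNReal.ofReal (b0 + b2 * t ^ 2 + b4 * t ^ 4)) :
    ∫⁻ φ in Ioo (-π) π, H φ ≤ ENNReal.ofReal (2 * π * (b0 + b2 * a ^ 2 / 3 + b4 * a ^ 4 / 5)) := by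
  have p0 := pi_pos
  have a0 : 0 < a := by
    by_contra c
    nlinarith [mul_nonneg (Nat.cast_nonneg (α := ℝ) n) (neg_nonneg.2 (not_lt.1 c))]
  have cov : Ioo (-π) π ⊆ ⋃ i : Fin n, Ioc (-π + (2 * (i : ℕ) + 1) * a - a)
      (-π + (2 * (i : ℕ) + 1) * a + a) := fun φ hφ => by
    have y0 : 0 < (φ + π) / (2 * a) := div_pos (by linarith [hφ.1]) (by linarith)
    have y1 : (φ + π) / (2 * a) ≤ n := by
      rw [div_le_iff₀ (by linarith)]; linarith [hφ.2]
    obtain ⟨i, hi⟩ := Nat.exists_eq_succ_of_ne_zero (Nat.ceil_pos.2 y0).ne'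
    have c1 := Nat.le_ceil ((φ + π) / (2 * a))
    have c2 := Nat.ceil_lt_add_one y0.le
    have c3 := Nat.ceil_le.2 y1
    rw [hi] at c1 c2 c3
    push_cast at c1 c2
    rw [div_le_iff₀ (by linarith)] at c1
    have c4 := (lt_div_iff₀ (by linarith)).1 (lt_of_add_lt_add_right c2)
    exact mem_iUnion.2 ⟨⟨i, c3⟩, by simp only; linarith, by simp only; linarith⟩
  have one : ∀ i : Fin n, ∫⁻ φ in Ioc (-π + (2 * (i : ℕ) + 1) * a - a)
      (-π + (2 * (i : ℕ) + 1) * a + a), H φ ≤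
      ENNReal.ofReal (2 * a * (b0 + b2 * a ^ 2 / 3 + b4 * a ^ 4 / 5)) := fun i => by
    have hi := h i i.2
    generalize -π + (2 * ((i : ℕ) : ℝ) + 1) * a = θ at *
    have ab : ∀ φ ∈ Ioc (θ - a) (θ + a), |φ - θ| ≤ a := fun φ hφ =>
      abs_le.2 ⟨by linarith [hφ.1], by linarith [hφ.2]⟩
    refine (setLIntegral_mono' measurableSet_Ioc (g := fun φ =>
      ENNReal.ofReal (b0 + b2 * (φ - θ) ^ 2 + b4 * (φ - θ) ^ 4)) fun φ hφ => by
        simpa using hi _ (ab φ hφ)).trans (le_of_eq ?_)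
    rw [lint (by fun_prop) (by linarith) fun φ hφ => h0 _ (ab φ hφ)]
    congr 1
    rw [intervalIntegral.integral_eq_sub_of_hasDerivAt
      (f := fun r => b0 * r + b2 / 3 * (r - θ) ^ 3 + b4 / 5 * (r - θ) ^ 5) (fun r _ => by
        have a := (hasDerivAt_id' r).sub_const θ
        refine ((((hasDerivAt_id' r).const_mul b0).fun_add ((a.fun_pow 3).const_mul _)).fun_add
          ((a.fun_pow 5).const_mul _)).congr_deriv ?_
        push_cast; ring)
      (Continuous.intervalIntegrable (by fun_prop) _ _)]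
    ring
  refine (lintegral_mono_set cov).trans ((lintegral_iUnion_le _ _).trans ?_)
  rw [tsum_fintype]
  refine (Finset.sum_le_sum fun i _ => one i).trans (le_of_eq ?_)
  rw [Finset.sum_const, Finset.card_univ, Fintype.card_fin, nsmul_eq_mul,
    ← ENNReal.ofReal_natCast, ← ENNReal.ofReal_mul (Nat.cast_nonneg _), ← ha]
  congr 1; ring

lemma nearest {n : ℕ} {a t : ℝ} (ha : n * a = π) (ht : |t| ≤ a) {i j : ℕ} (hi : i < n) (hj : j < n) :
    cos (-π + (2 * i + 1) * a + t - (-π + (2 * j + 1) * a)) ≤ cos t := by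
  have a0 : 0 ≤ a := (abs_nonneg t).trans ht
  have key : ∀ (m : ℕ) (t : ℝ), |t| ≤ a → m < n → cos (t + 2 * m * a) ≤ cos t := by
    intro m t ht hm
    rcases Nat.eq_zero_or_pos m with rfl | m0
    · simp
    have m1 : (1 : ℝ) ≤ m := by exact_mod_cast m0
    have m2 : (m : ℝ) + 1 ≤ n := by exact_mod_cast hm
    obtain ⟨t1, t2⟩ := abs_le.1 ht
    have s1 : 0 ≤ sin (t + m * a) := sin_nonneg_of_nonneg_of_le_pi (by nlinarith) (by nlinarith)
    have s2 : 0 ≤ sin (m * a) := sin_nonneg_of_nonneg_of_le_pi (by nlinarith) (by nlinarith)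
    have e1 := cos_add (t + m * a) (m * a)
    have e2 := cos_sub (t + m * a) (m * a)
    rw [show t + m * a + m * a = t + 2 * m * a by ring] at e1
    rw [add_sub_cancel_right] at e2
    nlinarith [mul_nonneg s1 s2]
  rcases le_total j i with h | h
  · obtain ⟨m, rfl⟩ := Nat.exists_eq_add_of_le h
    refine le_trans (le_of_eq ?_) (key m t ht (by omega))
    congr 1; push_cast; ring
  · obtain ⟨m, rfl⟩ := Nat.exists_eq_add_of_le h
    have := key m (-t) (by rwa [abs_neg]) (by omega)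
    rw [cos_neg, ← cos_neg] at this
    refine le_trans (le_of_eq ?_) this
    congr 1; push_cast; ring

lemma numA {M t : ℝ} (hM : 0 < M) (hM' : M ≤ 1 / 100) :
    (1 / (1 + (1 + M / 4) ^ 2) - 1 / (1 + (1 + 3 * M / 2) ^ 2)) *
      (1 / (1 + (4 + 99 / 100 * M) / (10 * M) * t ^ 2)) ^ 2 ≤
    (1 / (1 + (1 + M / 4) ^ 2) - 1 / (1 + (1 + 3 * M / 2) ^ 2)) +
      (-(1 - 77 / 200 * M) * t ^ 2 + 3 / (5 * M) * t ^ 4) / (1 + (1 + M / 4) ^ 2) := by
  obtain ⟨l, hl⟩ : ∃ l, l = (4 + 99 / 100 * M) / (10 * M) := ⟨_, rfl⟩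
  obtain ⟨w, hw⟩ : ∃ w, w = (1 + 99 / 400 * M) * (2 + 7 / 4 * M) / (1 + (1 + 3 * M / 2) ^ 2) :=
    ⟨_, rfl⟩
  obtain ⟨d, hd⟩ : ∃ d, d = 1 / (1 + (1 + M / 4) ^ 2) - 1 / (1 + (1 + 3 * M / 2) ^ 2) := ⟨_, rfl⟩
  have l0 : 0 < l := by rw [hl]; positivity
  have e : 2 * l * d = w / (1 + (1 + M / 4) ^ 2) := by rw [hl, hw, hd]; field_simp; ring
  have w1 : 1 - 77 / 200 * M ≤ w := by
    rw [hw, le_div_iff₀ (by positivity)]; nlinarith [mul_pos hM hM, mul_pos hM (mul_pos hM hM)]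
  have w2 : (1 + 99 / 400 * M) * w ≤ 1 := by
    rw [hw, ← mul_div_assoc, div_le_one (by positivity)]
    nlinarith [mul_pos hM hM, mul_pos hM (mul_pos hM hM)]
  have w3 : 3 / 2 * l * w ≤ 3 / (5 * M) := by
    have : 3 / 2 * l * w = 3 / (5 * M) * ((1 + 99 / 400 * M) * w) := by rw [hl]; field_simp; ring
    rw [this]
    exact mul_le_of_le_one_right (by positivity) w2
  have d0 : 0 ≤ d := by
    have : 0 ≤ 2 * l * d := by rw [e, hw]; positivity
    exact nonneg_of_mul_nonneg_right this (by positivity) |> fun h => by nlinarith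
  rw [← hl, ← hd]
  have y0 : 0 ≤ l * t ^ 2 := by positivity
  have y : (1 / (1 + l * t ^ 2)) ^ 2 ≤ 1 - 2 * (l * t ^ 2) + 3 * (l * t ^ 2) ^ 2 := by
    generalize l * t ^ 2 = y at *
    rw [div_pow, div_le_iff₀ (by positivity)]
    nlinarith [pow_nonneg y0 3, pow_nonneg y0 4]
  refine (mul_le_mul_of_nonneg_left y d0).trans ?_
  have e2 : d * (1 - 2 * (l * t ^ 2) + 3 * (l * t ^ 2) ^ 2) =
      d + (2 * l * d) * (-t ^ 2 + 3 / 2 * l * t ^ 4) := by ring
  rw [e2, e, div_mul_eq_mul_div]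
  gcongr
  nlinarith [mul_le_mul_of_nonneg_right w1 (sq_nonneg t),
    mul_le_mul_of_nonneg_right w3 (show 0 ≤ t ^ 4 by positivity)]

lemma numB {M a : ℝ} (hM : 0 < M) (hM' : M ≤ 1 / 100) (a1 : 5 / 4 * M ≤ a) (a2 : a ≤ 63 / 50 * M) :
    1 + (1 - 3 / 4 * M) ^ 2 + ((1 - 3 / 4 * M) ^ 2 - (1 - 77 / 200 * M)) * a ^ 2 / 3 +
      ((1 - 3 / 4 * M) ^ 2 + 3 / (5 * M)) * a ^ 4 / 5 ≤
    (1 - M + M ^ 2 / 2 - 23 / 100 * M ^ 3) * (1 + (1 + M / 4) ^ 2) := by
  obtain ⟨θ, h⟩ : ∃ θ, a ^ 2 = θ * M ^ 2 := ⟨a ^ 2 / M ^ 2, by field_simp⟩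
  have m2 : 0 < M ^ 2 := by positivity
  have t1 : 3 / 2 ≤ θ := le_of_mul_le_mul_right (by nlinarith) m2
  have t2 : θ ≤ 8 / 5 := le_of_mul_le_mul_right (by nlinarith) m2
  have h4 : a ^ 4 = θ ^ 2 * M ^ 4 := by rw [show a ^ 4 = (a ^ 2) ^ 2 by ring, h]; ring
  rw [h, h4, ← sub_nonneg]
  have e : (1 - M + M ^ 2 / 2 - 23 / 100 * M ^ 3) * (1 + (1 + M / 4) ^ 2) -
      (1 + (1 - 3 / 4 * M) ^ 2 + ((1 - 3 / 4 * M) ^ 2 - (1 - 77 / 200 * M)) * (θ * M ^ 2) / 3 +
      ((1 - 3 / 4 * M) ^ 2 + 3 / (5 * M)) * (θ ^ 2 * M ^ 4) / 5) =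
      M ^ 3 * (3 / 16 - 23 / 50 + 223 / 600 * θ - 3 / 25 * θ ^ 2 -
        M * (67 / 800 + 3 / 16 * θ + 23 / 1600 * M + θ ^ 2 / 5 * (1 - 3 / 4 * M) ^ 2)) := by
    field_simp; ring
  rw [e]
  refine mul_nonneg (by positivity) ?_
  have b1 : θ ^ 2 / 5 * (1 - 3 / 4 * M) ^ 2 ≤ 64 / 125 * 1 :=
    mul_le_mul (by nlinarith) (by nlinarith) (by positivity) (by norm_num)
  have b2 : M * (67 / 800 + 3 / 16 * θ + 23 / 1600 * M + θ ^ 2 / 5 * (1 - 3 / 4 * M) ^ 2) ≤
      1 / 100 * 1 := mul_le_mul hM' (by linarith) (by positivity) (by norm_num)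
  nlinarith [mul_nonneg (sub_nonneg.2 t1) (sub_nonneg.2 t2)]

lemma comp {M : ℝ} (hM : 0 < M) (hM' : M ≤ 1 / 100) : ∃ v : E → ℝ, ConvexOn ℝ (ball (0 : E) 1) v ∧
    (∀ x ∈ ball (0 : E) 1, -M ≤ v x ∧ v x ≤ 0) ∧
    resistance v ≤ π * (1 - M + M ^ 2 / 2 - 23 / 100 * M ^ 3) := by
  classical
  have p3 := pi_gt_three
  obtain ⟨n, a, ha, a1, a2⟩ : ∃ (n : ℕ) (a : ℝ), n * a = π ∧ 5 / 4 * M ≤ a ∧ a ≤ 63 / 50 * M := by
    have f1 := Nat.floor_le (show 0 ≤ 4 * π / (5 * M) by positivity)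
    have f2 := Nat.lt_floor_add_one (4 * π / (5 * M))
    generalize ⌊4 * π / (5 * M)⌋₊ = n at *
    rw [le_div_iff₀ (by positivity)] at f1
    rw [div_lt_iff₀ (by positivity)] at f2
    have n0 : (0 : ℝ) < n := by nlinarith
    refine ⟨n, π / n, by field_simp, ?_, ?_⟩
    · rw [le_div_iff₀ n0]; linarith
    · rw [div_le_iff₀ n0]; linarith
  have n0 : 0 < n := Nat.pos_of_ne_zero fun h => by rw [h] at ha; simp at ha; linarith
  obtain ⟨p, hp⟩ : ∃ p, p = 1 + 3 * M / 2 := ⟨_, rfl⟩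
  obtain ⟨q, hq⟩ : ∃ q, q = 1 + M / 4 := ⟨_, rfl⟩
  have q1 : 1 ≤ q := by linarith
  have qp : q ≤ p := by linarith
  let θ : ℕ → ℝ := fun i => -π + (2 * i + 1) * a
  have ex : ∀ x : E, ∃ i ∈ Finset.range n, ∀ j ∈ Finset.range n, lo (θ j) x ≤ lo (θ i) x :=
    fun x => Finset.exists_max_image _ _ ⟨0, Finset.mem_range.2 n0⟩
  choose I I1 I2 using ex
  let v : E → ℝ := fun x => max (-M) (max (p * (‖x‖ - 1)) (q * (lo (θ (I x)) x - 1)))
  have cone' : ∀ x, v x = p * (‖x‖ - 1) → ∃ φ, v x = p * lo φ x + -p ∧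
      ∀ y, p * lo φ y + -p ≤ v y := fun x h => by
    obtain ⟨φ, e⟩ := lo_norm x
    refine ⟨φ, by rw [h, e]; ring, fun y => le_max_of_le_right (le_max_of_le_left ?_)⟩
    nlinarith [lo_le φ y]
  have plane : ∀ x y, q * lo (θ (I x)) y + -q ≤ v y := fun x y =>
    le_max_of_le_right (le_max_of_le_right (by nlinarith [I2 y _ (I1 x)]))
  have tri : ∀ x, v x = -M ∨ v x = p * (‖x‖ - 1) ∨ v x = q * lo (θ (I x)) x + -q := fun x => by
    rcases max_choice (-M) (max (p * (‖x‖ - 1)) (q * (lo (θ (I x)) x - 1))) with h | h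
    · exact Or.inl h
    rcases max_choice (p * (‖x‖ - 1)) (q * (lo (θ (I x)) x - 1)) with h' | h'
    · exact Or.inr (Or.inl (h.trans h'))
    · exact Or.inr (Or.inr ((h.trans h').trans (by ring)))
  obtain ⟨cv, df⟩ := pieces (v := v) (p := p) fun x => by
    rcases tri x with h | h | h
    · exact ⟨0, 0, -M, le_rfl, by linarith, by rw [h]; ring, fun y => by
        rw [zero_mul, zero_add]; exact le_max_left _ _⟩
    · obtain ⟨φ, b, c⟩ := cone' x h
      exact ⟨p, φ, -p, by linarith, le_rfl, b, c⟩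
    · exact ⟨q, _, -q, by linarith, qp, h, plane x⟩
  refine ⟨v, cv.subset (subset_univ _) (convex_ball _ _), fun x hx => ⟨le_max_left _ _, ?_⟩, ?_⟩
  · have := mem_ball_zero_iff.1 hx
    have := lo_le (θ (I x)) x
    exact max_le (by linarith) (max_le (by nlinarith) (by nlinarith))
  let F : E → ℝ := {x | DifferentiableAt ℝ v x}.indicator fun x => 1 / (1 + ‖fderiv ℝ v x‖ ^ 2)
  have ae : (fun x => 1 / (1 + ‖fderiv ℝ v x‖ ^ 2)) =ᵐ[volume.restrict (ball (0 : E) 1)] F := by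
    filter_upwards [ae_restrict_of_ae df] with x hx
    exact (indicator_of_mem (show x ∈ {x | DifferentiableAt ℝ v x} from hx)
      fun x => 1 / (1 + ‖fderiv ℝ v x‖ ^ 2)).symm
  have Fle : ∀ x σ, 0 ≤ σ → (DifferentiableAt ℝ v x → σ ≤ ‖fderiv ℝ v x‖) →
      F x ≤ 1 / (1 + σ ^ 2) := fun x σ h0 h => by
    refine indicator_apply_le' (fun hx => ?_) fun _ => by positivity
    have := h hx
    gcongr
  have N0 : 0 < 1 + q ^ 2 := by positivity
  have m3 : M ^ 3 ≤ M ^ 2 := by nlinarith [mul_pos hM hM]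
  have T0 : 0 ≤ 1 - M + M ^ 2 / 2 - 23 / 100 * M ^ 3 := by nlinarith [mul_pos hM hM]
  rw [resistance, integral_congr_ae ae]
  refine (ENNReal.ofReal_le_ofReal_iff (by positivity)).1 ?_
  rw [polInt (Measurable.indicator
      (((measurable_fderiv ℝ v).norm.pow_const 2).const_add 1 |>.const_div 1)
      (measurableSet_of_differentiableAt ℝ v))
    (indicator_nonneg fun _ _ => by positivity) ((resistance_eq v).2.congr ae)]
  have sq : ∀ t, |t| ≤ a → t ^ 2 ≤ 8 / 5 * M ^ 2 := fun t ht => by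
    have := sq_le_sq' (abs_le.1 ht).1 (abs_le.1 ht).2
    nlinarith
  refine (sectors (b0 := (1 + (1 - 3 / 4 * M) ^ 2) / (1 + q ^ 2) / 2)
    (b2 := ((1 - 3 / 4 * M) ^ 2 - (1 - 77 / 200 * M)) / (1 + q ^ 2) / 2)
    (b4 := ((1 - 3 / 4 * M) ^ 2 + 3 / (5 * M)) / (1 + q ^ 2) / 2) ha (fun t ht => ?_)
    fun i hi t ht => ?_).trans (ENNReal.ofReal_le_ofReal ?_)
  · have := sq t ht
    have e : 0 ≤ (1 + (1 - 3 / 4 * M) ^ 2 + ((1 - 3 / 4 * M) ^ 2 - (1 - 77 / 200 * M)) * t ^ 2) /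
        (1 + q ^ 2) / 2 := by
      have : 0 ≤ 1 + (1 - 3 / 4 * M) ^ 2 + ((1 - 3 / 4 * M) ^ 2 - (1 - 77 / 200 * M)) * t ^ 2 := by
        nlinarith [sq_nonneg (1 - 3 / 4 * M), sq_nonneg t,
          mul_nonneg (sq_nonneg (1 - 3 / 4 * M)) (sq_nonneg t), mul_nonneg hM.le (sq_nonneg t)]
      positivity
    refine add_nonneg (e.trans_eq (by ring)) (by positivity)
  · have t2 := sq t ht
    have t0 := sq_nonneg t
    have t3 : t ^ 2 ≤ 2 / 125 * M := by nlinarith
    have c1 : 1 - t ^ 2 / 2 ≤ cos t := one_sub_sq_div_two_le_cos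
    have c2 := (abs_le.1 (cos_bound (x := t) (by linarith))).2
    rw [show |t| ^ 4 = t ^ 2 * t ^ 2 by rw [← sq_abs t]; ring] at c2
    have d0 : 0 ≤ 1 / (1 + q ^ 2) - 1 / (1 + p ^ 2) := by rw [sub_nonneg]; gcongr
    have d1 : 0 ≤ 1 - 1 / (1 + q ^ 2) := by rw [sub_nonneg, div_le_one N0]; nlinarith
    have z0 : 0 < 1 - t ^ 2 / 2 := by linarith
    have z1 : 0 < 1 - 3 / 4 * M := by linarith
    refine (three (F := fun r => F (r • nu (θ i + t))) (c1 := 1 / (1 + p ^ 2))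
      (c2 := 1 / (1 + q ^ 2) - 1 / (1 + p ^ 2)) (c3 := 1 - 1 / (1 + q ^ 2))
      (R2 := 1 / (1 + (4 + 99 / 100 * M) / (10 * M) * t ^ 2))
      (R3 := (1 - 3 / 4 * M) / (q * (1 - t ^ 2 / 2))) (by positivity) d0 d1 (by positivity)
      (by positivity) fun r hr => ?_).trans (ENNReal.ofReal_le_ofReal ?_)
    · have r0 := hr.1
      have nx := norm_ray (θ i + t) r0.le
      have l1 : r * cos t ≤ lo (θ (I (r • nu (θ i + t)))) (r • nu (θ i + t)) := by
        have := I2 (r • nu (θ i + t)) i (Finset.mem_range.2 hi)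
        rwa [lo_ray, add_sub_cancel_left] at this
      have l2 : lo (θ (I (r • nu (θ i + t)))) (r • nu (θ i + t)) ≤ r * cos t := by
        rw [lo_ray]
        exact mul_le_mul_of_nonneg_left (nearest ha ht hi (Finset.mem_range.1 (I1 _))) r0.le
      generalize r • nu (θ i + t) = x at *
      by_cases h2 : r ≤ 1 / (1 + (4 + 99 / 100 * M) / (10 * M) * t ^ 2)
      · rw [if_pos h2]
        split_ifs with h3
        · have := Fle x 0 le_rfl fun _ => norm_nonneg _
          norm_num at this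
          linarith
        · rw [not_le, div_lt_iff₀ (by positivity)] at h3
          have vx := plane x x
          have := Fle x q (by linarith) fun hd => by
            rcases tri x with h | h | h
            · have := mul_le_mul_of_nonneg_left
                ((mul_le_mul_of_nonneg_left c1 r0.le).trans l1) (show 0 ≤ q by linarith)
              linarith
            · obtain ⟨φ, b, c⟩ := cone' x h
              exact qp.trans (slope_le hd b c)
            · exact slope_le hd h (plane x)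
          linarith
      · rw [if_neg h2]
        rw [not_le, div_lt_iff₀ (by positivity)] at h2
        have h3 : 10 * M < r * (10 * M + (4 + 99 / 100 * M) * t ^ 2) := by
          have := mul_lt_mul_of_pos_left h2 (show 0 < 10 * M by positivity)
          refine (by linarith : 10 * M < _).trans_eq (b := 10 * M *
            (r * (1 + (4 + 99 / 100 * M) / (10 * M) * t ^ 2))) ?_
          field_simp
        have g1 : (4 + 99 / 100 * M) * t ^ 2 ≤ 8 * q * (1 - cos t) := by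
          have : t ^ 2 * t ^ 2 ≤ t ^ 2 * (2 / 125 * M) := mul_le_mul_of_nonneg_left t3 t0
          have : t ^ 2 / 2 - t ^ 2 * M / 1200 ≤ 1 - cos t := by linarith
          have := mul_le_mul_of_nonneg_left this (show 0 ≤ 8 * q by linarith)
          have tm := mul_nonneg t0 hM.le
          rw [hq] at this ⊢
          nlinarith [mul_le_mul_of_nonneg_left hM' tm]
        have g2 : q * (lo (θ (I x)) x - 1) ≤ p * (‖x‖ - 1) := by
          have := mul_le_mul_of_nonneg_left g1 r0.le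
          have := mul_le_mul_of_nonneg_left l2 (show 0 ≤ q by linarith)
          rw [nx, show p = q + 5 / 4 * M by linarith]
          nlinarith
        have g3 : -M ≤ p * (‖x‖ - 1) := by
          have : (4 + 99 / 100 * M) * t ^ 2 ≤ 5 * (8 / 5 * M ^ 2) :=
            mul_le_mul (by linarith) t2 t0 (by norm_num)
          have : 10 * M < r * (10 * M + 8 * M ^ 2) :=
            h3.trans_le (mul_le_mul_of_nonneg_left (by linarith) r0.le)
          have : 10 < r * (10 + 8 * M) := lt_of_mul_lt_mul_left (a := M) (by linarith) hM.le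
          have : 1 - 4 / 5 * M ≤ r := by nlinarith [hr.2]
          rw [nx, hp]
          nlinarith
        obtain ⟨φ, b, c⟩ := cone' x (by
          simp only [v]; rw [max_eq_left g2, max_eq_right g3])
        have := Fle x p (by linarith) fun hd => slope_le hd b c
        split_ifs <;> linarith
    · have A := numA (t := t) hM hM'
      rw [← hp, ← hq] at A
      have B : (1 - 1 / (1 + q ^ 2)) * ((1 - 3 / 4 * M) / (q * (1 - t ^ 2 / 2))) ^ 2 ≤
          (1 - 3 / 4 * M) ^ 2 * (1 + t ^ 2 + t ^ 4) / (1 + q ^ 2) := by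
        have e : (1 - 1 / (1 + q ^ 2)) * ((1 - 3 / 4 * M) / (q * (1 - t ^ 2 / 2))) ^ 2 =
            (1 - 3 / 4 * M) ^ 2 * (1 / (1 - t ^ 2 / 2) ^ 2) / (1 + q ^ 2) := by
          field_simp; ring
        rw [e]
        gcongr
        rw [div_le_iff₀ (by positivity), show t ^ 4 = (t ^ 2) ^ 2 by ring]
        have y1 : t ^ 2 ≤ 1 / 3 := by linarith
        generalize t ^ 2 = y at *
        nlinarith [mul_nonneg (sq_nonneg y) (sub_nonneg.2 y1), pow_nonneg t0 4]
      refine (div_le_div_of_nonneg_right (add_le_add (add_le_add le_rfl A) B) zero_le_two).trans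
        (le_of_eq ?_)
      ring
  · have := numB hM hM' a1 a2
    rw [← hq, ← div_le_iff₀ N0] at this
    refine le_trans (le_of_eq ?_) (mul_le_mul_of_nonneg_left this pi_pos.le)
    ring

end Pool.Agent.Lib.MP_b93bad_an
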