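import Pool.Agent.Lib.MP_b93bad_an.U2

/-! Two-sided bound for the number of ridges of a dihedral minimizer. -/

namespace Pool.Agent.Lib.MP_b93bad_an

open Real

lemma few (M : ℝ) (hM : 0 < M) (k : ℕ)
    (hk : 3 ≤ k) (α : ℝ) (g : ℝ → ℝ) (hg : ∀ r ∈ Set.Icc (0 : ℝ) 1, -M ≤ g r ∧ g r ≤ 0)
    (hmin : ∀ v : EuclideanSpace ℝ (Fin 2) → ℝ,
      ConvexOn ℝ (Metric.ball (0 : EuclideanSpace ℝ (Fin 2)) 1) v →
      (∀ x ∈ Metric.ball (0 : EuclideanSpace ℝ (Fin 2)) 1, -M ≤ v x ∧ v x ≤ 0) →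
      resistance (bottom k α g) ≤ resistance v) :
    1 / 10 ^ 6 ≤ k * M := by
  by_contra hc
  push Not at hc
  have hk' : (3 : ℝ) ≤ k := by exact_mod_cast hk
  have hM' : M ≤ 1 / 4 := by nlinarith
  obtain ⟨v, v1, v2, v3⟩ := cone hM (by linarith)
  have h := (hmin v v1 v2).trans v3
  have p3 := pi_gt_three
  have p4 := pi_le_four
  obtain ⟨j, hj⟩ : ∃ j : ℝ, j = 1 / k := ⟨_, rfl⟩
  have j0 : 0 < j := by rw [hj]; positivity
  have j1 : k * j = 1 := by rw [hj]; field_simp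
  have j2 : π * M / (8 * k ^ 2) = π * M * j ^ 2 / 8 := by rw [hj]; field_simp
  have j3 : j ≤ 1 / 3 := by nlinarith
  have j4 : M ≤ j / 10 ^ 6 := by nlinarith
  have pm : 0 < π * M * j ^ 2 := by positivity
  by_cases h1 : ∀ r ∈ Set.Icc (0 : ℝ) 1, -g r - (1 - r) ≤ j ^ 2 / 16
  · have := estimate (α := α) hk hM hM' hg (by positivity) h1 ⟨zero_le_one, le_rfl⟩ (by norm_num)
      le_rfl (by simp)
    rw [j2] at this
    linarith
  push Not at h1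
  obtain ⟨r0, r1, r2⟩ := h1
  have hb : BddAbove ((fun r => -g r - (1 - r)) '' Set.Icc (0 : ℝ) 1) :=
    ⟨M, by rintro _ ⟨r, hr, rfl⟩; have := hg r hr; simp only; linarith [hr.2]⟩
  have he : ∀ r ∈ Set.Icc (0 : ℝ) 1, -g r - (1 - r) ≤ _ := fun r hr => le_csSup hb ⟨r, hr, rfl⟩
  have e0 := r2.trans_le (he r0 r1)
  obtain ⟨_, ⟨r, hr, rfl⟩, e1⟩ := exists_lt_of_lt_csSup
    (s := (fun r => -g r - (1 - r)) '' Set.Icc (0 : ℝ) 1) ⟨_, r0, r1, rfl⟩ (half_lt_self (lt_trans (by positivity) e0))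
  generalize sSup ((fun r => -g r - (1 - r)) '' Set.Icc (0 : ℝ) 1) = e at *
  have e2 : 0 < e := lt_trans (by positivity) e0
  obtain ⟨g1, g2⟩ := hg r hr
  simp only at e1
  have := estimate (α := α) hk hM hM' hg e2.le he hr (by linarith) (η := j / 100) (by positivity)
    (by linarith)
  rw [j2, show k * (j / 100) / 4 = 1 / 400 by linarith] at this
  have a1 : j * (25 / 4 * (j / 100) * (1 - r)) ≤ j * (j * M / 16) :=
    mul_le_mul_of_nonneg_left (by nlinarith) j0.le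
  have a2 : j * ((1 + 25 / 4 * (j / 100)) * j ^ 2) ≤ j * (32 * e) :=
    mul_le_mul_of_nonneg_left (by nlinarith [sq_nonneg j]) j0.le
  have a3 : j * (e / 2) ≤ j * (-g r - (1 - r)) := mul_le_mul_of_nonneg_left e1.le j0.le
  have a4 : π * e * M ≤ 4 * e * (j / 10 ^ 6) := by gcongr
  have a5 : 3 * (M * j ^ 2) ≤ π * M * j ^ 2 := by nlinarith [mul_pos hM (pow_pos j0 2)]
  nlinarith [mul_pos j0 e2, mul_pos hM (pow_pos j0 2)]

lemma many (M : ℝ) (hM : 0 < M) (hM' : M ≤ 1 / 100) (k : ℕ)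
    (hk : 3 ≤ k) (α : ℝ) (g : ℝ → ℝ) (hg : ∀ r ∈ Set.Icc (0 : ℝ) 1, -M ≤ g r ∧ g r ≤ 0)
    (hmin : ∀ v : EuclideanSpace ℝ (Fin 2) → ℝ,
      ConvexOn ℝ (Metric.ball (0 : EuclideanSpace ℝ (Fin 2)) 1) v →
      (∀ x ∈ Metric.ball (0 : EuclideanSpace ℝ (Fin 2)) 1, -M ≤ v x ∧ v x ≤ 0) →
      resistance (bottom k α g) ≤ resistance v) : k * M ≤ 10 := by
  by_contra hc
  push Not at hc
  obtain ⟨v, v1, v2, v3⟩ := comp hM hM'
  have h := ((lower (α := α) hk hM (by linarith) hg).trans (hmin v v1 v2)).trans v3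
  have p0 := pi_pos
  have k0 : (0 : ℝ) < k := by exact_mod_cast (by omega : 0 < k)
  have c0 := cos_pos' hk
  have c1 : 1 - (π / k) ^ 2 / 2 ≤ cos (π / k) := one_sub_sq_div_two_le_cos
  have c2 : π / k ≤ 63 / 200 * M := by
    rw [div_le_iff₀ k0]; nlinarith [pi_lt_d2]
  have c3 : (π / k) ^ 2 ≤ (63 / 200 * M) ^ 2 := by gcongr
  have m2 : 0 < M ^ 2 := by positivity
  have m3 : 0 < M ^ 3 := by positivity
  have m4 : M ^ 2 ≤ 1 / 10000 := by nlinarith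
  have b1 : (1 - M) * M / cos (π / k) ≤ (1 - M) * M * (1 + M ^ 2 / 20) := by
    rw [div_le_iff₀ c0, mul_assoc ((1 - M) * M)]
    refine le_mul_of_one_le_right (mul_nonneg (by linarith) hM.le) ?_
    nlinarith [mul_le_mul_of_nonneg_left m4 m2.le]
  have b2 : 101 / 600 * M ^ 3 / (1 - M) ≤ 171 / 1000 * M ^ 3 := by
    rw [div_le_iff₀ (by linarith)]; nlinarith
  have b3 : M - M ^ 2 / 2 + 23 / 100 * M ^ 3 ≤
      (1 - M) * M / cos (π / k) + M ^ 2 / 2 + 101 / 600 * M ^ 3 / (1 - M) :=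
    le_of_mul_le_mul_left (by linarith) p0
  nlinarith [mul_pos hM m3]

end Pool.Agent.Lib.MP_b93bad_an
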