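import Pool.Agent.Lib.MP_b93bad_an.U3

/-! The gradient of a dihedral body along a ray. -/

namespace Pool.Agent.Lib.MP_b93bad_an

open MeasureTheory Set Metric Real

lemma cos_le {k : ℕ} {b t : ℝ} (hb : k * b = π) (ht : |t| ≤ b) (m : ℤ) :
    cos (t + 2 * m * b) ≤ cos t := by
  have k0 : (k : ℤ) ≠ 0 := by
    rintro h
    have : (k : ℝ) = 0 := by exact_mod_cast h
    rw [this, zero_mul] at hb
    exact pi_ne_zero hb.symm
  obtain ⟨j, hj⟩ := Int.eq_ofNat_of_zero_le (Int.emod_nonneg m k0)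
  have h2 := Int.emod_lt_of_pos m (show (0 : ℤ) < k by omega)
  have h3 : (m : ℝ) = j + k * (m / k : ℤ) := by
    have := Int.emod_add_mul_ediv m k
    rw [hj] at this
    exact_mod_cast this.symm
  have := nearest hb ht (i := j) (j := 0) (by omega) (by omega)
  rw [show t + 2 * m * b = (-π + (2 * j + 1) * b + t - (-π + (2 * (0 : ℕ) + 1) * b)) +
    (m / k : ℤ) * (2 * π) by rw [h3, ← hb]; push_cast; ring, cos_add_int_mul_two_pi]
  exact this

lemma nu_per (θ : ℝ) (m : ℤ) : nu (θ + m * (2 * π)) = nu θ := by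
  simp only [nu, cos_add_int_mul_two_pi, sin_add_int_mul_two_pi]

lemma mem_ray (φ : ℝ) {r : ℝ} (h0 : 0 ≤ r) (h1 : r ≤ 1) : r • nu φ ∈ closedBall (0 : E) 1 := by
  rw [mem_closedBall_zero_iff, norm_ray _ h0]; exact h1

variable {k : ℕ} {α M b : ℝ} {g : ℝ → ℝ}

lemma ridge (hb : k * b = π) (i : ℤ) {r : ℝ} (hr : r ∈ Icc (0 : ℝ) 1) :
    (r • nu (α + 2 * i * b), g r) ∈ convexHull ℝ (frame k α g) := by
  have k1 : (k : ℝ) ≠ 0 := by
    rintro h
    rw [h, zero_mul] at hb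
    exact pi_ne_zero hb.symm
  have k0 : (k : ℤ) ≠ 0 := by exact_mod_cast k1
  obtain ⟨j, hj⟩ := Int.eq_ofNat_of_zero_le (Int.emod_nonneg i k0)
  have h2 := Int.emod_lt_of_pos i (show (0 : ℤ) < k by omega)
  have h3 : (i : ℝ) = j + k * (i / k : ℤ) := by
    have := Int.emod_add_mul_ediv i k
    rw [hj] at this
    exact_mod_cast this.symm
  rw [show α + 2 * i * b = α + 2 * j * π / k + (i / k : ℤ) * (2 * π) by
    rw [h3, ← hb]; field_simp; ring, nu_per]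
  exact subset_convexHull ℝ _ (Or.inr ⟨j, by omega, r, hr, by simp [nu], by simp [nu], rfl⟩)

/-- planes below the frame -/
lemma plane (hb : k * b = π) (i : ℤ) {ψ R c : ℝ} (hψ : |ψ| ≤ b) (R0 : 0 ≤ R) (h1 : c + R ≤ 0)
    (h2 : ∀ r ∈ Icc (0 : ℝ) 1, c + r * (R * cos ψ) ≤ g r) {y : E} (hy : y ∈ closedBall (0 : E) 1) :
    R * lo (α + 2 * i * b + ψ) y + c ≤ bottom k α g y := by
  have k1 : (k : ℝ) ≠ 0 := by
    rintro h
    rw [h, zero_mul] at hb
    exact pi_ne_zero hb.symm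
  refine le_bottom hy fun z hz => ?_
  have := hull_le (a := R * cos (α + 2 * i * b + ψ)) (b := R * sin (α + 2 * i * b + ψ)) (c := -1)
    (d := -c) (by
      rintro p (⟨a1, a2⟩ | ⟨j, -, r, hr, a1, a2, a3⟩)
      · have := mul_le_mul_of_nonneg_left ((lo_le (α + 2 * i * b + ψ) p.1).trans_eq a1) R0
        rw [lo] at this
        rw [a2]; linarith
      · have e := cos_le hb hψ (i - j)
        rw [show ψ + 2 * ((i - j : ℤ) : ℝ) * b = α + 2 * i * b + ψ - (α + 2 * j * π / k) by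
          rw [← hb]; push_cast; field_simp; ring, cos_sub] at e
        have := mul_le_mul_of_nonneg_left (mul_le_mul_of_nonneg_left e R0) hr.1
        have := h2 r hr
        rw [a1, a2, a3]; linarith) _ hz
  simp only [lo] at this ⊢
  linarith

lemma comb (L : E →L[ℝ] ℝ) (θ : ℝ) {β s : ℝ} (b0 : 0 < b) (b1 : b ≤ π / 2) (hβ : |β| ≤ b)
    (h1 : L (nu (θ - b)) ≤ s) (h2 : L (nu (θ + b)) ≤ s) : cos b * L (nu (θ + β)) ≤ cos β * s := by
  obtain ⟨a1, a2⟩ := abs_le.1 hβ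
  have s0 : 0 < sin b := sin_pos_of_pos_of_lt_pi b0 (by linarith [pi_pos])
  have s1 : 0 ≤ sin (b - β) := sin_nonneg_of_nonneg_of_le_pi (by linarith) (by linarith)
  have s2 : 0 ≤ sin (b + β) := sin_nonneg_of_nonneg_of_le_pi (by linarith) (by linarith)
  have e1 := mul_le_mul_of_nonneg_left h1 s1
  have e2 := mul_le_mul_of_nonneg_left h2 s2
  refine le_of_mul_le_mul_left ?_ (mul_pos two_pos s0)
  simp only [clm_apply, cos_add, sin_add, cos_sub, sin_sub] at e1 e2 ⊢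
  linarith

/-- the slope of the faces -/
lemma face {c : ℝ} (c1 : c < 1) (hg : ∀ r ∈ Icc (0 : ℝ) 1, -M ≤ g r ∧ g r ≤ 0) :
    ∃ q ρ : ℝ, 0 ≤ q ∧ ρ ∈ Icc (0 : ℝ) 1 ∧ (∀ r ∈ Icc (0 : ℝ) 1, -q + r * (q * c) ≤ g r) ∧
      ∀ a s : ℝ, (∀ r ∈ Icc (0 : ℝ) 1, a + r * s ≤ g r) → a + ρ * s ≤ -q * (1 - ρ * c) := by
  let S : Set (ℝ × ℝ) := (fun r => (r, g r)) '' Icc 0 1
  have sub : closure S ⊆ Icc (0 : ℝ) 1 ×ˢ Icc (-M) 0 :=
    closure_minimal (by rintro _ ⟨r, hr, rfl⟩; exact ⟨hr, hg r hr⟩) (isClosed_Icc.prod isClosed_Icc)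
  have pos : ∀ r ∈ Icc (0 : ℝ) 1, 0 < 1 - r * c := fun r hr => by
    rcases le_total c 0 with h | h
    · nlinarith [hr.1]
    · nlinarith [hr.2]
  obtain ⟨p, hp, hm⟩ := ((isCompact_Icc.prod isCompact_Icc).of_isClosed_subset isClosed_closure
    sub).exists_isMaxOn (f := fun p : ℝ × ℝ => -p.2 / (1 - p.1 * c))
    ⟨_, subset_closure ⟨0, ⟨le_rfl, zero_le_one⟩, rfl⟩⟩
    (ContinuousOn.div (by fun_prop) (by fun_prop) fun p hp => (pos _ (sub hp).1).ne')
  have p0 := pos _ (sub hp).1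
  refine ⟨-p.2 / (1 - p.1 * c), p.1, div_nonneg (by linarith [(sub hp).2.2]) p0.le, (sub hp).1,
    fun r hr => ?_, fun a s h => ?_⟩
  · have : -g r / (1 - r * c) ≤ -p.2 / (1 - p.1 * c) := hm (subset_closure ⟨r, hr, rfl⟩)
    rw [div_le_iff₀ (pos r hr)] at this
    linarith
  · rw [neg_mul, div_mul_cancel₀ _ p0.ne', neg_neg]
    exact closure_minimal (t := {p : ℝ × ℝ | a + p.1 * s ≤ p.2})
      (by rintro _ ⟨r, hr, rfl⟩; exact h r hr) (isClosed_le (by fun_prop) (by fun_prop)) hp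

/-- the data of a face -/
structure Face (k : ℕ) (M b : ℝ) (g : ℝ → ℝ) (q ρ : ℝ) : Prop where
  hk : 3 ≤ k
  hb : k * b = π
  hM : 0 < M
  hg : ∀ r ∈ Icc (0 : ℝ) 1, -M ≤ g r ∧ g r ≤ 0
  q0 : 0 ≤ q
  ρ0 : ρ ∈ Icc (0 : ℝ) 1
  lo : ∀ r ∈ Icc (0 : ℝ) 1, -q + r * (q * cos b) ≤ g r
  up : ∀ a s : ℝ, (∀ r ∈ Icc (0 : ℝ) 1, a + r * s ≤ g r) → a + ρ * s ≤ -q * (1 - ρ * cos b)

lemma b_bd (hk : 3 ≤ k) (hb : k * b = π) : 0 < b ∧ b ≤ π / 3 ∧ b = π / k := by
  have k3 : (3 : ℝ) ≤ k := by exact_mod_cast hk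
  have p0 := pi_pos
  have b0 : 0 < b := by
    by_contra h
    nlinarith [not_lt.1 h]
  exact ⟨b0, by nlinarith, by rw [← hb]; field_simp⟩

lemma c_bd (hk : 3 ≤ k) (hb : k * b = π) {β : ℝ} (hβ : |β| ≤ b) :
    0 < cos b ∧ cos b ≤ cos β := by
  obtain ⟨b0, b1, b2⟩ := b_bd hk hb
  refine ⟨b2 ▸ cos_pos' hk, ?_⟩
  rw [← cos_abs β]
  exact cos_le_cos_of_nonneg_of_le_pi (abs_nonneg _) (by linarith [pi_pos]) hβ

namespace Face

variable {q ρ : ℝ} (H : Face k M b g q ρ) (i : ℤ) {β r : ℝ}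
include H

lemma low (r0 : 0 ≤ r) (r1 : r ≤ 1) :
    q * (r * cos β) - q ≤ bottom k α g (r • nu (α + 2 * i * b + b + β)) := by
  have := plane (α := α) H.hb i (ψ := b) (abs_of_pos (b_bd H.hk H.hb).1).le H.q0 (c := -q)
    (by simp) H.lo (mem_ray (α + 2 * i * b + b + β) r0 r1)
  rwa [lo_ray, add_sub_cancel_left] at this

lemma sup {x : E} (hx : x ∈ closedBall (0 : E) 1) (hd : DifferentiableAt ℝ (bottom k α g) x) :
    bottom k α g x - fderiv ℝ (bottom k α g) x x + ‖fderiv ℝ (bottom k α g) x‖ ≤ 0 ∧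
    (∀ φ, bottom k α g x - fderiv ℝ (bottom k α g) x x + fderiv ℝ (bottom k α g) x (nu φ) ≤ 0) ∧
    ∃ s, ‖fderiv ℝ (bottom k α g) x‖ * cos b ≤ s ∧
      (∀ β, |β| ≤ b → cos b * fderiv ℝ (bottom k α g) x (nu (α + 2 * i * b + b + β)) ≤ cos β * s) ∧
      ∀ r ∈ Icc (0 : ℝ) 1, bottom k α g x - fderiv ℝ (bottom k α g) x x + r * s ≤ g r := by
  have S := fun y hy => support (bottom_convex (k := k) (α := α) H.hM H.hg) hx (y := y) hy hd
  obtain ⟨b0, b1, b2⟩ := b_bd H.hk H.hb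
  have c0 := (c_bd H.hk H.hb (β := 0) (by simpa using b0.le)).1
  generalize fderiv ℝ (bottom k α g) x = L at *
  have rim : ∀ φ, bottom k α g x - L x + L (nu φ) ≤ 0 := fun φ => by
    have m : nu φ ∈ closedBall (0 : E) 1 := by simp [norm_nu]
    have a := (S _ m).trans (bottom_le H.hM H.hg (mem_zero m))
    rw [map_sub] at a
    linarith
  have rid : ∀ j : ℤ, ∀ r ∈ Icc (0 : ℝ) 1,
      bottom k α g x - L x + r * L (nu (α + 2 * j * b)) ≤ g r := fun j r hr => by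
    have a := (S _ (mem_ray _ hr.1 hr.2)).trans (bottom_le H.hM H.hg (ridge H.hb j hr))
    rw [map_sub, map_smul, smul_eq_mul] at a
    linarith
  obtain ⟨φ, R, hR, hL⟩ := dir L
  obtain ⟨j, -, hj⟩ := near (show 0 < k by have := H.hk; omega) α φ
  refine ⟨?_, rim, max (max (L (nu (α + 2 * i * b))) (L (nu (α + 2 * (i + 1 : ℤ) * b))))
    (L (nu (α + 2 * (j : ℤ) * b))), le_max_of_le_right ?_, fun β hβ => ?_, fun r hr => ?_⟩
  · have := rim φ
    rw [hL, sub_self, cos_zero] at this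
    linarith
  · rw [hL, show α + 2 * ((j : ℤ) : ℝ) * b = α + 2 * j * π / k by rw [b2]; push_cast; ring]
    rw [← b2] at hj
    exact mul_le_mul hR hj c0.le ((norm_nonneg _).trans hR)
  · refine comb L _ b0 (by linarith [pi_pos]) hβ ?_ ?_
    · rw [add_sub_cancel_right]
      exact le_max_of_le_left (le_max_left _ _)
    · rw [show α + 2 * i * b + b + b = α + 2 * (i + 1 : ℤ) * b by push_cast; ring]
      exact le_max_of_le_left (le_max_right _ _)
  · rw [mul_max_of_nonneg _ _ hr.1, mul_max_of_nonneg _ _ hr.1, add_max, add_max]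
    exact max_le (max_le (rid _ r hr) (rid _ r hr)) (rid _ r hr)

/-- inside the polygon -/
lemma inner (hβ : |β| ≤ b) (r0 : 0 < r) (r1 : r * cos β < ρ * cos b) {x : E}
    (hx : x = r • nu (α + 2 * i * b + b + β)) (hd : DifferentiableAt ℝ (bottom k α g) x) :
    ‖fderiv ℝ (bottom k α g) x‖ * cos β ≤ fderiv ℝ (bottom k α g) x (nu (α + 2 * i * b + b + β)) ∧
      ‖fderiv ℝ (bottom k α g) x‖ ≤ q ∧ bottom k α g x ≤ -q * (1 - ρ * cos b) := by
  obtain ⟨c0, c1⟩ := c_bd H.hk H.hb hβ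
  have C0 := c0.trans_le c1
  have r2 : r ≤ 1 := by nlinarith [H.ρ0.2]
  have m : x ∈ closedBall (0 : E) 1 := hx ▸ mem_ray _ r0.le r2
  obtain ⟨-, -, s, s1, s2, s3⟩ := H.sup i m hd
  have s4 := s2 β hβ
  have s5 := H.up _ _ s3
  have lw := H.low (α := α) i (β := β) r0.le r2
  have e : fderiv ℝ (bottom k α g) x x =
      r * fderiv ℝ (bottom k α g) x (nu (α + 2 * i * b + b + β)) := by
    nth_rewrite 2 [hx]
    rw [map_smul, smul_eq_mul]
  have n0 := norm_nonneg (fderiv ℝ (bottom k α g) x)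
  have s0 : 0 ≤ s := le_trans (by positivity) s1
  have pl := fun h => plane (α := α) (g := g) H.hb i (ψ := b) (abs_of_pos (b_bd H.hk H.hb).1).le
    (R := s / cos b) (by positivity) h (by simpa only [div_mul_cancel₀ _ c0.ne'] using s3) m
  rw [← hx] at lw
  rw [hx, lo_ray, add_sub_cancel_left, ← hx] at pl
  rw [e] at s3 s5 pl
  generalize fderiv ℝ (bottom k α g) x (nu (α + 2 * i * b + b + β)) = D at *
  generalize ‖fderiv ℝ (bottom k α g) x‖ = N at *
  generalize bottom k α g x = y at *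
  obtain ⟨R, rfl⟩ : ∃ R, s = R * cos b := ⟨s / cos b, by field_simp⟩
  rw [mul_div_cancel_right₀ _ c0.ne'] at pl
  have N1 : N ≤ R := le_of_mul_le_mul_right s1 c0
  have D1 : D ≤ cos β * R := le_of_mul_le_mul_left (by linarith) c0
  have D2 := mul_le_mul_of_nonneg_left D1 r0.le
  have R1 : R ≤ q := by
    by_contra h
    nlinarith [mul_pos (sub_pos.2 (not_le.1 h)) (sub_pos.2 r1)]
  have h0 : 0 ≤ 1 - ρ * cos b := by nlinarith [H.ρ0.2, cos_le_one b, H.ρ0.1]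
  have pl' := pl (by nlinarith [mul_nonneg (sub_nonneg.2 R1) h0])
  refine ⟨?_, N1.trans R1, by nlinarith [mul_nonneg (n0.trans N1) (sub_pos.2 r1).le]⟩
  have : R * cos β ≤ D := le_of_mul_le_mul_left (by linarith) r0
  nlinarith

/-- outside the polygon -/
lemma outer (hβ : |β| ≤ b) (r1 : ρ * cos b < r * cos β) (r2 : r ≤ 1) {x : E}
    (hx : x = r • nu (α + 2 * i * b + b + β)) (hd : DifferentiableAt ℝ (bottom k α g) x) :
    ‖fderiv ℝ (bottom k α g) x‖ ≤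
        r * fderiv ℝ (bottom k α g) x (nu (α + 2 * i * b + b + β)) - bottom k α g x ∧
      q ≤ r * fderiv ℝ (bottom k α g) x (nu (α + 2 * i * b + b + β)) - bottom k α g x ∧
      bottom k α g x + q ≤ q * r := by
  obtain ⟨c0, c1⟩ := c_bd H.hk H.hb hβ
  have C0 := c0.trans_le c1
  have r0 : 0 < r := by
    by_contra h
    nlinarith [H.ρ0.1, not_lt.1 h]
  have m : x ∈ closedBall (0 : E) 1 := hx ▸ mem_ray _ r0.le r2
  obtain ⟨a1, a2, s, -, s2, s3⟩ := H.sup i m hd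
  have s4 := s2 β hβ
  have s5 := H.up _ _ s3
  have a3 := a2 (α + 2 * i * b + b + β)
  have lw := H.low (α := α) i (β := β) r0.le r2
  have e : fderiv ℝ (bottom k α g) x x =
      r * fderiv ℝ (bottom k α g) x (nu (α + 2 * i * b + b + β)) := by
    nth_rewrite 2 [hx]
    rw [map_smul, smul_eq_mul]
  rw [← hx] at lw
  rw [e] at a1 a3 s5
  generalize fderiv ℝ (bottom k α g) x (nu (α + 2 * i * b + b + β)) = D at *
  generalize bottom k α g x = y at *
  have s6 := mul_le_mul_of_nonneg_left s4 H.ρ0.1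
  have s7 := mul_le_mul_of_nonneg_left s5 C0.le
  have ρc := mul_nonneg H.ρ0.1 c0.le
  have B0 : 0 ≤ D - q * cos β := by
    by_contra h
    nlinarith [mul_pos (sub_pos.2 r1) (neg_pos.2 (not_le.1 h)),
      mul_le_mul_of_nonneg_left lw C0.le]
  have A0 : y - r * D + q ≤ 0 := le_of_mul_le_mul_left (by nlinarith [mul_nonneg ρc B0]) C0
  refine ⟨by linarith, by linarith, ?_⟩
  nlinarith [mul_nonneg (sub_nonneg.2 r2) (neg_nonneg.2 A0), mul_le_mul_of_nonneg_left a3 r0.le]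

end Face

lemma rise {V V' : ℝ → ℝ} (hV : Measurable V') {S : Set ℝ} (hS : MeasurableSet S) {A B : ℝ}
    (h1 : ∀ r ∈ S, 0 < V' r → HasDerivAt V (V' r) r ∧ V r ∈ Icc A B)
    (h2 : ∀ r ∈ S, ∀ s ∈ S, 0 < V' r → r < s → V r < V s) :
    ∫⁻ r in S, ENNReal.ofReal (V' r) ≤ ENNReal.ofReal (B - A) := by
  let P := {r : ℝ | 0 < V' r}
  have hP : MeasurableSet P := measurableSet_lt measurable_const hV
  have key := lintegral_image_eq_lintegral_abs_deriv_mul (hS.inter hP) (s := S ∩ P) (f := V)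
    (f' := V') (fun r hr => (h1 r hr.1 hr.2).1.hasDerivWithinAt)
    (fun r hr s hs e => le_antisymm (not_lt.1 fun h => (h2 s hs.1 r hr.1 hs.2 h).ne' e)
      (not_lt.1 fun h => (h2 r hr.1 s hs.1 hr.2 h).ne e)) fun _ => 1
  calc _ = ∫⁻ r in S ∩ P, ENNReal.ofReal |V' r| * 1 := by
        rw [inter_comm, ← Measure.restrict_restrict hP, ← lintegral_indicator hP]
        refine lintegral_congr fun x => ?_
        by_cases hx : x ∈ P
        · rw [indicator_of_mem hx, abs_of_pos hx, mul_one]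
        · rw [indicator_of_notMem hx, ENNReal.ofReal_of_nonpos (not_lt.1 hx)]
    _ = _ := key.symm
    _ ≤ volume (Icc A B) := by
        rw [setLIntegral_one]
        refine measure_mono ?_
        rintro _ ⟨r, hr, rfl⟩
        exact (h1 r hr.1 hr.2).2
    _ = _ := by simp

end Pool.Agent.Lib.MP_b93bad_an
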