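import Pool.Agent.Lib.MP_b93bad_an.V1

/-! Averaging over sectors and the estimate along one ray. -/

namespace Pool.Agent.Lib.MP_b93bad_an

open MeasureTheory Set Metric Real

lemma avg {k : ℕ} {b : ℝ} (hk : 3 ≤ k) (hb : k * b = π) (α : ℝ) {p : ℝ → ℝ} (hp : Continuous p)
    {H : ℝ → ENNReal} (h0 : ∀ x ∈ Icc (0 : ℝ) 1, 0 ≤ p x)
    (h : ∀ (i : ℤ) (β : ℝ), |β| ≤ b → H (α + 2 * i * b + b + β) ≤ ENNReal.ofReal (p (|β| / b))) :
    ∫⁻ φ in Ioo (-π) π, H φ ≤ ENNReal.ofReal (2 * π * ∫ x in (0 : ℝ)..1, p x) := by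
  obtain ⟨b0, -, -⟩ := b_bd hk hb
  have p0 := pi_pos
  have k0 : (0 : ℝ) < k := by exact_mod_cast (by omega : 0 < k)
  let X : ℝ → ℝ := fun φ => arccos (cos (k * (φ - α - b))) / π
  have cX : Continuous X := by fun_prop
  have eX : ∀ (i : ℤ) (β : ℝ), |β| ≤ b → X (α + 2 * i * b + b + β) = |β| / b := fun i β hβ => by
    simp only [X]
    rw [show k * (α + 2 * i * b + b + β - α - b) = k * β + i * (2 * π) by rw [← hb]; ring,
      cos_add_int_mul_two_pi, ← cos_abs, abs_mul, abs_of_pos k0,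
      arccos_cos (by positivity) (by rw [← hb]; gcongr), ← hb]
    field_simp
  have dec : ∀ φ, ∃ (i : ℤ) (β : ℝ), |β| ≤ b ∧ φ = α + 2 * i * b + b + β := fun φ => by
    have a1 := (le_div_iff₀ (by positivity)).1 (Int.floor_le ((φ - α) / (2 * b)))
    have a2 := (div_lt_iff₀ (by positivity)).1 (Int.lt_floor_add_one ((φ - α) / (2 * b)))
    exact ⟨⌊(φ - α) / (2 * b)⌋, φ - α - b - 2 * ⌊(φ - α) / (2 * b)⌋ * b,
      abs_le.2 ⟨by linarith, by linarith⟩, by ring⟩
  have cp : Continuous fun φ => p (X φ) := hp.comp cX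
  have per : Function.Periodic (fun φ => p (X φ)) (2 * b) := fun φ => by
    obtain ⟨i, β, h1, rfl⟩ := dec φ
    simp only
    rw [eX i β h1, show α + 2 * i * b + b + β + 2 * b = α + 2 * (i + 1 : ℤ) * b + b + β by
      push_cast; ring, eX _ β h1]
  have half : ∫ β in (0 : ℝ)..b, p (β / b) = b * ∫ x in (0 : ℝ)..1, p x := by
    rw [intervalIntegral.integral_comp_div p b0.ne', zero_div, div_self b0.ne', smul_eq_mul]
  have one : ∫ φ in (-π)..(-π + 2 * b), p (X φ) = 2 * b * ∫ x in (0 : ℝ)..1, p x := by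
    rw [per.intervalIntegral_add_eq (-π) α, show α + 2 * b = b + (α + b) by ring]
    nth_rewrite 1 [show α = -b + (α + b) by ring]
    rw [← intervalIntegral.integral_comp_add_right (fun φ => p (X φ)),
      ← intervalIntegral.integral_add_adjacent_intervals (b := 0)
        (Continuous.intervalIntegrable (by fun_prop) _ _)
        (Continuous.intervalIntegrable (by fun_prop) _ _)]
    have e : ∀ β, |β| ≤ b → p (X (β + (α + b))) = p (|β| / b) := fun β hβ => by
      rw [← eX 0 β hβ]; congr 2; push_cast; ring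
    have e1 : ∫ β in (0 : ℝ)..b, p (X (β + (α + b))) = ∫ β in (0 : ℝ)..b, p (β / b) :=
      intervalIntegral.integral_congr fun β hβ => by
        rw [uIcc_of_le b0.le] at hβ
        rw [e β (by rw [abs_of_nonneg hβ.1]; exact hβ.2), abs_of_nonneg hβ.1]
    have e2 : ∫ β in (-b)..0, p (X (β + (α + b))) = ∫ β in (-b)..0, (fun β => p (β / b)) (-β) :=
      intervalIntegral.integral_congr fun β hβ => by
        rw [uIcc_of_le (by linarith)] at hβ
        simp only
        rw [e β (by rw [abs_of_nonpos hβ.2]; linarith [hβ.1]), abs_of_nonpos hβ.2]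
    rw [e1, e2, intervalIntegral.integral_comp_neg fun β => p (β / b), neg_zero, neg_neg, half]
    ring
  have all := per.intervalIntegral_add_zsmul_eq (k : ℤ) (-π) fun _ _ => cp.intervalIntegrable _ _
  rw [one, zsmul_eq_mul, zsmul_eq_mul, Int.cast_natCast,
    show -π + k * (2 * b) = π by linarith] at all
  calc _ ≤ ∫⁻ φ in Ioc (-π) π, ENNReal.ofReal (p (X φ)) := by
        refine (lintegral_mono_set Ioo_subset_Ioc_self).trans (lintegral_mono fun φ => ?_)
        obtain ⟨i, β, h1, rfl⟩ := dec φ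
        rw [eX i β h1]
        exact h i β h1
    _ = _ := by
        rw [lint cp (by linarith) fun φ _ => h0 _ ⟨div_nonneg (arccos_nonneg _) p0.le,
          (div_le_one p0).2 (arccos_le_pi _)⟩, all, ← hb]
        congr 1; ring

lemma pen3 {q l η : ℝ} (hq : 0 ≤ q) (h0 : 0 ≤ l) (h1 : l ≤ η) (h2 : η ≤ 1 / 100) :
    1 - 1 / (1 + q ^ 2) ≤ (1 / 2 - l) * q + l + (1 + η) * l ^ 2 := by
  have hp : 0 < 1 + q ^ 2 := by positivity
  have e : 1 - 1 / (1 + q ^ 2) = q / 2 - q * (q - 1) ^ 2 / (2 * (1 + q ^ 2)) := by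
    field_simp; ring
  have n : 0 ≤ q * (q - 1) ^ 2 / (2 * (1 + q ^ 2)) := by positivity
  have η0 : 0 ≤ η := h0.trans h1
  have m : 0 ≤ (1 + η) * l ^ 2 := by positivity
  rw [e]
  rcases le_total q 1 with h | h
  · nlinarith
  rcases le_total q (1 + 5 * l) with h' | h'
  · have a : (q - 1) ^ 2 / (4 * (1 + η)) ≤ q * (q - 1) ^ 2 / (2 * (1 + q ^ 2)) := by
      rw [div_le_div_iff₀ (by positivity) (by positivity)]
      have : 2 * (1 + q ^ 2) ≤ q * (4 * (1 + η)) := by nlinarith
      nlinarith [sq_nonneg (q - 1)]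
    have b : l * (q - 1) - (1 + η) * l ^ 2 ≤ (q - 1) ^ 2 / (4 * (1 + η)) := by
      rw [le_div_iff₀ (by positivity)]
      nlinarith [sq_nonneg (q - 1 - 2 * (1 + η) * l)]
    linarith
  · have : l * (q - 1) ≤ q * (q - 1) ^ 2 / (2 * (1 + q ^ 2)) := by
      rw [le_div_iff₀ (by positivity)]
      have : l * (2 * (1 + q ^ 2)) ≤ q * (q - 1) := by nlinarith
      nlinarith
    linarith

variable {k : ℕ} {α M b q ρ : ℝ} {g : ℝ → ℝ}

lemma Face.qh (H : Face k M b g q ρ) : q * (1 - ρ * cos b) ≤ M := by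
  have := H.up (-M) 0 fun r hr => by simpa using (H.hg r hr).1
  linarith

lemma Face.ray (H : Face k M b g q ρ) (i : ℤ) {β W₀ W₁ : ℝ} (hβ : |β| ≤ b) (w0 : 0 ≤ W₀)
    (w1 : 0 ≤ W₁) {T : ℝ → ℝ} (hT : IntegrableOn T (Ioo 0 1))
    (hi : ∀ r ∈ Ioo (0 : ℝ) 1, r * cos β < ρ * cos b → ∀ N ∈ Icc 0 q,
      r * (1 - 1 / (1 + N ^ 2)) ≤ T r + W₀ * cos β * N)
    (ho : ∀ r ∈ Ioo (0 : ℝ) 1, ρ * cos b < r * cos β → ∀ v, 0 ≤ v → ∀ N ∈ Icc 0 (q + r ^ 2 * v),
      r * (1 - 1 / (1 + N ^ 2)) ≤ T r + W₀ * cos β * q + W₁ * v) :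
    0 ≤ (∫ r in Ioo (0 : ℝ) 1, T r) + W₀ * M + (W₁ - W₀) * q * (1 - cos β) ∧
    ∫⁻ r in Ioo (0 : ℝ) 1, ENNReal.ofReal (r * (1 - 1 / (1 +
      ‖fderiv ℝ (bottom k α g) (r • nu (α + 2 * i * b + b + β))‖ ^ 2))) ≤
      ENNReal.ofReal ((∫ r in Ioo (0 : ℝ) 1, T r) + W₀ * M + (W₁ - W₀) * q * (1 - cos β)) := by
  obtain ⟨c0, c1⟩ := c_bd H.hk H.hb hβ
  have C0 := c0.trans_le c1
  have C1 := cos_le_one β
  have q0 := H.q0
  have qh := H.qh
  have cv := bottom_convex (k := k) (α := α) H.hM H.hg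
  have I1 := fun r r0 r1 hd => H.inner (α := α) i (r := r) hβ r0 r1 rfl hd
  have O1 := fun r r0 r1 hd => H.outer (α := α) i (r := r) hβ r0 r1 rfl hd
  have lw := fun r r0 r1 => H.low (α := α) i (β := β) (r := r) r0 r1
  have lb : ∀ x ∈ closedBall (0 : E) 1, -M ≤ bottom k α g x := fun x hx =>
    le_bottom hx fun z hz => hull_ge H.hM H.hg hz
  generalize bottom k α g = u at *
  generalize α + 2 * i * b + b + β = φ at *
  obtain ⟨r₀, hr⟩ : ∃ r₀, r₀ * cos β = ρ * cos b := ⟨_, div_mul_cancel₀ _ C0.ne'⟩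
  have r0 : 0 ≤ r₀ := nonneg_of_mul_nonneg_left (hr ▸ mul_nonneg H.ρ0.1 c0.le) C0
  have r1 : r₀ ≤ 1 := le_of_mul_le_mul_right (by nlinarith [H.ρ0.2]) C0
  rw [← hr] at hi ho qh I1 O1
  have der : ∀ r : ℝ, DifferentiableAt ℝ u (r • nu φ) →
      HasDerivAt (fun r : ℝ => u (r • nu φ)) (fderiv ℝ u (r • nu φ) (nu φ)) r := fun r hd => by
    have := hd.hasFDerivAt.comp_hasDerivAt r ((hasDerivAt_id r).smul_const (nu φ))
    rw [one_smul] at this
    exact this
  have sup : ∀ r ∈ Ioo (0 : ℝ) 1, ∀ s ∈ Ioo (0 : ℝ) 1, DifferentiableAt ℝ u (r • nu φ) →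
      u (r • nu φ) + (s - r) * fderiv ℝ u (r • nu φ) (nu φ) ≤ u (s • nu φ) := fun r hr s hs hd => by
    have := support cv (mem_ray φ hr.1.le hr.2.le) (mem_ray φ hs.1.le hs.2.le) hd
    rwa [← sub_smul, map_smul, smul_eq_mul] at this
  let P : Set ℝ := {r | DifferentiableAt ℝ u (r • nu φ)}
  have cr : Measurable fun r : ℝ => r • nu φ := (continuous_id.smul continuous_const).measurable
  have hP : MeasurableSet P := cr (measurableSet_of_differentiableAt ℝ u)
  let D : ℝ → ℝ := fun r => fderiv ℝ u (r • nu φ) (nu φ)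
  have mD : Measurable D := (measurable_fderiv_apply_const ℝ u _).comp cr
  let V : ℝ → ℝ := fun r => (u (r • nu φ) + q) / r
  let V' : ℝ → ℝ := P.indicator (deriv V)
  have mV : Measurable V' := (measurable_deriv V).indicator hP
  have dV : ∀ r ∈ P, 0 < r → HasDerivAt V ((r * D r - u (r • nu φ) - q) / r ^ 2) r :=
    fun r hr r0 => (((der r hr).add_const q).fun_div (hasDerivAt_id' r) r0.ne').congr_deriv
      (by simp only [D]; ring)
  have s1 : Ioo 0 r₀ ⊆ Ioo (0 : ℝ) 1 := Ioo_subset_Ioo_right r1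
  have s2 : Ioo r₀ 1 ⊆ Ioo (0 : ℝ) 1 := Ioo_subset_Ioo_left r0
  have R1 := rise (V := fun r => u (r • nu φ)) mD (measurableSet_Ioo (a := 0) (b := r₀))
    (A := -M) (B := -q * (1 - r₀ * cos β)) (fun r hr h => by
      have hd : DifferentiableAt ℝ u (r • nu φ) := by
        by_contra hd
        simp [D, fderiv_zero_of_not_differentiableAt hd] at h
      exact ⟨der r hd, lb _ (mem_ray φ hr.1.le (s1 hr).2.le),
        (I1 r hr.1 (mul_lt_mul_of_pos_right hr.2 C0) hd).2.2⟩) fun r hr s hs h hrs => by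
      have hd : DifferentiableAt ℝ u (r • nu φ) := by
        by_contra hd
        simp [D, fderiv_zero_of_not_differentiableAt hd] at h
      have := sup r (s1 hr) s (s1 hs) hd
      have := mul_pos (sub_pos.2 hrs) h
      simp only [D] at this
      linarith
  have inP : ∀ r, 0 < V' r → r ∈ P := fun r h => by
    by_contra hd
    simp [V', indicator_of_notMem hd] at h
  have eV : ∀ r ∈ P, 0 < r → V' r = (r * D r - u (r • nu φ) - q) / r ^ 2 := fun r hr r0 => by
    simp only [V', indicator_of_mem hr, (dV r hr r0).deriv]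
  have R2 := rise (V := V) mV (measurableSet_Ioo (a := r₀) (b := 1)) (A := q * cos β) (B := q)
    (fun r hr h => by
      have hd := inP r h
      have a := (s2 hr).1
      refine ⟨eV r hd a ▸ dV r hd a, (le_div_iff₀ a).2 ?_, (div_le_iff₀ a).2
        (O1 r (mul_lt_mul_of_pos_right hr.1 C0) hr.2.le hd).2.2⟩
      have := lw r a.le hr.2.le
      linarith) fun r hr s hs h hrs => by
      have hd := inP r h
      have a := (s2 hr).1
      rw [eV r hd a] at h
      have h' := (div_pos_iff_of_pos_right (by positivity)).1 h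
      have := mul_le_mul_of_nonneg_left (sup r (s2 hr) s (s2 hs) hd) a.le
      have := mul_pos (sub_pos.2 hrs) h'
      simp only [V]
      rw [div_lt_div_iff₀ a (s2 hs).1]
      simp only [D] at this
      linarith
  let T' : ℝ → ℝ := fun r => T r + (Ioo r₀ 1).indicator (fun _ => W₀ * cos β * q) r
  have ne : ∀ᵐ r ∂(volume.restrict (Ioo (0 : ℝ) 1)), r ∈ Ioo (0 : ℝ) 1 ∧ r ≠ r₀ :=
    (ae_restrict_mem measurableSet_Ioo).and (ae_restrict_of_ae (compl_mem_ae_iff.2
      (measure_singleton r₀)))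
  have iI : IntegrableOn ((Ioo r₀ 1).indicator fun _ => W₀ * cos β * q) (Ioo (0 : ℝ) 1) :=
    (integrableOn_const (by simp)).indicator measurableSet_Ioo
  have T0 : 0 ≤ᵐ[volume.restrict (Ioo (0 : ℝ) 1)] T' := by
    filter_upwards [ne] with r ⟨hr, n⟩
    rcases lt_or_gt_of_ne n with h | h
    · have := hi r hr (mul_lt_mul_of_pos_right h C0) 0 ⟨le_rfl, q0⟩
      simp only [T', indicator_of_notMem (fun a : r ∈ Ioo r₀ 1 => lt_asymm h a.1)]
      simpa using this
    · have := ho r hr (mul_lt_mul_of_pos_right h C0) 0 le_rfl 0 ⟨le_rfl, by simpa using q0⟩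
      simp only [T', indicator_of_mem (show r ∈ Ioo r₀ 1 from ⟨h, hr.2⟩)]
      simpa using this
  have eT : ∫ r in Ioo (0 : ℝ) 1, T' r = (∫ r in Ioo (0 : ℝ) 1, T r) +
      (1 - r₀) * (W₀ * cos β * q) := by
    rw [integral_add hT iI, setIntegral_indicator measurableSet_Ioo, inter_eq_right.2 s2,
      setIntegral_const]
    simp [Measure.real, r1]
  have T1 : 0 ≤ ∫ r in Ioo (0 : ℝ) 1, T' r := integral_nonneg_of_ae T0
  have a1 : 0 ≤ W₀ * (-q * (1 - r₀ * cos β) - -M) := mul_nonneg w0 (by linarith)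
  have a2 : 0 ≤ W₁ * (q - q * cos β) := mul_nonneg w1 (by nlinarith)
  have e : (∫ r in Ioo (0 : ℝ) 1, T r) + W₀ * M + (W₁ - W₀) * q * (1 - cos β) =
      (∫ r in Ioo (0 : ℝ) 1, T' r) + W₀ * (-q * (1 - r₀ * cos β) - -M) +
        W₁ * (q - q * cos β) := by rw [eT]; ring
  rw [e]
  refine ⟨by positivity, ?_⟩
  calc _ ≤ ∫⁻ r in Ioo (0 : ℝ) 1, (ENNReal.ofReal (T' r) +
          (Ioo 0 r₀).indicator (fun r => ENNReal.ofReal W₀ * ENNReal.ofReal (D r)) r +
          (Ioo r₀ 1).indicator (fun r => ENNReal.ofReal W₁ * ENNReal.ofReal (V' r)) r) := by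
        refine lintegral_mono_ae ?_
        filter_upwards [ne, T0] with r ⟨hr, n⟩ t0
        by_cases hd : r ∈ P
        swap
        · simp [fderiv_zero_of_not_differentiableAt hd]
        have n0 := norm_nonneg (fderiv ℝ u (r • nu φ))
        rcases lt_or_gt_of_ne n with h | h
        · obtain ⟨b1, b2, -⟩ := I1 r hr.1 (mul_lt_mul_of_pos_right h C0) hd
          have b3 := hi r hr (mul_lt_mul_of_pos_right h C0) _ ⟨n0, b2⟩
          have m : r ∉ Ioo r₀ 1 := fun a => lt_asymm h a.1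
          have d0 : 0 ≤ D r := le_trans (by positivity) b1
          rw [indicator_of_mem (show r ∈ Ioo 0 r₀ from ⟨hr.1, h⟩), indicator_of_notMem m, add_zero,
            ← ENNReal.ofReal_mul w0, ← ENNReal.ofReal_add t0 (by positivity)]
          refine ENNReal.ofReal_le_ofReal ?_
          have := mul_le_mul_of_nonneg_left b1 w0
          simp only [T', D, indicator_of_notMem m]
          linarith
        · obtain ⟨b1, b2, -⟩ := O1 r (mul_lt_mul_of_pos_right h C0) hr.2.le hd
          have r0 := hr.1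
          have v0 : 0 ≤ V' r := by
            rw [eV r hd r0]
            exact div_nonneg (by simp only [D]; linarith) (by positivity)
          have b3 := ho r hr (mul_lt_mul_of_pos_right h C0) _ v0 _ ⟨n0, by
            rw [eV r hd r0, mul_div_cancel₀ _ (by positivity)]
            simp only [D]; linarith⟩
          have m : r ∈ Ioo r₀ 1 := ⟨h, hr.2⟩
          rw [indicator_of_notMem (fun a : r ∈ Ioo 0 r₀ => lt_asymm h a.2), indicator_of_mem m,
            add_zero, ← ENNReal.ofReal_mul w1, ← ENNReal.ofReal_add t0 (by positivity)]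
          refine ENNReal.ofReal_le_ofReal ?_
          simp only [T', indicator_of_mem m]
          linarith
    _ ≤ _ := by
        rw [lintegral_add_right _ ((mV.ennreal_ofReal.const_mul _).indicator measurableSet_Ioo),
          lintegral_add_right _ ((mD.ennreal_ofReal.const_mul _).indicator measurableSet_Ioo),
          ← ofReal_integral_eq_lintegral_ofReal (f := T') (hT.add iI) T0,
          ENNReal.ofReal_add (add_nonneg T1 a1) a2, ENNReal.ofReal_add T1 a1,
          ENNReal.ofReal_mul w0, ENNReal.ofReal_mul w1]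
        refine add_le_add (add_le_add le_rfl ?_) ?_
        · refine (setLIntegral_le_lintegral _ _).trans ?_
          rw [lintegral_indicator measurableSet_Ioo, lintegral_const_mul' _ _ ENNReal.ofReal_ne_top]
          exact mul_le_mul_right R1 _
        · refine (setLIntegral_le_lintegral _ _).trans ?_
          rw [lintegral_indicator measurableSet_Ioo, lintegral_const_mul' _ _ ENNReal.ofReal_ne_top]
          exact mul_le_mul_right R2 _

end Pool.Agent.Lib.MP_b93bad_an
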