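import Pool.Agent.Lib.MP_b93bad_an.V2

/-! The weights along one ray. -/

namespace Pool.Agent.Lib.MP_b93bad_an

open MeasureTheory Set Metric Real

lemma piece {a b C : ℝ} {S Γ : ℝ → ℝ} (h0 : 0 ≤ a) (h1 : a ≤ b) (h2 : b ≤ C)
    (hc : ContinuousOn S (Icc a b)) (hd : ∀ x ∈ Icc a b, HasDerivAt Γ (S x) x) :
    IntegrableOn ((Ioc a b).indicator S) (Ioc 0 C) ∧
      ∫ x in Ioc 0 C, (Ioc a b).indicator S x = Γ b - Γ a := by
  have hi : IntegrableOn S (Ioc a b) := hc.integrableOn_Icc.mono_set Ioc_subset_Icc_self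
  refine ⟨((integrable_indicator_iff measurableSet_Ioc).2 hi).integrableOn, ?_⟩
  rw [setIntegral_indicator measurableSet_Ioc, inter_eq_right.2 (Ioc_subset_Ioc h0 h2),
    ← intervalIntegral.integral_of_le h1]
  exact intervalIntegral.integral_eq_sub_of_hasDerivAt (by rwa [uIcc_of_le h1])
    ((intervalIntegrable_iff_integrableOn_Ioc_of_le h1).2 hi)

lemma scale {C : ℝ} (C0 : 0 < C) {S : ℝ → ℝ} (hS : IntegrableOn S (Ioc 0 C)) :
    IntegrableOn (fun r => S (r * C) / C) (Ioo 0 1) ∧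
      ∫ r in Ioo (0 : ℝ) 1, S (r * C) / C = (∫ τ in Ioc 0 C, S τ) / C ^ 2 := by
  have a := ((intervalIntegrable_iff_integrableOn_Ioc_of_le C0.le).2 hS).comp_mul_right (c := C)
  rw [zero_div, div_self C0.ne'] at a
  refine ⟨(((intervalIntegrable_iff_integrableOn_Ioc_of_le zero_le_one).1 a).mono_set
    Ioo_subset_Ioc_self).div_const C, ?_⟩
  rw [← integral_Ioc_eq_integral_Ioo, ← intervalIntegral.integral_of_le zero_le_one,
    intervalIntegral.integral_div, intervalIntegral.integral_comp_mul_right S C0.ne', zero_mul,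
    one_mul, intervalIntegral.integral_of_le C0.le, smul_eq_mul]
  field_simp

variable {k : ℕ} {α M b q ρ : ℝ} {g : ℝ → ℝ}

lemma Face.ray' (H : Face k M b g q ρ) (i : ℤ) {β w B : ℝ} (hβ : |β| ≤ b) (w0 : 0 ≤ w)
    (M1 : M ≤ 1) {S : ℝ → ℝ} (hS : IntegrableOn S (Ioc 0 (cos β)))
    (hi : ∀ τ ∈ Ioo 0 (cos β), τ < ρ * cos b → ∀ N ∈ Icc 0 q,
      τ * (1 - 1 / (1 + N ^ 2)) ≤ S τ + (1 - M) / 2 * N)
    (ho : ∀ τ ∈ Ioo 0 (cos β), ρ * cos b < τ → ∀ v, 0 ≤ v → ∀ N ∈ Icc 0 (q + τ ^ 2 * v),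
      τ * (1 - 1 / (1 + N ^ 2)) ≤ S τ + (1 - M) / 2 * q + w * v)
    (hB : ((∫ τ in Ioc 0 (cos β), S τ) + (1 - M) / 2 * M +
      (w / cos β - (1 - M) / 2) * q * (1 - cos β)) / cos β ^ 2 ≤ B) :
    0 ≤ B ∧ ∫⁻ r in Ioo (0 : ℝ) 1, ENNReal.ofReal (r * (1 - 1 / (1 +
      ‖fderiv ℝ (bottom k α g) (r • nu (α + 2 * i * b + b + β))‖ ^ 2))) ≤ ENNReal.ofReal B := by
  obtain ⟨c0, c1⟩ := c_bd H.hk H.hb hβ
  have C0 := c0.trans_le c1
  obtain ⟨s1, s2⟩ := scale C0 hS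
  have m : ∀ r ∈ Ioo (0 : ℝ) 1, r * cos β ∈ Ioo 0 (cos β) := fun r hr =>
    ⟨mul_pos hr.1 C0, mul_lt_of_lt_one_left C0 hr.2⟩
  have := H.ray (α := α) i (W₀ := (1 - M) / (2 * cos β ^ 2)) (W₁ := w / cos β ^ 3) hβ
    (div_nonneg (by linarith) (by positivity)) (by positivity) s1
    (fun r hr h N hN => le_of_mul_le_mul_right (by
      have := hi _ (m r hr) h N hN
      refine le_trans (le_of_eq (by ring)) (this.trans (le_of_eq ?_))
      field_simp) C0)
    (fun r hr h v v0 N hN => le_of_mul_le_mul_right (by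
      have := ho _ (m r hr) h (v / cos β ^ 2) (by positivity) N
        ⟨hN.1, hN.2.trans_eq (by field_simp)⟩
      refine le_trans (le_of_eq (by ring)) (this.trans (le_of_eq ?_))
      field_simp) C0)
  rw [s2] at this
  have e := le_trans (le_of_eq (by field_simp : (∫ τ in Ioc 0 (cos β), S τ) / cos β ^ 2 +
    (1 - M) / (2 * cos β ^ 2) * M +
      (w / cos β ^ 3 - (1 - M) / (2 * cos β ^ 2)) * q * (1 - cos β) = _)) hB
  exact ⟨this.1.trans e, this.2.trans (ENNReal.ofReal_le_ofReal e)⟩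

lemma pt {η τ a L N : ℝ} (h2 : η ≤ 1 / 100) (ht : 1 - η / 4 ≤ τ) (a0 : 0 ≤ a) (aL : a ≤ L)
    (L1 : L ≤ 3 / 4 * η) (N0 : 0 ≤ N) :
    τ * (1 - 1 / (1 + N ^ 2)) ≤ a + (1 + 2 * η) * L ^ 2 + (τ / 2 - a) * N := by
  have t0 : 0 < τ := by linarith
  have η0 : 0 ≤ η := by linarith
  have p := mul_le_mul_of_nonneg_left (pen3 N0 (l := a / τ) (η := η) (by positivity)
    (by rw [div_le_iff₀ t0]; nlinarith) h2) t0.le
  have e : τ * ((1 / 2 - a / τ) * N + a / τ + (1 + η) * (a / τ) ^ 2) =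
      (τ / 2 - a) * N + a + (1 + η) / τ * a ^ 2 := by field_simp
  have : (1 + η) / τ * a ^ 2 ≤ (1 + 2 * η) * L ^ 2 :=
    mul_le_mul (by rw [div_le_iff₀ t0]; nlinarith) (by gcongr) (by positivity) (by positivity)
  linarith

lemma half {τ N : ℝ} (t0 : 0 ≤ τ) (N0 : 0 ≤ N) : τ * (1 - 1 / (1 + N ^ 2)) ≤ τ / 2 * N := by
  have := mul_le_mul_of_nonneg_left (pen3 N0 (l := 0) (η := 0) le_rfl le_rfl (by norm_num)) t0
  linarith

lemma quot {s τ ω : ℝ} (s0 : 0 < s) (h : s ≤ τ) (ω0 : 0 ≤ ω) (ω1 : ω ≤ s / 2) :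
    s ^ 2 * ω / τ ^ 2 ≤ ω ∧ ω - (τ - s) ≤ s ^ 2 * ω / τ ^ 2 := by
  have t0 := s0.trans_le h
  constructor
  · rw [div_le_iff₀ (by positivity), mul_comm]
    gcongr
  · rw [le_div_iff₀ (by positivity)]
    have a : ω * (τ + s) ≤ τ / 2 * (τ + τ) := by gcongr; linarith
    linarith [mul_nonneg (sub_nonneg.2 h) (show 0 ≤ τ ^ 2 - ω * (τ + s) by linarith)]

lemma prof {η C h x z y θ w : ℝ} (hM : 0 < M) (h1 : 4 * M ≤ η) (h2 : η ≤ 1 / 100)
    (z0 : 0 ≤ z) (zx : z ≤ x) (x1 : x ≤ 1) (zy : z ≤ y) (y1 : y ≤ 1) (θ0 : 1 - M ≤ θ) (θ1 : θ ≤ 1)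
    (C1 : C ≤ 1) (hz : 1 - M * z ≤ C) (zh : M * z ≤ h) (zh' : M * z < h → y = z)
    (hw : w = (1 - M * z) ^ 2 * (1 - M + θ * M * (x - z) - 3 * M * (y - z)) / 2) :
    ∃ S : ℝ → ℝ, IntegrableOn S (Ioc 0 C) ∧
    (∀ τ ∈ Ioo 0 C, τ < 1 - h → ∀ N ∈ Icc 0 q,
      τ * (1 - 1 / (1 + N ^ 2)) ≤ S τ + (1 - M) / 2 * N) ∧
    (∀ τ ∈ Ioo 0 C, 1 - h < τ → ∀ v, 0 ≤ v → ∀ N ∈ Icc 0 (q + τ ^ 2 * v),
      τ * (1 - 1 / (1 + N ^ 2)) ≤ S τ + (1 - M) / 2 * q + w * v) ∧
    (∫ τ in Ioc 0 C, S τ) + (1 - M) / 2 * M + (w / C - (1 - M) / 2) * q * (1 - C) ≤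
      (C ^ 2 - (1 - M) ^ 2) / 4 + w * (1 - C) / C +
      (q - 1) * (M ^ 2 / 2) * (θ * (x ^ 2 / 2 - (3 * y * z - 3 * z ^ 2 / 2)) +
        (M * z ^ 2 * (1 - θ * (x - z) + 3 * (y - z)) - (1 - θ) * (z ^ 2 + 3 * z * (y - z)))) +
      (1 + 2 * η) * (M ^ 3 / 4 * ((1 - x) ^ 3 / 3 + (1 - x + M) ^ 2 * x +
        2 * (1 - x + M) * (3 * y * z - 3 * z ^ 2 / 2) + 3 * y ^ 3)) := by
  have M1 : M ≤ 1 / 400 := by linarith
  have η0 : 0 < η := by linarith
  have mx : M * x ≤ M := mul_le_of_le_one_right hM.le x1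
  have mzx : M * z ≤ M * x := mul_le_mul_of_nonneg_left zx hM.le
  have mzy : M * z ≤ M * y := mul_le_mul_of_nonneg_left zy hM.le
  have my : M * y ≤ M := mul_le_of_le_one_right hM.le y1
  have mz : 0 ≤ M * z := by positivity
  have θ2 : 0 ≤ θ := by linarith
  have d0 : 0 ≤ θ * M * (x - z) := mul_nonneg (by positivity) (by linarith)
  have d1 : θ * M * (x - z) ≤ M * x - M * z := by nlinarith
  have d2 : M * x - M * z - θ * M * (x - z) ≤ M ^ 2 := by
    have : (1 - θ) * (M * x - M * z) ≤ M * M :=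
      mul_le_mul (by linarith) (by linarith) (by linarith) hM.le
    linarith
  have w0 : 0 ≤ w := by
    rw [hw]
    exact div_nonneg (mul_nonneg (sq_nonneg _) (by linarith)) zero_le_two
  have t1 : 0 < 1 - M * z := by linarith
  obtain ⟨K, hK⟩ : ∃ K, K = 1 + 2 * η := ⟨_, rfl⟩
  obtain ⟨A, hA⟩ : ∃ A, A = M * (1 - x + M + 3 * (y - z)) / 2 := ⟨_, rfl⟩
  have MM : M ^ 2 ≤ M / 400 := by nlinarith
  have A0 : 0 ≤ A := by linarith [sq_nonneg M]
  have dL : ∀ τ, HasDerivAt (fun τ : ℝ => (τ - (1 - M)) / 2) (1 / 2) τ := fun τ =>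
    ((hasDerivAt_id' τ).sub_const _).div_const 2
  obtain ⟨i1, e1⟩ := piece (a := 1 - M) (b := 1 - M * x) (C := C)
    (S := fun τ => (τ - (1 - M)) / 2 + K * ((τ - (1 - M)) / 2) ^ 2)
    (Γ := fun τ => ((τ - (1 - M)) / 2) ^ 2 + 2 / 3 * K * ((τ - (1 - M)) / 2) ^ 3)
    (by linarith) (by linarith) (by linarith) (by fun_prop) fun τ _ =>
      (((dL τ).fun_pow 2).fun_add (((dL τ).fun_pow 3).const_mul _)).congr_deriv (by
        push_cast; ring)
  obtain ⟨i2, e2⟩ := piece (a := 1 - M * x) (b := 1 - M * z) (C := C)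
    (S := fun τ => (τ - (1 - M)) / 2 + (q - 1) * (θ * (τ - (1 - M * x)) / 2) +
      K * (M * (1 - x + M) / 2) ^ 2)
    (Γ := fun τ => ((τ - (1 - M)) / 2) ^ 2 + (q - 1) * θ / 4 * (τ - (1 - M * x)) ^ 2 +
      K * (M * (1 - x + M) / 2) ^ 2 * τ)
    (by linarith) (by linarith) hz (by fun_prop) fun τ _ =>
      ((((dL τ).fun_pow 2).fun_add ((((hasDerivAt_id' τ).sub_const _).fun_pow 2).const_mul _)).fun_add
        ((hasDerivAt_id' τ).const_mul _)).congr_deriv (by push_cast; ring)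
  obtain ⟨i3, e3⟩ := piece (a := 1 - M * z) (b := C) (C := C)
    (S := fun τ => (τ - (1 - M)) / 2 + (q - 1) * (w / τ ^ 2 - (1 - M) / 2) +
      K * (A + 3 / 2 * (τ - (1 - M * z))) ^ 2)
    (Γ := fun τ => ((τ - (1 - M)) / 2) ^ 2 + (q - 1) * (-(w * τ⁻¹) - (1 - M) / 2 * τ) +
      2 / 9 * K * (A + 3 / 2 * (τ - (1 - M * z))) ^ 3)
    t1.le hz le_rfl (by
      refine ContinuousOn.add (ContinuousOn.add (by fun_prop) (ContinuousOn.mul (by fun_prop)
        (ContinuousOn.sub (ContinuousOn.div (by fun_prop) (by fun_prop) fun τ hτ => ?_)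
          (by fun_prop)))) (by fun_prop)
      exact pow_ne_zero _ (t1.trans_le hτ.1).ne') fun τ hτ =>
      ((((dL τ).fun_pow 2).fun_add (((((hasDerivAt_inv (t1.trans_le hτ.1).ne').const_mul w).fun_neg).fun_sub
        ((hasDerivAt_id' τ).const_mul _)).const_mul _)).fun_add
        ((((((hasDerivAt_id' τ).sub_const _).const_mul _).const_add A).fun_pow 3).const_mul _)).congr_deriv
        (by push_cast; ring)
  have z2 : ∀ τ ∈ Ioc (1 - M * x) (1 - M * z), ∀ N, 0 ≤ N → τ * (1 - 1 / (1 + N ^ 2)) ≤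
      (τ - (1 - M)) / 2 - θ * (τ - (1 - M * x)) / 2 + K * (M * (1 - x + M) / 2) ^ 2 +
        ((1 - M) / 2 + θ * (τ - (1 - M * x)) / 2) * N := fun τ hτ N N0 => by
    have a : θ * (τ - (1 - M * x)) ≤ τ - (1 - M * x) :=
      mul_le_of_le_one_left (by linarith [hτ.1]) θ1
    have b : (1 - θ) * (τ - (1 - M * x)) ≤ M * M :=
      mul_le_mul (by linarith) (by linarith [hτ.2]) (by linarith [hτ.1]) hM.le
    have := pt (τ := τ) (a := (τ - (1 - M)) / 2 - θ * (τ - (1 - M * x)) / 2)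
      (L := M * (1 - x + M) / 2) h2 (by linarith [hτ.1]) (by linarith) (by linarith)
      (by linarith) N0
    rw [hK]; linarith only [this]
  have z1 : ∀ τ ∈ Ioc (1 - M) (1 - M * x), ∀ N, 0 ≤ N → τ * (1 - 1 / (1 + N ^ 2)) ≤
      (τ - (1 - M)) / 2 + K * ((τ - (1 - M)) / 2) ^ 2 + (1 - M) / 2 * N := fun τ hτ N N0 => by
    have := pt (τ := τ) (a := (τ - (1 - M)) / 2) (L := (τ - (1 - M)) / 2) h2 (by linarith [hτ.1])
      (by linarith [hτ.1]) le_rfl (by linarith [hτ.2]) N0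
    rw [hK]; linarith
  have ww : ∀ τ, 0 ≤ τ → τ ≤ 1 - M * z → 1 - h < τ → ∀ ω, 0 ≤ ω →
      ω ≤ (1 - M + θ * M * (x - z)) / 2 → ∀ v, 0 ≤ v → ∀ N, N ≤ q + τ ^ 2 * v →
      ω * N ≤ ω * q + w * v := fun τ a1 a2 a3 ω a4 a5 v v0 N hN => by
    have b1 : ω * τ ^ 2 ≤ w := by
      rw [hw, zh' (by linarith), sub_self, mul_zero, sub_zero, mul_div_assoc, mul_comm]
      gcongr
    have := mul_le_mul_of_nonneg_left hN a4
    have := mul_le_mul_of_nonneg_right b1 v0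
    linarith
  refine ⟨_, (i1.add i2).add i3, fun τ hτ hh N hN => ?_, fun τ hτ hh v v0 N hN => ?_, ?_⟩
  · simp only [Pi.add_apply]
    rw [indicator_of_notMem (s := Ioc (1 - M * z) C) fun a => by linarith [a.1]]
    rcases le_or_gt τ (1 - M) with a | a
    · rw [indicator_of_notMem fun b => by linarith [b.1],
        indicator_of_notMem fun b => by linarith [b.1]]
      linarith only [half hτ.1.le hN.1, mul_le_mul_of_nonneg_right a hN.1]
    rcases le_or_gt τ (1 - M * x) with a' | a'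
    · rw [indicator_of_mem (show τ ∈ Ioc _ _ from ⟨a, a'⟩),
        indicator_of_notMem fun b => by linarith [b.1]]
      linarith [z1 τ ⟨a, a'⟩ N hN.1]
    · have m : τ ∈ Ioc (1 - M * x) (1 - M * z) := ⟨a', by linarith⟩
      rw [indicator_of_notMem fun b => by linarith [b.2], indicator_of_mem m]
      have := mul_le_mul_of_nonneg_left hN.2 (mul_nonneg θ2 (sub_nonneg.2 a'.le))
      linarith [z2 τ m N hN.1]
  · simp only [Pi.add_apply]
    rcases le_or_gt τ (1 - M * z) with c | c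
    · rw [indicator_of_notMem (s := Ioc (1 - M * z) C) fun a => by linarith [a.1]]
      have W := fun ω a b => ww τ hτ.1.le c hh ω a b v v0 N hN.2
      rcases le_or_gt τ (1 - M) with a | a
      · rw [indicator_of_notMem fun b => by linarith [b.1],
          indicator_of_notMem fun b => by linarith [b.1]]
        linarith only [half hτ.1.le hN.1, mul_le_mul_of_nonneg_right a hN.1,
          W ((1 - M) / 2) (by linarith) (by linarith)]
      rcases le_or_gt τ (1 - M * x) with a' | a'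
      · rw [indicator_of_mem (show τ ∈ Ioc _ _ from ⟨a, a'⟩),
          indicator_of_notMem fun b => by linarith [b.1]]
        linarith [z1 τ ⟨a, a'⟩ N hN.1, W ((1 - M) / 2) (by linarith) (by linarith)]
      · have m : τ ∈ Ioc (1 - M * x) (1 - M * z) := ⟨a', c⟩
        rw [indicator_of_notMem fun b => by linarith [b.2], indicator_of_mem m]
        have b1 := mul_nonneg θ2 (sub_nonneg.2 a'.le)
        have b2 := mul_le_mul_of_nonneg_left c θ2
        linarith [z2 τ m N hN.1, W ((1 - M) / 2 + θ * (τ - (1 - M * x)) / 2) (by linarith)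
          (by linarith)]
    · rw [indicator_of_notMem fun b => by linarith [b.2],
        indicator_of_notMem fun b => by linarith [b.2],
        indicator_of_mem (show τ ∈ Ioc _ _ from ⟨c, hτ.2.le⟩)]
      have t0 := hτ.1
      obtain ⟨ω, hω⟩ : ∃ ω, ω = (1 - M + θ * M * (x - z) - 3 * M * (y - z)) / 2 := ⟨_, rfl⟩
      have ω0 : 0 ≤ ω := by linarith
      have ω1 : ω ≤ (1 - M * z) / 2 := by linarith
      have hw' : w = (1 - M * z) ^ 2 * ω := by rw [hw, hω]; ring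
      obtain ⟨b1, b2⟩ := quot t1 c.le ω0 ω1
      rw [← hw'] at b1 b2
      have p := pt (τ := τ) (a := τ / 2 - w / τ ^ 2) (L := A + 3 / 2 * (τ - (1 - M * z))) h2
        (by linarith only [c, h1, mx, mzx]) (by linarith only [c, b1, ω1])
        (by linarith only [b2, hω, hA, d2])
        (by linarith only [hA, hτ.2, C1, MM, my, mzx, mz, h1, hM]) hN.1
      have b3 := mul_le_mul_of_nonneg_left hN.2 (show 0 ≤ w / τ ^ 2 by positivity)
      rw [mul_add, ← mul_assoc, div_mul_cancel₀ _ (by positivity)] at b3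
      rw [hK]; linarith only [p, b3]
  · rw [integral_add' (i1.add i2) i3, integral_add' i1 i2, e1, e2, e3, ← hK]
    have C0 : 0 < C := by linarith
    have b1 : (A + 3 / 2 * (C - (1 - M * z))) ^ 3 ≤ (A + 3 / 2 * (M * z)) ^ 3 :=
      pow_le_pow_left₀ (by linarith) (by linarith) 3
    have b2 : 0 ≤ M ^ 3 * (y ^ 3 - z * (3 * y ^ 2 - 3 * y * z + z ^ 2)) :=
      mul_nonneg (by positivity) (by linarith only [pow_nonneg (sub_nonneg.2 zy) 3])
    have K0 : 0 ≤ K := by linarith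
    have b3 := mul_le_mul_of_nonneg_left b1 K0
    have b4 := mul_nonneg K0 b2
    have b5 : w * (1 - M * z)⁻¹ =
        (1 - M * z) * (1 - M + θ * M * (x - z) - 3 * M * (y - z)) / 2 := by
      rw [hw]; field_simp
    have b6 : w * C⁻¹ * C = w := by field_simp
    rw [b5, div_eq_mul_inv w C, mul_div_right_comm w, div_eq_mul_inv w C]
    generalize w * C⁻¹ = W at *
    have b7 : q * (W * C) = q * ((1 - M * z) ^ 2 *
      (1 - M + θ * M * (x - z) - 3 * M * (y - z)) / 2) := by rw [b6, hw]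
    rw [hw] at b6
    rw [hA] at b3 ⊢
    linarith only [b3, b4, b6, b7]

end Pool.Agent.Lib.MP_b93bad_an
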