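import Pool.Agent.Lib.MP_b93bad_an.V3

/-! The sharp lower bound for the resistance of a dihedral body. -/

namespace Pool.Agent.Lib.MP_b93bad_an

open MeasureTheory Set Metric Real

lemma inv_bd {u : ℝ} (u0 : 0 ≤ u) (u1 : u ≤ 1 / 100) : 1 + 2 * u ≤ ((1 - u)⁻¹) ^ 2 ∧
    ((1 - u)⁻¹) ^ 2 ≤ 1 + 3 * u ∧ ((1 - u)⁻¹) ^ 3 ≤ 1 + 4 * u := by
  have C0 : 0 < 1 - u := by linarith
  have a := mul_nonneg u0 u0
  have b := mul_nonneg a u0
  have c := mul_le_mul_of_nonneg_left u1 u0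
  have d := mul_le_mul_of_nonneg_left u1 a
  have e := mul_le_mul_of_nonneg_left u1 b
  simp only [inv_pow]
  refine ⟨?_, ?_, ?_⟩
  · rw [inv_eq_one_div, le_div_iff₀ (by positivity)]; linarith
  · rw [inv_eq_one_div, div_le_iff₀ (by positivity)]; linarith
  · rw [inv_eq_one_div, div_le_iff₀ (by positivity)]; linarith

lemma nA {M η u s a w j : ℝ} (hM : 0 < M) (M1 : M ≤ 1 / 400) (u0 : 0 ≤ u) (u1 : u ≤ s / 2)
    (u2 : s / 2 - u ≤ η * M ^ 3) (s1 : s ≤ η * M) (s2 : s ^ 2 ≤ η * M ^ 3) (a0 : 0 ≤ a) (a1 : a ≤ 4)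
    (w1 : w ≤ (1 - M * a + 9 * M ^ 2) / 2) (j2 : 1 + 2 * u ≤ j ^ 2) (j3 : 0 ≤ j ^ 3)
    (j4 : j ^ 3 ≤ 1 + 4 * u) : 1 / 4 - (1 - M) ^ 2 / 4 * j ^ 2 + w * u * j ^ 3 ≤
      M / 2 - M ^ 2 / 4 + M * s / 2 * (1 - a / 2) + 4 * (η * M ^ 3) := by
  have ma : 0 ≤ M * a := by positivity
  have ma' : M * a ≤ M * 4 := by gcongr
  have mm : M ^ 2 ≤ 1 / 1000 := by nlinarith
  have m2 : 0 < M ^ 2 := by positivity
  have b1 : w * u * j ^ 3 ≤ (1 - M * a + 9 * M ^ 2) / 2 * u * (1 + 4 * u) :=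
    mul_le_mul (mul_le_mul_of_nonneg_right w1 u0) j4 j3 (mul_nonneg (by linarith) u0)
  have b2 := mul_le_mul_of_nonneg_left j2 (show 0 ≤ (1 - M) ^ 2 / 4 by positivity)
  have b3 : u ^ 2 ≤ (s / 2) ^ 2 := by gcongr
  have b4 : u ^ 2 * (1 - M * a + 9 * M ^ 2) ≤ u ^ 2 * 2 := by gcongr; linarith
  have b5 : u * M ^ 2 ≤ η * M / 2 * M ^ 2 := by gcongr; linarith
  have b6 : (s / 2 - u) * (M * (a / 2 - 1)) ≤ (s / 2 - u) * 1 :=
    mul_le_mul_of_nonneg_left (by linarith) (by linarith)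
  linarith

lemma nC {M η u x y G j : ℝ} (hM : 0 < M) (h1 : 4 * M ≤ η) (h2 : η ≤ 1 / 100) (u1 : u ≤ η / 100)
    (x0 : 0 ≤ x) (x1 : x ≤ 1) (y0 : 0 ≤ y) (y1 : y ≤ 1) (G0 : 0 ≤ G) (G1 : G ≤ 3 / 2)
    (j2 : j ^ 2 ≤ 1 + 3 * u) : (1 + 2 * η) * j ^ 2 * ((1 - x) ^ 3 / 3 + (1 - x + M) ^ 2 * x +
      2 * (1 - x + M) * G + 3 * y ^ 3) ≤
      (1 - x) ^ 3 / 3 + (1 - x) ^ 2 * x + 2 * (1 - x) * G + 3 * y ^ 3 + 27 * η := by
  obtain ⟨l, rfl⟩ : ∃ l, x = 1 - l := ⟨1 - x, by ring⟩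
  have l0 : 0 ≤ l := by linarith
  have l1 : l ≤ 1 := by linarith
  have η0 : 0 ≤ η := by linarith
  simp only [sub_sub_cancel]
  have a1 : (1 + 2 * η) * j ^ 2 ≤ 1 + 3 * η := by
    have := mul_le_mul_of_nonneg_left j2 (show 0 ≤ 1 + 2 * η by linarith)
    nlinarith
  have a2 : l ^ 3 ≤ 1 := pow_le_one₀ l0 l1
  have a3 : y ^ 3 ≤ 1 := pow_le_one₀ y0 y1
  have a4 : l ^ 2 * (1 - l) ≤ 1 := mul_le_one₀ (pow_le_one₀ l0 l1) x0 x1
  have a5 : l * G ≤ 1 * (3 / 2) := by gcongr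
  have a6 : M * G ≤ M * (3 / 2) := by gcongr
  have a7 : M * ((2 * l + M) * (1 - l)) ≤ M * (3 * 1) := by gcongr; linarith
  refine (mul_le_mul_of_nonneg_right a1 (by positivity)).trans ?_
  have a8 : η * (l ^ 3 / 3 + (l + M) ^ 2 * (1 - l) + 2 * (l + M) * G + 3 * y ^ 3) ≤ η * 8 := by
    gcongr; linarith
  linarith

variable {k : ℕ} {α M b q ρ : ℝ} {g : ℝ → ℝ}

lemma Face.ray3 (H : Face k M b g q ρ) (i : ℤ) {β η x y θ : ℝ} (hβ : |β| ≤ b) (h1 : 4 * M ≤ η)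
    (h2 : η ≤ 1 / 100) (h3 : b ^ 2 ≤ η * M) (h4 : b ^ 4 ≤ η * M ^ 3) (y0 : 0 ≤ y) (y1 : y ≤ 1)
    (hy : β ^ 2 / 2 ≤ M * y) {z : ℝ} (hz : z = min y ((1 - ρ * cos b) / M)) (zx : z ≤ x)
    (x1 : x ≤ 1) (x2 : x ^ 2 / 2 ≤ 3 * ((1 - ρ * cos b) / M))
    (hθ : (q ≤ 1 ∧ θ = 1) ∨ (1 ≤ q ∧ θ = 1 - M)) {B : ℝ}
    (hB : B = M / 2 - M ^ 2 / 4 + M * β ^ 2 / 2 * (1 - (1 - x + 3 * y) / 2) +
      M ^ 3 / 4 * ((1 - x) ^ 3 / 3 + (1 - x) ^ 2 * x + 2 * (1 - x) * (3 * y * z - 3 * z ^ 2 / 2) +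
        3 * y ^ 3) + (q - 1) * θ * (M ^ 2 / 2) * (x ^ 2 / 2 - (3 * y * z - 3 * z ^ 2 / 2)) +
      14 * (η * M ^ 3)) :
    0 ≤ B ∧ ∫⁻ r in Ioo (0 : ℝ) 1, ENNReal.ofReal (r * (1 - 1 / (1 +
      ‖fderiv ℝ (bottom k α g) (r • nu (α + 2 * i * b + b + β))‖ ^ 2))) ≤ ENNReal.ofReal B := by
  obtain ⟨c0, c1⟩ := c_bd H.hk H.hb hβ
  have hM := H.hM
  have C1 := cos_le_one β
  have q0 := H.q0
  have qh := H.qh
  have h0 : 1 - cos β ≤ 1 - ρ * cos b := by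
    linarith only [c1, mul_le_of_le_one_left c0.le H.ρ0.2]
  obtain ⟨σ, hσ⟩ : ∃ σ, σ = (1 - ρ * cos b) / M := ⟨_, rfl⟩
  have eσ : 1 - ρ * cos b = M * σ := by rw [hσ]; field_simp
  rw [← hσ] at hz x2
  rw [eσ] at qh h0
  have σ0 : 0 ≤ σ := nonneg_of_mul_nonneg_right (by linarith) hM
  have qσ : q * σ ≤ 1 := le_of_mul_le_mul_left (by linarith) hM
  have zy : z ≤ y := hz ▸ min_le_left _ _
  have zσ : z ≤ σ := hz ▸ min_le_right _ _
  have z0 : 0 ≤ z := hz ▸ le_min y0 σ0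
  have s0 : β ^ 2 ≤ b ^ 2 := sq_le_sq' (abs_le.1 hβ).1 (abs_le.1 hβ).2
  have s1 := s0.trans h3
  have s2 : (β ^ 2) ^ 2 ≤ η * M ^ 3 := ((pow_le_pow_left₀ (sq_nonneg _) s0 2).trans_eq
    (by ring)).trans h4
  have η0 : 0 < η := by linarith
  have ηM : η * M ≤ η * (1 / 400) := by gcongr; linarith
  have u1 : 1 - cos β ≤ β ^ 2 / 2 := by linarith [one_sub_sq_div_two_le_cos (x := β)]
  have u2 := (abs_le.1 (cos_bound (x := β) (abs_le_one_iff_mul_self_le_one.2 (by linarith)))).2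
  rw [show |β| ^ 4 = (β ^ 2) ^ 2 by rw [← sq_abs β]; ring] at u2
  have θ0 : 1 - M ≤ θ := by rcases hθ with h | h <;> linarith [h.2]
  have θ1 : θ ≤ 1 := by rcases hθ with h | h <;> linarith [h.2]
  obtain ⟨S, S1, S2, S3, S4⟩ := prof (q := q) (C := cos β) (h := M * σ) hM h1 h2 z0 zx x1 zy y1
    θ0 θ1 C1 (by
      rcases min_choice y σ with h | h <;> rw [hz, h] <;> linarith) (by gcongr)
    (fun h => by
      have := lt_of_mul_lt_mul_left h hM.le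
      rcases min_choice y σ with a | a <;> rw [hz, a] at this ⊢
      exact absurd this (lt_irrefl _)) rfl
  rw [show 1 - M * σ = ρ * cos b by linarith] at S2 S3
  have mz : M * z ≤ M * 1 := by gcongr; linarith
  have mz0 : 0 ≤ M * z := by positivity
  have d0 : 0 ≤ θ * M * (x - z) := mul_nonneg (mul_nonneg (by linarith) hM.le) (by linarith)
  have d1 : θ * (M * (x - z)) ≤ 1 * (M * (x - z)) := by gcongr
  have my : M * y ≤ M * 1 := by gcongr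
  have w1 : (1 - M * z) ^ 2 * (1 - M + θ * M * (x - z) - 3 * M * (y - z)) / 2 ≤
      (1 - M * (1 - x + 3 * y) + 9 * M ^ 2) / 2 := by
    have a1 := mul_le_mul_of_nonneg_left d1 (sq_nonneg (1 - M * z))
    have a2 : 0 ≤ (M * z) ^ 2 * (M * (1 - x + 3 * y - 2 * z)) :=
      mul_nonneg (sq_nonneg _) (mul_nonneg hM.le (by linarith))
    have a3 : M ^ 2 * (z * (z + 2 * (1 - x + 3 * y - 2 * z))) ≤ M ^ 2 * (1 * 9) := by
      gcongr <;> linarith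
    linarith
  refine H.ray' i hβ (div_nonneg (mul_nonneg (sq_nonneg _) (by linarith)) zero_le_two)
    (by linarith) S1 S2 S3 ((div_le_div_of_nonneg_right S4 (sq_nonneg _)).trans ?_)
  generalize (1 - M * z) ^ 2 * (1 - M + θ * M * (x - z) - 3 * M * (y - z)) / 2 = w at *
  have G0 : 0 ≤ 3 * y * z - 3 * z ^ 2 / 2 := by
    linarith only [mul_nonneg z0 (sub_nonneg.2 zy), sq_nonneg z]
  have G1 : 3 * y * z - 3 * z ^ 2 / 2 ≤ 3 / 2 := by
    linarith only [sq_nonneg (y - z), pow_le_one₀ (n := 2) y0 y1]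
  have E0 : (q - 1) *
      (M * z ^ 2 * (1 - θ * (x - z) + 3 * (y - z)) - (1 - θ) * (z ^ 2 + 3 * z * (y - z))) ≤ 0 := by
    rcases hθ with ⟨a, rfl⟩ | ⟨a, rfl⟩
    · refine mul_nonpos_of_nonpos_of_nonneg (by linarith) ?_
      rw [sub_self, zero_mul, sub_zero]
      exact mul_nonneg (by positivity) (by linarith)
    · refine mul_nonpos_of_nonneg_of_nonpos (by linarith) ?_
      have a1 := mul_nonneg (mul_nonneg mz0 (sub_nonneg.2 zy)) (show 0 ≤ 1 - z by linarith)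
      have a2 := mul_nonneg (sq_nonneg z) d0
      linarith
  generalize M * z ^ 2 * (1 - θ * (x - z) + 3 * (y - z)) - (1 - θ) * (z ^ 2 + 3 * z * (y - z)) = E
    at *
  generalize 3 * y * z - 3 * z ^ 2 / 2 = G at *
  have x0 : 0 ≤ x := z0.trans zx
  have x3 : x ^ 2 ≤ 1 := pow_le_one₀ x0 x1
  have Q : (q - 1) * (x ^ 2 / 2 - G) ≤ 3 := by
    rcases le_total q 1 with a | a
    · linarith only [G1, mul_nonneg (sub_nonneg.2 a) (sq_nonneg x), mul_nonneg q0 G0]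
    · linarith only [mul_nonneg (sub_nonneg.2 a) G0, qσ, σ0,
        mul_le_mul_of_nonneg_left x2 (sub_nonneg.2 a)]
  obtain ⟨u, hu⟩ : ∃ u, cos β = 1 - u := ⟨1 - cos β, by ring⟩
  clear S1 S2 S3 S4
  rw [hu] at C1 u1 u2 ⊢
  have u0 : 0 ≤ u := by linarith
  obtain ⟨j1, j2, j3⟩ := inv_bd u0 (by linarith)
  have C0 : 0 < 1 - u := by linarith
  have A := nA hM (by linarith) u0 (s := β ^ 2) (η := η) (by linarith)
    (by linarith [mul_pos η0 (pow_pos hM 3)]) s1 s2 (a := 1 - x + 3 * y) (by linarith)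
    (by linarith) w1 j1 (by positivity) j3
  have C := mul_le_mul_of_nonneg_left (nC hM h1 h2 (by linarith) x0 x1 y0 y1 G0 G1 j2)
    (show 0 ≤ M ^ 3 / 4 by positivity)
  have D := mul_nonpos_of_nonneg_of_nonpos
    (show 0 ≤ M ^ 2 / 2 * (1 - u)⁻¹ ^ 2 by positivity) E0
  have F : M ^ 2 / 2 * (θ * ((1 - u)⁻¹ ^ 2 - 1) * ((q - 1) * (x ^ 2 / 2 - G))) ≤
      M ^ 2 / 2 * (1 * (3 / 2 * (η * M)) * 3) := by
    refine mul_le_mul_of_nonneg_left ((mul_le_mul_of_nonneg_left Q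
      (mul_nonneg (by linarith) (by linarith))).trans ?_) (by positivity)
    gcongr <;> linarith
  have e : ∀ X Y : ℝ, (((1 - u) ^ 2 - (1 - M) ^ 2) / 4 + w * (1 - (1 - u)) / (1 - u) + X + Y) /
      (1 - u) ^ 2 = 1 / 4 - (1 - M) ^ 2 / 4 * (1 - u)⁻¹ ^ 2 + w * u * (1 - u)⁻¹ ^ 3 +
        (X + Y) * (1 - u)⁻¹ ^ 2 := fun X Y => by field_simp; ring
  rw [e, hB]
  linarith

lemma int_poly (c0 c2 c3 c : ℝ) {G : ℝ → ℝ} (hG : Continuous G) :
    ∫ x in (0 : ℝ)..1, (c0 + c2 * x ^ 2 + c3 * x ^ 3 + c * G x) =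
      c0 + c2 / 3 + c3 / 4 + c * ∫ x in (0 : ℝ)..1, G x := by
  have i : ∀ {f : ℝ → ℝ}, Continuous f → IntervalIntegrable f volume 0 1 := fun h =>
    h.intervalIntegrable _ _
  rw [intervalIntegral.integral_add (i (by fun_prop)) (i (by fun_prop)),
    intervalIntegral.integral_add (i (by fun_prop)) (i (by fun_prop)),
    intervalIntegral.integral_add (i (by fun_prop)) (i (by fun_prop))]
  simp only [intervalIntegral.integral_const_mul, integral_pow, intervalIntegral.integral_const]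
  norm_num
  ring

lemma lower3 (hk : 3 ≤ k) (hb : k * b = π) (hM : 0 < M)
    (hg : ∀ r ∈ Icc (0 : ℝ) 1, -M ≤ g r ∧ g r ≤ 0) {η t B : ℝ} (h1 : 4 * M ≤ η) (h2 : η ≤ 1 / 100)
    (h3 : b ^ 2 ≤ η * M) (h4 : b ^ 4 ≤ η * M ^ 3) (t0 : 0 ≤ t) (t1 : t ≤ 1)
    (hB : b ^ 2 = 3 * M ^ 2 * B) (hB' : B = t ^ 2 ∨ (t = 1 ∧ 1 ≤ B)) :
    π * (1 - M + M ^ 2 / 2 - (1 / 6 + t ^ 2 / 2 - 5 * t ^ 3 / 12 + 28 * η) * M ^ 3) ≤
      resistance (bottom k α g) := by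
  obtain ⟨b0, b1, -⟩ := b_bd hk hb
  have p0 := pi_pos
  obtain ⟨q, ρ, f1, f2, f3, f4⟩ := face (c := cos b) (by
    have := cos_lt_cos_of_nonneg_of_le_pi le_rfl (show b ≤ π by linarith) b0
    rwa [cos_zero] at this) hg
  have H : Face k M b g q ρ := ⟨hk, hb, hM, hg, f1, f2, f3, f4⟩
  obtain ⟨σ, hσ⟩ : ∃ σ, σ = (1 - ρ * cos b) / M := ⟨_, rfl⟩
  have σ0 : 0 ≤ σ := hσ ▸ div_nonneg (by nlinarith [f2.1, f2.2, cos_le_one b]) hM.le
  let G : ℝ → ℝ := fun s => 3 * (t * s) * min (t * s) σ - 3 * min (t * s) σ ^ 2 / 2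
  have cG : Continuous G := by fun_prop
  have i : ∀ {f : ℝ → ℝ}, Continuous f → IntervalIntegrable f volume 0 1 := fun h =>
    h.intervalIntegrable _ _
  have sq : ∀ c : ℝ, ∫ s in (0 : ℝ)..1, c * s ^ 2 = c / 3 := fun c => by
    rw [intervalIntegral.integral_const_mul, integral_pow]; norm_num; ring
  have G1 := intervalIntegral.integral_mono_on zero_le_one (i cG)
    (i (f := fun s => 3 * t ^ 2 / 2 * s ^ 2) (by fun_prop)) fun s _ => by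
      simp only [G]; linarith [sq_nonneg (t * s - min (t * s) σ)]
  have G2 := intervalIntegral.integral_mono_on zero_le_one
    (i (f := fun s => 3 * min t σ ^ 2 / 2 * s ^ 2) (by fun_prop)) (i cG) fun s hs => by
      have m0 : 0 ≤ min t σ := le_min t0 σ0
      have a1 : min t σ * s ≤ min (t * s) σ :=
        le_min (mul_le_mul_of_nonneg_right (min_le_left _ _) hs.1)
          ((mul_le_of_le_one_right m0 hs.2).trans (min_le_right _ _))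
      have a0 := mul_nonneg m0 hs.1
      have a2 := pow_le_pow_left₀ a0 a1 2
      have a3 := mul_le_mul_of_nonneg_right (min_le_left (t * s) σ) (a0.trans a1)
      simp only [G]; linarith
  have G3 := intervalIntegral.integral_mono_on zero_le_one (i cG)
    (i (f := fun _ => 3 * σ) (by fun_prop)) fun s hs => by
      have a0 := mul_nonneg t0 hs.1
      have a1 : t * s * min (t * s) σ ≤ 1 * σ :=
        mul_le_mul (mul_le_one₀ t1 hs.1 hs.2) (min_le_right _ _) (le_min a0 σ0) zero_le_one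
      simp only [G]; linarith [sq_nonneg (min (t * s) σ)]
  rw [sq] at G1 G2
  rw [intervalIntegral.integral_const, sub_zero, one_smul] at G3
  have ip := fun c0 c2 c3 c => int_poly c0 c2 c3 c cG
  generalize ∫ s in (0 : ℝ)..1, G s = I at *
  obtain ⟨x, x0, hx⟩ : ∃ x, 0 ≤ x ∧ x ^ 2 = 2 * I :=
    ⟨√(2 * I), sqrt_nonneg _, sq_sqrt (by linarith [sq_nonneg (min t σ)])⟩
  have x1 : x ≤ t := abs_le_of_sq_le_sq' (by linarith) t0 |>.2
  have x2 : min t σ ≤ x := abs_le_of_sq_le_sq' (by linarith) x0 |>.2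
  obtain ⟨θ, hθ⟩ : ∃ θ, (q ≤ 1 ∧ θ = 1) ∨ (1 ≤ q ∧ θ = 1 - M) :=
    (le_total q 1).elim (fun h => ⟨_, Or.inl ⟨h, rfl⟩⟩) fun h => ⟨_, Or.inr ⟨h, rfl⟩⟩
  let p : ℝ → ℝ := fun s => M / 2 - M ^ 2 / 4 + M ^ 3 / 4 * ((1 - x) ^ 3 / 3 + (1 - x) ^ 2 * x) +
    (q - 1) * θ * (M ^ 2 / 2) * (x ^ 2 / 2) + 14 * (η * M ^ 3) +
    M * b ^ 2 / 2 * (1 - (1 - x) / 2) * s ^ 2 + 3 / 4 * (M ^ 3 * t ^ 3 - M * b ^ 2 * t) * s ^ 3 +
    (M ^ 3 / 2 * (1 - x) - (q - 1) * θ * (M ^ 2 / 2)) * G s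
  have key := fun (i : ℤ) (β : ℝ) (hβ : |β| ≤ b) => H.ray3 (α := α) i (x := x) (y := t * (|β| / b))
    (θ := θ) (B := p (|β| / b)) hβ h1 h2 h3 h4 (by positivity)
    (mul_le_one₀ t1 (by positivity) ((div_le_one b0).2 hβ)) (by
      have s0 : 0 ≤ |β| / b := by positivity
      have s1 := (div_le_one b0).2 hβ
      rw [show β ^ 2 = b ^ 2 * (|β| / b) ^ 2 by rw [div_pow, sq_abs]; field_simp]
      generalize |β| / b = s at *
      rcases hB' with h | h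
      · have a0 := mul_nonneg hM.le (mul_nonneg t0 s0)
        have a1 : M * (t * s) ≤ M * 1 := by gcongr; exact mul_le_one₀ t1 s0 s1
        rw [hB, h]
        nlinarith
      · have a1 : b ^ 2 * s ^ 2 ≤ η * M * s := mul_le_mul h3 (by nlinarith) (by positivity)
          (by linarith [sq_nonneg b])
        have a0 := mul_nonneg hM.le s0
        rw [h.1]
        nlinarith) rfl
    (le_trans (hσ ▸ min_le_min_right _ (mul_le_of_le_one_right t0 ((div_le_one b0).2 hβ))) x2)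
    (x1.trans t1) (by rw [← hσ]; linarith) hθ (by
      rw [← hσ, show β ^ 2 = b ^ 2 * (|β| / b) ^ 2 by rw [div_pow, sq_abs]; field_simp]
      simp only [p, G]; ring)
  have P0 : ∀ s ∈ Icc (0 : ℝ) 1, 0 ≤ p s := fun s hs => by
    have a : |b * s| = b * s := abs_of_nonneg (mul_nonneg b0.le hs.1)
    have := (key 0 (b * s) (a.trans_le (mul_le_of_le_one_right b0.le hs.2))).1
    rwa [a, mul_div_cancel_left₀ _ b0.ne'] at this
  have main := avg hk hb α (p := p) (H := fun φ => ∫⁻ r in Ioo (0 : ℝ) 1, ENNReal.ofReal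
    (r * (1 - 1 / (1 + ‖fderiv ℝ (bottom k α g) (r • nu φ)‖ ^ 2)))) (by fun_prop) P0
    fun i β hβ => (key i β hβ).2
  have I0 := intervalIntegral.integral_nonneg zero_le_one P0 (μ := volume)
  obtain ⟨e, hi⟩ := resistance_eq (bottom k α g)
  rw [← polInt (F := fun x => 1 - 1 / (1 + ‖fderiv ℝ (bottom k α g) x‖ ^ 2))
    ((((measurable_fderiv ℝ _).norm.pow_const 2).const_add 1 |>.const_div 1).const_sub 1)
    (fun x => by
      rw [sub_nonneg, div_le_one (by positivity)]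
      exact le_add_of_nonneg_right (sq_nonneg _))
    ((ic 1).sub hi), ENNReal.ofReal_le_ofReal_iff (by positivity), ip] at main
  have fin : B * (2 - (1 - x) - 9 / 4 * t) + 1 / 3 - x ^ 3 / 3 + 3 / 4 * t ^ 3 ≤
      1 / 3 + t ^ 2 - 5 / 6 * t ^ 3 := by
    have a := mul_nonneg (sq_nonneg (t - x)) (show 0 ≤ 2 * t + x by linarith)
    rcases hB' with h | ⟨rfl, h⟩
    · rw [h]; linarith
    · nlinarith
  have := mul_le_mul_of_nonneg_left fin (show 0 ≤ π * M ^ 3 / 2 by positivity)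
  rw [show I = x ^ 2 / 2 by linarith, hB] at main
  rw [e]
  linarith

end Pool.Agent.Lib.MP_b93bad_an
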