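import Pool.Agent.Lib.MP_b93bad_an.V1

/-! The geometry of the asymptotically optimal dihedral body. -/

namespace Pool.Agent.Lib.MP_b93bad_an

open MeasureTheory Set Metric Real

lemma slope_le' {v : E → ℝ} {x : E} (hx : x ∈ ball (0 : E) 1) (hd : DifferentiableAt ℝ v x)
    {σ θ c : ℝ} (h1 : v x ≤ σ * lo θ x + c)
    (h2 : ∀ y ∈ closedBall (0 : E) 1, σ * lo θ y + c ≤ v y) : σ ≤ ‖fderiv ℝ v x‖ := by
  have a : HasDerivAt (fun t : ℝ => v (x + t • nu θ) - σ * t) (fderiv ℝ v x (nu θ) - σ) 0 := by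
    have b := HasFDerivAt.comp_hasDerivAt (0 : ℝ) (l := v) (f := fun t : ℝ => x + t • nu θ)
      (by simpa using hd.hasFDerivAt) (((hasDerivAt_id' (0 : ℝ)).smul_const (nu θ)).const_add x)
    rw [one_smul] at b
    simpa using b.fun_sub ((hasDerivAt_id' (0 : ℝ)).const_mul σ)
  have ev : ∀ᶠ t : ℝ in nhds 0, x + t • nu θ ∈ ball (0 : E) 1 :=
    (show Continuous fun t : ℝ => x + t • nu θ by fun_prop).continuousAt.preimage_mem_nhds
      (isOpen_ball.mem_nhds (by simpa using hx))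
  have m : IsLocalMin (fun t : ℝ => v (x + t • nu θ) - σ * t) 0 := by
    filter_upwards [ev] with t ht
    have b := h2 _ (ball_subset_closedBall ht)
    have e := lo_lin θ 1 t x (nu θ)
    have e' := lo_ray θ θ 1
    rw [one_smul, sub_self, cos_zero] at e'
    rw [one_smul, e'] at e
    rw [e] at b
    simp only [zero_smul, add_zero, mul_zero, sub_zero]
    linarith
  have e := m.hasDerivAt_eq_zero a
  have b := (fderiv ℝ v x).le_opNorm (nu θ)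
  rw [norm_nu, mul_one, norm_eq_abs] at b
  linarith [le_abs_self (fderiv ℝ v x (nu θ))]

lemma ae_diff {u : E → ℝ} {M : ℝ} (hu : ConvexOn ℝ (closedBall (0 : E) 1) u)
    (hb : ∀ x ∈ closedBall (0 : E) 1, -M ≤ u x ∧ u x ≤ 0) :
    ∀ᵐ x ∂(volume.restrict (ball (0 : E) 1)), DifferentiableAt ℝ u x := by
  have h : ∀ n : ℕ, ∀ᵐ x : E, x ∈ ball (0 : E) (1 - 1 / (n + 1)) →
      DifferentiableWithinAt ℝ u (ball (0 : E) (1 - 1 / (n + 1))) x := fun n =>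
    ((hu.subset ball_subset_closedBall (convex_ball _ _)).lipschitzOnWith_of_abs_le (M := M)
      Nat.one_div_pos_of_nat fun a ha => by
        obtain ⟨a1, a2⟩ := hb a (le_of_lt ha)
        exact abs_le.2 ⟨a1, by linarith⟩).ae_differentiableWithinAt_of_mem
  rw [ae_restrict_iff' measurableSet_ball]
  filter_upwards [ae_all_iff.2 h] with x hx m
  obtain ⟨n, hn⟩ := exists_nat_one_div_lt (sub_pos.2 (mem_ball.1 m))
  have m' : x ∈ ball (0 : E) (1 - 1 / (n + 1)) := mem_ball.2 (by linarith)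
  exact (hx n m').differentiableAt (isOpen_ball.mem_nhds m')

lemma supl {S : Set (ℝ × ℝ)} (h0 : S.Nonempty) (h1 : ∀ p ∈ S, ∀ r ∈ Icc (0 : ℝ) 1, p.1 + r * p.2 ≤ 0) :
    ∃ g : ℝ → ℝ, ConvexOn ℝ (Icc 0 1) g ∧ (∀ p ∈ S, ∀ r ∈ Icc (0 : ℝ) 1, p.1 + r * p.2 ≤ g r) ∧
      ∀ r c, (∀ p ∈ S, p.1 + r * p.2 ≤ c) → g r ≤ c := by
  have a : ∀ p ∈ S, ∀ r ∈ Icc (0 : ℝ) 1, p.1 + r * p.2 ≤ sSup ((fun p => p.1 + r * p.2) '' S) :=
    fun p hp r hr => le_csSup ⟨0, by rintro _ ⟨p, hp, rfl⟩; exact h1 p hp r hr⟩ ⟨p, hp, rfl⟩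
  have b : ∀ r c, (∀ p ∈ S, p.1 + r * p.2 ≤ c) → sSup ((fun p => p.1 + r * p.2) '' S) ≤ c :=
    fun r c h => csSup_le (h0.image _) (by rintro _ ⟨p, hp, rfl⟩; exact h p hp)
  refine ⟨fun r => sSup ((fun p => p.1 + r * p.2) '' S), ⟨convex_Icc _ _,
    fun x hx y hy s t hs ht hst => b _ _ fun p hp => ?_⟩, a, b⟩
  have := mul_le_mul_of_nonneg_left (a p hp x hx) hs
  have := mul_le_mul_of_nonneg_left (a p hp y hy) ht
  have : s * p.1 + t * p.1 = p.1 := by rw [← add_mul, hst, one_mul]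
  simp only [smul_eq_mul]
  linarith

/-- the height of a ruling plane on the ridge -/
noncomputable def fA (κ b r ψ : ℝ) : ℝ := (1 + κ * (b - ψ)) * (r * cos ψ - 1)

/-- the contact condition -/
noncomputable def fB (κ b ψ : ℝ) : ℝ := κ * cos ψ + (1 + κ * (b - ψ)) * sin ψ

lemma mvt {f f' : ℝ → ℝ} (h : ∀ x, HasDerivAt f (f' x) x) {a b : ℝ} (hab : a ≤ b)
    (h0 : ∀ x ∈ Icc a b, 0 ≤ f' x) : f a ≤ f b := by
  rcases hab.eq_or_lt with rfl | hab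
  · exact le_rfl
  obtain ⟨c, hc, e⟩ := exists_hasDerivAt_eq_slope f f' hab
    (fun x _ => (h x).continuousAt.continuousWithinAt) fun x _ => h x
  have := h0 c (Ioo_subset_Icc_self hc)
  rw [e, le_div_iff₀ (sub_pos.2 hab)] at this
  linarith

/-- the parameters of the body -/
structure Par (k : ℕ) (M b κ q h n : ℝ) : Prop where
  hk : 3 ≤ k
  hb : k * b = π
  M1 : M ≤ 1 / 200
  κ0 : 0 < κ
  κ2 : κ ^ 2 = 3
  κh : κ * h = b
  h0 : 0 < h
  h1 : h ≤ M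
  q1 : 1 ≤ q
  n0 : 0 ≤ n
  n1 : n ≤ M
  qn : q * (h + n) - n ^ 2 / 2 ≤ M

variable {k : ℕ} {α M b κ q h n : ℝ}

namespace Par

variable (H : Par k M b κ q h n)
include H

lemma κ1 : κ ≤ 2 := by nlinarith [H.κ2, H.κ0]

lemma b0 : 0 < b := H.κh ▸ mul_pos H.κ0 H.h0

lemma b1 : b ≤ 1 / 100 := by nlinarith [H.κ1, H.κh, H.h0, H.h1, H.M1]

lemma R1 {ψ : ℝ} (hψ : ψ ≤ b) : 1 ≤ 1 + κ * (b - ψ) :=
  le_add_of_nonneg_right (mul_nonneg H.κ0.le (sub_nonneg.2 hψ))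

lemma Bmono {x y : ℝ} (h0 : 0 ≤ x) (h1 : x ≤ y) (h2 : y ≤ b) : fB κ b x ≤ fB κ b y := by
  refine mvt (f := fB κ b) (f' := fun ψ => (1 + κ * (b - ψ)) * cos ψ - 2 * κ * sin ψ)
    (fun ψ => (((hasDerivAt_cos ψ).const_mul κ).fun_add
      (((((hasDerivAt_id' ψ).const_sub b).const_mul κ).const_add 1).fun_mul
        (hasDerivAt_sin ψ))).congr_deriv (by ring)) h1 fun ψ hψ => ?_
  have a0 := h0.trans hψ.1
  have a1 := (hψ.2.trans h2).trans H.b1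
  have a2 := sin_le a0
  have a3 : 1 / 2 ≤ cos ψ := by nlinarith [one_sub_sq_div_two_le_cos (x := ψ)]
  have a4 := mul_le_mul_of_nonneg_right (H.R1 (hψ.2.trans h2)) (show 0 ≤ cos ψ by linarith)
  have a5 : κ * sin ψ ≤ 2 * (1 / 100) :=
    (mul_le_mul_of_nonneg_left (a2.trans a1) H.κ0.le).trans (by linarith [H.κ1])
  linarith

lemma Bge {x : ℝ} (h0 : 0 ≤ x) (h2 : x ≤ b) : κ ≤ fB κ b x := by
  simpa [fB] using H.Bmono le_rfl h0 h2

lemma Amax {r x y : ℝ} (r0 : 0 ≤ r) (hx : x ∈ Icc 0 b) (hy : y ∈ Icc 0 b)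
    (hB : r * fB κ b y = κ ∨ (y = b ∧ r * fB κ b b ≤ κ)) : fA κ b r x ≤ fA κ b r y := by
  have d : ∀ ψ, HasDerivAt (fA κ b r) (κ - r * fB κ b ψ) ψ := fun ψ =>
    (((((hasDerivAt_id' ψ).const_sub b).const_mul κ).const_add 1).fun_mul
      (((hasDerivAt_cos ψ).const_mul r).sub_const 1)).congr_deriv (by simp only [fB]; ring)
  rcases le_or_gt x y with h | h
  · refine mvt d h fun ψ hψ => ?_
    have := mul_le_mul_of_nonneg_left (H.Bmono (hx.1.trans hψ.1) hψ.2 hy.2) r0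
    rcases hB with e | ⟨rfl, e⟩ <;> linarith
  · refine neg_le_neg_iff.1 (mvt (fun ψ => (d ψ).fun_neg) h.le fun ψ hψ => ?_)
    have := mul_le_mul_of_nonneg_left (H.Bmono hy.1 hψ.1 (hψ.2.trans hx.2)) r0
    rcases hB with e | ⟨rfl, e⟩
    · linarith
    · exact absurd hx.2 (not_le.2 h)

end Par

/-- the profile -/
structure Prof (M b κ q h n : ℝ) (g : ℝ → ℝ) : Prop where
  bd : ∀ r ∈ Icc (0 : ℝ) 1, -M ≤ g r ∧ g r ≤ 0
  l1 : ∀ δ ∈ Icc 0 n, ∀ r ∈ Icc (0 : ℝ) 1,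
    -q * h - δ ^ 2 / 2 - (q - δ) * (1 - h) + r * ((q - δ) * cos b) ≤ g r
  l2 : ∀ ψ ∈ Icc 0 b, ∀ r ∈ Icc (0 : ℝ) 1, q * fA κ b r ψ ≤ g r
  u1 : ∀ δ ∈ Icc 0 n, ∀ r ∈ Icc (0 : ℝ) 1, r * cos b = 1 - h - δ →
    g r ≤ -q * h - q * δ + δ ^ 2 / 2
  u2 : ∀ ψ ∈ Icc 0 b, ∀ r ∈ Icc (0 : ℝ) 1, 1 - h ≤ r * cos b →
    (r * fB κ b ψ = κ ∨ (ψ = b ∧ r * fB κ b b ≤ κ)) → g r ≤ q * fA κ b r ψ

lemma Par.exg (H : Par k M b κ q h n) : ∃ g : ℝ → ℝ, ConvexOn ℝ (Icc 0 1) g ∧ g 0 = -M ∧ g 1 = 0 ∧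
    Prof M b κ q h n g := by
  have b0 := H.b0
  have q1 := H.q1
  have h0 := H.h0
  have h1 := H.h1
  have M1 := H.M1
  have n1 := H.n1
  have c1 := cos_le_one b
  have A0 : ∀ ψ ∈ Icc 0 b, ∀ r ∈ Icc (0 : ℝ) 1, q * fA κ b r ψ ≤ 0 := fun ψ hψ r hr =>
    mul_nonpos_of_nonneg_of_nonpos (by linarith) (mul_nonpos_of_nonneg_of_nonpos
      (by linarith [H.R1 hψ.2]) (by nlinarith [cos_le_one ψ, hr.1, hr.2]))
  obtain ⟨g, g1, g2, g3⟩ := supl (S := {p | p = (-M, 0) ∨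
    (∃ δ ∈ Icc 0 n, p = (-q * h - δ ^ 2 / 2 - (q - δ) * (1 - h), (q - δ) * cos b)) ∨
    ∃ ψ ∈ Icc 0 b, p = (-(q * (1 + κ * (b - ψ))), q * (1 + κ * (b - ψ)) * cos ψ)})
    ⟨_, Or.inl rfl⟩ (by
      rintro _ (rfl | ⟨δ, hδ, rfl⟩ | ⟨ψ, hψ, rfl⟩) r hr
      · simp only; linarith
      · have a : r * cos b ≤ 1 := by nlinarith [hr.1, hr.2]
        have := mul_le_mul_of_nonneg_left a (show 0 ≤ q - δ by linarith [hδ.2])
        simp only; linarith [sq_nonneg δ, mul_nonneg hδ.1 h0.le]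
      · have := A0 ψ hψ r hr
        simp only [fA] at this ⊢; linarith)
  have l0 : ∀ r ∈ Icc (0 : ℝ) 1, -M ≤ g r := fun r hr => by simpa using g2 _ (Or.inl rfl) r hr
  have l2 : ∀ ψ ∈ Icc 0 b, ∀ r ∈ Icc (0 : ℝ) 1, q * fA κ b r ψ ≤ g r := fun ψ hψ r hr =>
    le_trans (le_of_eq (by simp only [fA]; ring)) (g2 _ (Or.inr (Or.inr ⟨ψ, hψ, rfl⟩)) r hr)
  have up : ∀ r c, -M ≤ c → (∀ δ ∈ Icc 0 n,
      -q * h - δ ^ 2 / 2 - (q - δ) * (1 - h) + r * ((q - δ) * cos b) ≤ c) →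
      (∀ ψ ∈ Icc 0 b, q * fA κ b r ψ ≤ c) → g r ≤ c := fun r c a1 a2 a3 => g3 r c (by
    rintro _ (rfl | ⟨δ, hδ, rfl⟩ | ⟨ψ, hψ, rfl⟩)
    · simpa using a1
    · exact a2 δ hδ
    · exact le_trans (le_of_eq (by simp only [fA]; ring)) (a3 ψ hψ))
  have u0 : ∀ r ∈ Icc (0 : ℝ) 1, g r ≤ 0 := fun r hr => up r 0 (by linarith) (fun δ hδ => by
    have a : r * cos b ≤ 1 := by nlinarith [hr.1, hr.2]
    have := mul_le_mul_of_nonneg_left a (show 0 ≤ q - δ by linarith [hδ.2])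
    linarith [sq_nonneg δ, mul_nonneg hδ.1 h0.le]) fun ψ hψ => A0 ψ hψ r hr
  have bb : b ∈ Icc 0 b := ⟨b0.le, le_rfl⟩
  have qn : ∀ δ ∈ Icc 0 n, -M ≤ -q * h - q * δ + δ ^ 2 / 2 := fun δ hδ => by
    have := mul_nonneg (sub_nonneg.2 hδ.2) (show 0 ≤ q - (n + δ) / 2 by linarith [hδ.2])
    linarith [H.qn]
  refine ⟨g, g1, le_antisymm (up 0 _ le_rfl (fun δ hδ => ?_) fun ψ hψ => ?_)
    (l0 0 ⟨le_rfl, zero_le_one⟩), le_antisymm (u0 1 ⟨zero_le_one, le_rfl⟩) ?_,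
    fun r hr => ⟨l0 r hr, u0 r hr⟩, fun δ hδ r hr => g2 _ (Or.inr (Or.inl ⟨δ, hδ, rfl⟩)) r hr, l2,
    fun δ hδ r hr e => up r _ (qn δ hδ) (fun ε _ => ?_) fun ψ hψ => ?_,
    fun ψ hψ r hr e hB => ?_⟩
  · linarith [sq_nonneg δ, mul_nonneg hδ.1 h0.le, hδ.2]
  · have := mul_le_mul q1 (H.R1 hψ.2) zero_le_one (by linarith)
    simp only [fA]; linarith
  · simpa [fA] using l2 0 ⟨le_rfl, b0.le⟩ 1 ⟨zero_le_one, le_rfl⟩
  · rw [mul_left_comm, e]
    linarith [sq_nonneg (δ - ε)]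
  · have a : r * sin b ≤ b := (mul_le_of_le_one_left (sin_nonneg_of_nonneg_of_le_pi b0.le
      (by linarith [H.b1, pi_gt_three])) hr.2).trans (sin_le b0.le)
    have := mul_le_mul_of_nonneg_left (H.Amax hr.1 hψ bb (Or.inr ⟨rfl, by
      have : κ * (r * cos b) = κ * (1 - h - δ) := by rw [e]
      simp only [fB]; linarith [H.κh, mul_nonneg H.κ0.le hδ.1]⟩)) (show 0 ≤ q by linarith)
    refine this.trans ?_
    simp only [fA]
    rw [e]
    linarith [sq_nonneg δ]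
  · have A := fun x hx => mul_le_mul_of_nonneg_left (H.Amax (x := x) hr.1 hx hψ hB)
      (show 0 ≤ q by linarith)
    have a : q * (r * cos b - 1) ≤ q * fA κ b r ψ := by simpa [fA] using A b bb
    have a' := mul_le_mul_of_nonneg_left e (show 0 ≤ q by linarith)
    refine up r _ (by linarith [qn 0 ⟨le_rfl, H.n0⟩]) (fun δ hδ => ?_) A
    linarith [sq_nonneg δ, mul_le_mul_of_nonneg_left e hδ.1]

variable {g : ℝ → ℝ}

lemma rim (ω : ℝ) : (nu ω, (0 : ℝ)) ∈ convexHull ℝ (frame k α g) :=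
  subset_convexHull ℝ _ (Or.inl ⟨norm_nu ω, rfl⟩)

lemma tri_mem (hb : k * b = π) (i : ℤ) {r' μ r β : ℝ} (hr : r' ∈ Icc (0 : ℝ) 1)
    (hμ : μ ∈ Icc (0 : ℝ) 1) (h1 : r * cos β = μ * (r' * cos b) + (1 - μ))
    (h2 : |r * sin β| ≤ μ * (r' * sin b)) :
    (r • nu (α + 2 * i * b + b + β), μ * g r') ∈ convexHull ℝ (frame k α g) := by
  have m : r * sin β ∈ segment ℝ (-(μ * (r' * sin b))) (μ * (r' * sin b)) := by
    rw [segment_eq_Icc (by linarith [abs_nonneg (r * sin β)])]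
    exact abs_le.1 h2
  obtain ⟨s, t, hs, ht, hst, e⟩ := m
  have c := convex_convexHull ℝ (frame k α g)
  have := c (c (ridge (α := α) (g := g) hb i hr) (ridge hb (i + 1) hr) hs ht hst)
    (rim (α + 2 * i * b + b)) hμ.1 (sub_nonneg.2 hμ.2) (add_sub_cancel _ _)
  rw [show α + 2 * i * b = α + 2 * i * b + b - b by ring,
    show α + 2 * (i + 1 : ℤ) * b = α + 2 * i * b + b + b by push_cast; ring, sub_add_cancel] at this
  generalize α + 2 * i * b + b = φ at *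
  obtain rfl : s = 1 - t := by linarith
  simp only [smul_eq_mul] at e
  convert this using 1
  ext j
  · fin_cases j <;> simp [nu, cos_add, sin_add, cos_sub, sin_sub]
    · linear_combination cos φ * h1 + sin φ * e
    · linear_combination sin φ * h1 - cos φ * e
  · simp only [Prod.snd_add, Prod.smul_snd, smul_eq_mul]; ring

lemma seg_mem (hb : k * b = π) (j : ℤ) {r' μ r X ψ : ℝ} (hr : r' ∈ Icc (0 : ℝ) 1)
    (hμ : μ ∈ Icc (0 : ℝ) 1) (h1 : r * cos X = μ * r' + (1 - μ) * cos ψ)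
    (h2 : r * sin X = (1 - μ) * sin ψ) :
    (r • nu (α + 2 * j * b + X), μ * g r') ∈ convexHull ℝ (frame k α g) := by
  have := convex_convexHull ℝ (frame k α g) (ridge (α := α) (g := g) hb j hr)
    (rim (α + 2 * j * b + ψ)) hμ.1 (sub_nonneg.2 hμ.2) (add_sub_cancel _ _)
  generalize α + 2 * j * b = φ at *
  convert this using 1
  ext j
  · fin_cases j <;> simp [nu, cos_add, sin_add]
    · linear_combination cos φ * h1 - sin φ * h2
    · linear_combination sin φ * h1 + cos φ * h2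
  · simp

lemma tan_le {b β : ℝ} (hβ : |β| ≤ b) (b1 : b ≤ π) : |sin β| * cos b ≤ cos β * sin b := by
  have := sin_nonneg_of_nonneg_of_le_pi (sub_nonneg.2 hβ) (by linarith [abs_nonneg β])
  rw [sin_sub, cos_abs] at this
  rw [abs_sin_eq_sin_abs_of_abs_le_pi (hβ.trans b1)]
  linarith

namespace Par

variable (H : Par k M b κ q h n) (P : Prof M b κ q h n g)
include H

lemma ch : 1 - h ≤ cos b := by
  have := one_sub_sq_div_two_le_cos (x := b)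
  have e : b ^ 2 = 3 * h ^ 2 := by rw [← H.κh, mul_pow, H.κ2]
  nlinarith [H.h0, H.h1, H.M1]

include P

lemma touch1 (i : ℤ) {β r δ : ℝ} (hβ : |β| ≤ b) (hr : r ∈ Ioo (0 : ℝ) 1) (hδ : δ ∈ Icc 0 n)
    (e : r * cos β = 1 - h - δ)
    (hd : DifferentiableAt ℝ (bottom k α g) (r • nu (α + 2 * i * b + b + β))) :
    q - δ ≤ ‖fderiv ℝ (bottom k α g) (r • nu (α + 2 * i * b + b + β))‖ := by
  obtain ⟨c0, c1⟩ := c_bd H.hk H.hb hβ
  have m : r * cos β / cos b ∈ Icc (0 : ℝ) 1 := ⟨div_nonneg (mul_nonneg hr.1.le (c0.le.trans c1))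
    c0.le, (div_le_one c0).2 (by linarith [H.ch, hδ.1])⟩
  have e' := div_mul_cancel₀ (r * cos β) c0.ne'
  have a := bottom_le (H.h0.trans_le H.h1) P.bd (tri_mem (α := α) (g := g) (r := r) (β := β) H.hb i m
    ⟨zero_le_one, le_rfl⟩ (by linarith) (by
      rw [abs_mul, abs_of_pos hr.1, one_mul, div_mul_eq_mul_div, le_div_iff₀ c0, mul_assoc, mul_assoc]
      exact mul_le_mul_of_nonneg_left (tan_le hβ (by linarith [H.b1, pi_gt_three])) hr.1.le))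
  refine slope_le' (by rw [mem_ball_zero_iff, norm_ray _ hr.1.le]; exact hr.2) hd ?_
    fun y hy => plane (α := α) H.hb i (abs_of_pos H.b0).le (by linarith [hδ.2, H.n1, H.M1, H.q1])
      (by linarith [sq_nonneg δ, mul_nonneg hδ.1 H.h0.le]) (P.l1 δ hδ) hy
  have := P.u1 δ hδ _ m (e'.trans e)
  rw [lo_ray, add_sub_cancel_left, e]
  linarith

lemma touchF (i : ℤ) {β r : ℝ} (hβ : |β| ≤ b) (hr : r ∈ Ioo (0 : ℝ) 1) (e : 1 - h ≤ r * cos β)
    (e' : r * |sin β| ≤ κ * (1 - r * cos β))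
    (hd : DifferentiableAt ℝ (bottom k α g) (r • nu (α + 2 * i * b + b + β))) :
    q ≤ ‖fderiv ℝ (bottom k α g) (r • nu (α + 2 * i * b + b + β))‖ := by
  obtain ⟨c0, c1⟩ := c_bd H.hk H.hb hβ
  have bb : b ∈ Icc 0 b := ⟨H.b0.le, le_rfl⟩
  have κ0 := H.κ0
  have B1 := H.Bge bb.1 le_rfl
  have B0 := κ0.trans_le B1
  have q0 : 0 ≤ q := by linarith [H.q1]
  have key : ∀ r' ∈ Icc (0 : ℝ) 1, ∀ μ ∈ Icc (0 : ℝ) 1, r * cos β = μ * (r' * cos b) + (1 - μ) →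
      r * |sin β| ≤ μ * (r' * sin b) → 1 - h ≤ r' * cos b → r' * fB κ b b ≤ κ →
      bottom k α g (r • nu (α + 2 * i * b + b + β)) ≤ q * (r * cos β) + -q :=
    fun r' m μ hμ a1 a2 a3 a4 => by
      have a := bottom_le (H.h0.trans_le H.h1) P.bd (tri_mem (α := α) (g := g) H.hb i m hμ a1
        (by rwa [abs_mul, abs_of_pos hr.1]))
      have := mul_le_mul_of_nonneg_left (P.u2 b bb r' m a3 (Or.inr ⟨rfl, a4⟩)) hμ.1
      simp only [fA] at this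
      rw [a1]
      linarith
  refine slope_le' (by rw [mem_ball_zero_iff, norm_ray _ hr.1.le]; exact hr.2) hd ?_
    fun y hy => plane (α := α) H.hb i (abs_of_pos H.b0).le q0 (c := -q) (by linarith)
      (fun r hr => le_trans (le_of_eq (by simp only [fA]; ring)) (P.l2 b bb r hr)) hy
  rw [lo_ray, add_sub_cancel_left]
  obtain ⟨s, hs⟩ : ∃ s, s * fB κ b b = κ := ⟨_, div_mul_cancel₀ _ B0.ne'⟩
  have s0 : 0 < s := (mul_pos_iff_of_pos_right B0).1 (κ0.trans_eq hs.symm)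
  have s1 : s ≤ 1 := le_of_mul_le_mul_right (by linarith) B0
  have e' := div_mul_cancel₀ (r * cos β) c0.ne'
  rcases le_total (r * cos β / cos b) s with a | a
  · refine key _ ⟨div_nonneg (mul_nonneg hr.1.le (c0.le.trans c1)) c0.le, a.trans s1⟩ 1
      ⟨zero_le_one, le_rfl⟩ (by linarith) ?_ (by linarith)
      ((mul_le_mul_of_nonneg_right a B0.le).trans_eq hs)
    rw [one_mul, div_mul_eq_mul_div, le_div_iff₀ c0, mul_assoc, mul_assoc]
    exact mul_le_mul_of_nonneg_left (tan_le hβ (by linarith [H.b1, pi_gt_three])) hr.1.le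
  · rw [le_div_iff₀ c0] at a
    have t1 : r * cos β < 1 := by nlinarith [cos_le_one β, hr.1, hr.2]
    obtain ⟨μ, hμ⟩ : ∃ μ, μ * (1 - s * cos b) = 1 - r * cos β :=
      ⟨_, div_mul_cancel₀ _ (by linarith)⟩
    have f : κ * (1 - s * cos b) = s * sin b := by simp only [fB] at hs; linarith
    have f' : s * sin b ≤ b := (mul_le_of_le_one_left (sin_nonneg_of_nonneg_of_le_pi bb.1
      (by linarith [H.b1, pi_gt_three])) s1).trans (sin_le bb.1)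
    refine key s ⟨s0.le, s1⟩ μ ⟨nonneg_of_mul_nonneg_left (by linarith) (show 0 < 1 - s * cos b by
      linarith), le_of_mul_le_mul_right (by linarith) (show 0 < 1 - s * cos b by linarith)⟩
      (by linarith) ?_ (le_of_mul_le_mul_left (by linarith [H.κh]) κ0) hs.le
    rw [← f, mul_left_comm, hμ]
    assumption

lemma touchR (j : ℤ) {σ X θ r : ℝ} (hσ : σ = 1 ∨ σ = -1) (X0 : 0 ≤ X) (θ0 : 0 ≤ θ)
    (θ1 : X + θ ≤ b) (hr : r ∈ Ioo (0 : ℝ) 1)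
    (e : κ * (1 - r * cos θ) = (1 + κ * (b - (X + θ))) * (r * sin θ))
    (hd : DifferentiableAt ℝ (bottom k α g) (r • nu (α + 2 * j * b + σ * X))) :
    q * (1 + κ * (b - (X + θ))) ≤ ‖fderiv ℝ (bottom k α g) (r • nu (α + 2 * j * b + σ * X))‖ := by
  have κ0 := H.κ0
  have p3 := pi_gt_three
  have b1 := H.b1
  have cs : ∀ x, cos (σ * x) = cos x ∧ sin (σ * x) = σ * sin x ∧ |σ * x| = |x| := fun x => by
    rcases hσ with rfl | rfl <;> simp
  have θ2 : 0 < θ := θ0.lt_of_ne fun a => by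
    rw [← a] at e
    simp only [cos_zero, sin_zero, mul_one, mul_zero] at e
    linarith [mul_pos κ0 (sub_pos.2 hr.2)]
  obtain ⟨ψ, hψ⟩ : ∃ ψ, ψ = X + θ := ⟨_, rfl⟩
  rw [← hψ] at θ1 e ⊢
  have m : ψ ∈ Icc 0 b := ⟨by linarith, θ1⟩
  have s0 : 0 < sin ψ := sin_pos_of_pos_of_lt_pi (by linarith) (by linarith)
  have s1 : 0 ≤ sin X := sin_nonneg_of_nonneg_of_le_pi X0 (by linarith)
  have s2 : sin X ≤ sin ψ := sin_le_sin_of_le_of_le_pi_div_two (by linarith) (by linarith)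
    (by linarith)
  have s3 : 0 ≤ sin θ := sin_nonneg_of_nonneg_of_le_pi θ0 (by linarith)
  obtain ⟨μ, hμ⟩ : ∃ μ, r * sin X = (1 - μ) * sin ψ := ⟨1 - r * sin X / sin ψ, by field_simp; ring⟩
  have μ0 : 0 < μ := by
    by_contra a
    nlinarith [hr.1, hr.2, not_lt.1 a]
  have μ1 : μ ≤ 1 := by
    by_contra a
    nlinarith [mul_nonneg hr.1.le s1, not_le.1 a]
  obtain ⟨z, hz⟩ : ∃ z, r * cos X = μ * z + (1 - μ) * cos ψ :=
    ⟨(r * cos X - (1 - μ) * cos ψ) / μ, by field_simp; ring⟩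
  have sc := sin_sq_add_cos_sq ψ
  have c1 : r * cos θ = μ * z * cos ψ + (1 - μ) := by
    rw [show θ = ψ - X by linarith, cos_sub]
    linear_combination cos ψ * hz + sin ψ * hμ + (1 - μ) * sc
  have c2 : r * sin θ = μ * z * sin ψ := by
    rw [show θ = ψ - X by linarith, sin_sub]
    linear_combination sin ψ * hz - cos ψ * hμ
  have c3 : z * fB κ b ψ = κ := mul_left_cancel₀ μ0.ne' (by
    rw [c1, c2] at e
    simp only [fB]; linarith)
  have B1 := H.Bge m.1 m.2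
  have B0 := κ0.trans_le B1
  have z0 : 0 < z := (mul_pos_iff_of_pos_right B0).1 (κ0.trans_eq c3.symm)
  have z1 : z ≤ 1 := le_of_mul_le_mul_right (by linarith) B0
  have z2 : 1 - h ≤ z * cos b := by
    have a := mul_le_mul_of_nonneg_left (H.Bmono m.1 m.2 le_rfl) z0.le
    have f' : z * sin b ≤ b := (mul_le_of_le_one_left (sin_nonneg_of_nonneg_of_le_pi H.b0.le
      (by linarith)) z1).trans (sin_le H.b0.le)
    rw [c3] at a
    simp only [fB] at a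
    exact le_of_mul_le_mul_left (by linarith [H.κh]) κ0
  have a := bottom_le (H.h0.trans_le H.h1) P.bd (seg_mem (α := α) (g := g) (r := r) (X := σ * X)
    (ψ := σ * ψ) H.hb j ⟨z0.le, z1⟩ ⟨μ0.le, μ1⟩ (by rw [(cs X).1, (cs ψ).1, hz])
    (by rw [(cs X).2.1, (cs ψ).2.1, mul_left_comm, hμ, mul_left_comm]))
  refine slope_le' (by rw [mem_ball_zero_iff, norm_ray _ hr.1.le]; exact hr.2) hd ?_
    fun y hy => plane (α := α) H.hb j (ψ := σ * ψ) (by rw [(cs ψ).2.2, abs_of_nonneg m.1]; exact θ1)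
      (mul_nonneg (by linarith [H.q1]) (by linarith [H.R1 θ1]))
      (c := -(q * (1 + κ * (b - ψ)))) (by linarith) (fun r hr => le_trans (le_of_eq (by
        simp only [fA, (cs ψ).1]; ring)) (P.l2 ψ m r hr)) hy
  have := mul_le_mul_of_nonneg_left (P.u2 ψ m z ⟨z0.le, z1⟩ z2 (Or.inl c3)) μ0.le
  rw [lo_ray, show α + 2 * j * b + σ * X - (α + 2 * j * b + σ * ψ) = σ * -θ by rw [hψ]; ring,
    (cs _).1, cos_neg, c1]
  simp only [fA] at this
  linarith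

lemma touch2 (i : ℤ) {β r θ : ℝ} (hβ : |β| ≤ b) (hr : r ∈ Ioo (0 : ℝ) 1) (e : 1 - h ≤ r * cos β)
    (θ0 : 0 ≤ θ) (e' : θ ≤ |β| → κ * (1 - r * cos θ) ≤ (1 + κ * (|β| - θ)) * (r * sin θ))
    (hd : DifferentiableAt ℝ (bottom k α g) (r • nu (α + 2 * i * b + b + β))) :
    q ≤ ‖fderiv ℝ (bottom k α g) (r • nu (α + 2 * i * b + b + β))‖ ∧
      q * (1 + κ * (|β| - θ)) ≤ ‖fderiv ℝ (bottom k α g) (r • nu (α + 2 * i * b + b + β))‖ := by
  have κ0 := H.κ0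
  have q0 : 0 ≤ q := by linarith [H.q1]
  have key : ∀ m, 0 ≤ m → m ≤ |β| → m ≤ θ →
      κ * (1 - r * cos m) ≤ (1 + κ * (|β| - m)) * (r * sin m) →
      q ≤ ‖fderiv ℝ (bottom k α g) (r • nu (α + 2 * i * b + b + β))‖ ∧
      q * (1 + κ * (|β| - θ)) ≤ ‖fderiv ℝ (bottom k α g) (r • nu (α + 2 * i * b + b + β))‖ := by
    intro m m0 m1 m2 m3
    obtain ⟨x, hx, ex⟩ := intermediate_value_Icc' m0
      (f := fun x => κ * (1 - r * cos x) - (1 + κ * (|β| - x)) * (r * sin x)) (by fun_prop)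
      (show (0 : ℝ) ∈ _ from ⟨sub_nonpos.2 m3, by simpa using mul_nonneg κ0.le (sub_nonneg.2 hr.2.le)⟩)
    obtain ⟨j, σ, hσ, ej⟩ : ∃ (j : ℤ) (σ : ℝ), (σ = 1 ∨ σ = -1) ∧
        α + 2 * i * b + b + β = α + 2 * j * b + σ * (b - |β|) := by
      rcases le_total 0 β with a | a
      · exact ⟨i + 1, -1, Or.inr rfl, by rw [abs_of_nonneg a]; push_cast; ring⟩
      · exact ⟨i, 1, Or.inl rfl, by rw [abs_of_nonpos a]; ring⟩
    rw [ej] at hd ⊢
    have := H.touchR P j hσ (sub_nonneg.2 hβ) hx.1 (by linarith [hx.2]) hr (by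
      simp only at ex; linarith) hd
    have a1 := mul_nonneg q0 (mul_nonneg κ0.le (show 0 ≤ |β| - x by linarith [hx.2]))
    have a2 := mul_nonneg q0 (mul_nonneg κ0.le (show 0 ≤ θ - x by linarith [hx.2]))
    exact ⟨by linarith, by linarith⟩
  rcases le_total θ |β| with a | a
  · exact key θ θ0 a le_rfl (e' a)
  rcases le_total (κ * (1 - r * cos |β|)) ((1 + κ * (|β| - |β|)) * (r * sin |β|)) with c | c
  · exact key _ (abs_nonneg _) le_rfl a c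
  · rw [sub_self, mul_zero, add_zero, one_mul, cos_abs,
      ← abs_sin_eq_sin_abs_of_abs_le_pi (by linarith [H.b1, pi_gt_three])] at c
    have := H.touchF P i hβ hr e c hd
    exact ⟨this, by linarith [mul_nonneg q0 (mul_nonneg κ0.le (sub_nonneg.2 a))]⟩

end Par

end Pool.Agent.Lib.MP_b93bad_an
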