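import Pool.Agent.Lib.MP_b93bad_an.V4
import Pool.Agent.Lib.MP_b93bad_an.V5

/-! The resistance of the asymptotically optimal dihedral body. -/

namespace Pool.Agent.Lib.MP_b93bad_an

open MeasureTheory Set Metric Real

lemma fl (R : ℝ) : 1 / (1 + R ^ 2) ≤ 1 - (R / 2 - (R - 1) ^ 2 / 4) := by
  rw [div_le_iff₀ (by positivity)]
  nlinarith [sq_nonneg ((R - 1) ^ 2)]

lemma theta {M e Y a : ℝ} (M1 : M ≤ 1 / 200) (e0 : 0 ≤ e) (e1 : e ≤ Y) (Y1 : Y ≤ M)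
    (ha : a = -3 * e * Y + 11 / 2 * e ^ 2 + 70 * M ^ 3) :
    |a| ≤ 6 * M ^ 2 ∧ 0 ≤ e + a ∧ (e + a ≤ Y → e + 3 / 2 * (e + a) ^ 2 ≤
      (1 + 3 * (Y - (e + a))) * ((1 - e) * ((e + a) - (e + a) ^ 3 / 2))) := by
  have Y0 := e0.trans e1
  have M0 := Y0.trans Y1
  have eM := e1.trans Y1
  have a1 : e * Y ≤ M * M := by gcongr
  have a2 : e ^ 2 ≤ M ^ 2 := by gcongr
  have a3 : M ^ 2 * M ≤ M ^ 2 * (1 / 200) := by gcongr
  have a4 : M * M ≤ M * (1 / 200) := by gcongr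
  have a5 : e * Y ≤ e * (1 / 200) := by gcongr; linarith
  have m3 := pow_nonneg M0 3
  have A : |a| ≤ 6 * M ^ 2 :=
    abs_le.2 ⟨by linarith [sq_nonneg e, sq_nonneg M], by linarith [mul_nonneg e0 Y0]⟩
  have B : 0 ≤ e + a := by linarith [sq_nonneg e]
  refine ⟨A, B, fun h => ?_⟩
  have b1 : |3 * Y - 10 * e - 9 / 2 * a| ≤ 11 * M :=
    abs_le.2 ⟨by linarith [(abs_le.1 A).2], by linarith [(abs_le.1 A).1]⟩
  have b2 := (neg_abs_le _).trans' (neg_le_neg ((abs_mul a _).trans_le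
    (mul_le_mul A b1 (abs_nonneg _) (by positivity))))
  obtain ⟨s, hs⟩ : ∃ s, s = e + a := ⟨_, rfl⟩
  rw [← hs] at B h ⊢
  have sM := h.trans Y1
  have b3 : e * ((Y - s) * s) ≤ M * (M * M) := by gcongr; linarith
  have b4 : s ^ 3 * ((1 + 3 * (Y - s)) * (1 - e)) ≤ M ^ 3 * (2 * 1) :=
    mul_le_mul (by gcongr) (by gcongr <;> linarith) (mul_nonneg (by linarith) (by linarith)) m3
  have e2 : (1 + 3 * (Y - s)) * ((1 - e) * (s - s ^ 3 / 2)) - (e + 3 / 2 * s ^ 2) =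
      70 * M ^ 3 + a * (3 * Y - 10 * e - 9 / 2 * a) - 3 * (e * ((Y - s) * s)) -
        s ^ 3 * ((1 + 3 * (Y - s)) * (1 - e)) / 2 := by
    have : 70 * M ^ 3 = a + 3 * e * Y - 11 / 2 * e ^ 2 := by linarith
    rw [this, hs]; ring
  linarith

lemma zone4 {M e Y a p : ℝ} (M1 : M ≤ 1 / 200) (e0 : 0 ≤ e) (e1 : e ≤ Y) (Y1 : Y ≤ M)
    (p0 : 0 ≤ p) (p1 : p ≤ M) (ha : a = -3 * e * Y + 11 / 2 * e ^ 2 + 70 * M ^ 3) {R : ℝ}
    (hR : R = (1 + p) * (1 + 3 * (Y - (e + a)))) : 0 ≤ R ∧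
    3 / 2 * Y - 9 / 4 * Y ^ 2 - 160 * M ^ 3 + (15 / 2 * Y - 3 / 2) * e - 9 * e ^ 2 ≤
      (1 - e) * (R / 2 - (R - 1) ^ 2 / 4 - ((1 + p) / 2 - p ^ 2 / 4)) := by
  obtain ⟨A, -, -⟩ := theta M1 e0 e1 Y1 ha
  obtain ⟨A1, A2⟩ := abs_le.1 A
  have M0 := p0.trans p1
  have eM := e1.trans Y1
  have a4 : M * M ≤ M * (1 / 200) := by gcongr
  obtain ⟨d, hd⟩ : ∃ d, d = 3 * (Y - (e + a)) := ⟨_, rfl⟩
  rw [← hd] at hR
  have d1 : d ≤ 4 * M := by linarith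
  have d2 : -M ≤ d := by linarith
  refine ⟨hR ▸ mul_nonneg (by linarith) (by linarith), ?_⟩
  have b1 : d * ((1 - e) * p ^ 2) ≤ 4 * M * (1 * M ^ 2) :=
    (mul_le_mul_of_nonneg_right d1 (mul_nonneg (by linarith) (sq_nonneg _))).trans (by
      gcongr; linarith)
  have b2 : d ^ 2 * ((1 - e) * (1 + p) ^ 2) ≤ d ^ 2 * (1 + 3 * M) := by
    gcongr
    have : (1 - e) * (1 + p) ^ 2 ≤ 1 * (1 + M) ^ 2 := by gcongr; linarith
    linarith
  have b3 : d ^ 2 * M ≤ (4 * M) ^ 2 * M := by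
    gcongr ?_ * _
    exact sq_le_sq' (by linarith) d1
  have b4 : (Y - e) * -a ≤ M * (6 * M ^ 2) :=
    (mul_le_mul_of_nonneg_left (by linarith) (by linarith)).trans
      (mul_le_mul_of_nonneg_right (by linarith : Y - e ≤ M) (by positivity))
  have b5 : a ^ 2 ≤ (6 * M ^ 2) ^ 2 := sq_le_sq' A1 A2
  have b6 : M ^ 3 * M ≤ M ^ 3 * (1 / 200) := by gcongr
  have b7 : e * -a ≤ M * (6 * M ^ 2) :=
    (mul_le_mul_of_nonneg_left (by linarith) e0).trans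
      (mul_le_mul_of_nonneg_right eM (by positivity))
  have e2 : (1 - e) * (R / 2 - (R - 1) ^ 2 / 4 - ((1 + p) / 2 - p ^ 2 / 4)) =
      (1 - e) * d / 2 - d * ((1 - e) * p ^ 2) / 2 - d ^ 2 * ((1 - e) * (1 + p) ^ 2) / 4 := by
    rw [hR]; ring
  have e3 : (1 - e) * d / 2 - d ^ 2 / 4 = 3 / 2 * (Y - e) * (1 - e) - 3 / 2 * a - 3 / 2 * (e * -a) -
      9 / 4 * (Y - e) ^ 2 - 9 / 2 * ((Y - e) * -a) - 9 / 4 * a ^ 2 := by rw [hd]; ring
  have m3 := pow_nonneg M0 3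
  linarith

variable {k : ℕ} {α M b κ h p n : ℝ} {g : ℝ → ℝ}

lemma Par.rayU (H : Par k M b κ (1 + p) h n) (P : Prof M b κ (1 + p) h n g) (hp : M = p + h)
    (hn : n = p - p * (p + 2 * h) / 2) (i : ℤ) {β Y B : ℝ} (hβ : |β| ≤ b) (Y0 : 0 ≤ Y)
    (hY : |β| = κ * Y) (hB : B = 1 / 2 - M / 2 + M ^ 2 / 4 - (M ^ 3 - h ^ 3) / 12 + 165 * M ^ 4 -
      3 * (p / 4 + h / 2) * Y ^ 2 + 3 / 2 * Y ^ 3) {F : E → ℝ}
    (hF : ∀ x R, 0 ≤ R → (DifferentiableAt ℝ (bottom k α g) x →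
      R ≤ ‖fderiv ℝ (bottom k α g) x‖) → F x ≤ 1 / (1 + R ^ 2)) :
    0 ≤ B ∧ ∫⁻ r in Ioo (0 : ℝ) 1, ENNReal.ofReal (r * F (r • nu (α + 2 * i * b + b + β))) ≤
      ENNReal.ofReal B := by
  obtain ⟨c0, c1⟩ := c_bd H.hk H.hb hβ
  have C0 := c0.trans_le c1
  have C1 := cos_le_one β
  have κ0 := H.κ0
  have h0 := H.h0
  have h1 := H.h1
  have M1 := H.M1
  have n0 := H.n0
  have n1 := H.n1
  have p0 : 0 ≤ p := by linarith
  have p1 : p ≤ M := by linarith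
  have M0 : 0 < M := by linarith
  have Y1 : Y ≤ h := le_of_mul_le_mul_left (by linarith [H.κh]) κ0
  have YM := Y1.trans h1
  have β2 : β ^ 2 = 3 * Y ^ 2 := by rw [← sq_abs, hY, mul_pow, H.κ2]
  have u1 : 1 - 3 / 2 * Y ^ 2 ≤ cos β := by linarith [one_sub_sq_div_two_le_cos (x := β)]
  have YY : Y * Y ≤ Y * (1 / 200) := by gcongr; linarith
  have T1 := fun r δ a1 a2 a3 => H.touch1 (α := α) P i (r := r) (δ := δ) hβ a1 a2 a3
  have T2 := fun r θ a1 a2 a3 a4 => H.touch2 (α := α) P i (r := r) (θ := θ) hβ a1 a2 a3 a4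
  rw [hY] at T2
  generalize α + 2 * i * b + b + β = φ at *
  generalize cos β = C at *
  obtain ⟨ra, ha⟩ : ∃ r, r * C = 1 - h - n := ⟨_, div_mul_cancel₀ _ C0.ne'⟩
  obtain ⟨r0, hr⟩ : ∃ r, r * C = 1 - h := ⟨_, div_mul_cancel₀ _ C0.ne'⟩
  have a0 : 0 ≤ ra := nonneg_of_mul_nonneg_left (by linarith) C0
  have a1 : ra ≤ r0 := le_of_mul_le_mul_right (by linarith) C0
  obtain ⟨e₁, he⟩ : ∃ e, e = Y - 3 / 2 * Y ^ 2 := ⟨_, rfl⟩
  have e0 : 0 ≤ e₁ := by linarith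
  have e1 : e₁ ≤ Y := by linarith [sq_nonneg Y]
  have a2 : r0 ≤ 1 - e₁ := le_of_mul_le_mul_right
    (by linarith [mul_nonneg e0 (sub_nonneg.2 C1)]) C0
  have dδ : ∀ r, HasDerivAt (fun r : ℝ => 1 - h - r * C) (-C) r := fun r => by
    simpa using ((hasDerivAt_id' r).mul_const C).const_sub (1 - h)
  have dr : ∀ r, HasDerivAt (fun r : ℝ => 1 - r) (-1) r := fun r => (hasDerivAt_id' r).const_sub 1
  obtain ⟨i0, j0⟩ := piece (a := 0) (b := 1) (C := 1) (S := fun r => r) (Γ := fun r => r ^ 2 / 2)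
    le_rfl zero_le_one le_rfl (by fun_prop) fun r _ =>
      (((hasDerivAt_id' r).fun_pow 2).div_const 2).congr_deriv (by push_cast; ring)
  obtain ⟨i1, j1⟩ := piece (a := ra) (b := r0) (C := 1)
    (S := fun r => ((1 + p - h) / 2 - h * p / 2 - p ^ 2 / 4 - (1 + h / -2) * (1 - h - r * C) +
      (1 - h - r * C) ^ 2 / 4) / C)
    (Γ := fun r => -(((1 + p - h) / 2 - h * p / 2 - p ^ 2 / 4) * (1 - h - r * C) -
      (1 + h / -2) / 2 * (1 - h - r * C) ^ 2 + 1 / 12 * (1 - h - r * C) ^ 3) / C ^ 2)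
    a0 a1 (by linarith) (by fun_prop) fun r _ =>
      ((((((dδ r).const_mul _).fun_sub (((dδ r).fun_pow 2).const_mul _)).fun_add
        (((dδ r).fun_pow 3).const_mul _)).fun_neg).div_const _).congr_deriv (by
          push_cast; field_simp; ring)
  obtain ⟨i2, j2⟩ := piece (a := r0) (b := 1) (C := 1)
    (S := fun r => r * ((1 + p) / 2 - p ^ 2 / 4)) (Γ := fun r => r ^ 2 * (((1 + p) / 2 - p ^ 2 / 4) / 2))
    (a0.trans a1) (by linarith) le_rfl (by fun_prop) fun r _ =>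
      (((hasDerivAt_id' r).fun_pow 2).mul_const _).congr_deriv (by push_cast; ring)
  obtain ⟨i3, j3⟩ := piece (a := 1 - e₁) (b := 1) (C := 1)
    (S := fun r => 3 / 2 * Y - 9 / 4 * Y ^ 2 - 160 * M ^ 3 + (15 / 2 * Y - 3 / 2) * (1 - r) -
      9 * (1 - r) ^ 2)
    (Γ := fun r => -((3 / 2 * Y - 9 / 4 * Y ^ 2 - 160 * M ^ 3) * (1 - r) +
      (15 / 2 * Y - 3 / 2) / 2 * (1 - r) ^ 2 - 3 * (1 - r) ^ 3))
    (by linarith) (by linarith) le_rfl (by fun_prop) fun r _ =>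
      (((((dr r).const_mul _).fun_add (((dr r).fun_pow 2).const_mul _)).fun_sub
        (((dr r).fun_pow 3).const_mul _)).fun_neg).congr_deriv (by push_cast; ring)
  have iT := ((i0.sub i1).sub i2).sub i3
  have eT := (integral_sub' ((i0.sub i1).sub i2) i3).trans (by
    rw [integral_sub' (i0.sub i1) i2, integral_sub' i0 i1, j0, j1, j2, j3])
  set T : ℝ → ℝ := _ - _ - _ - _ with hT
  have key : ∀ r ∈ Ioo (0 : ℝ) 1, ∃ R, 0 ≤ R ∧ (DifferentiableAt ℝ (bottom k α g) (r • nu φ) →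
      R ≤ ‖fderiv ℝ (bottom k α g) (r • nu φ)‖) ∧ r * (1 / (1 + R ^ 2)) ≤ T r := fun r hr' => by
    simp only [hT, Pi.sub_apply]
    rw [indicator_of_mem (show r ∈ Ioc 0 1 from ⟨hr'.1, hr'.2.le⟩)]
    rcases le_or_gt r ra with a | a
    · rw [indicator_of_notMem fun b => by linarith [b.1],
        indicator_of_notMem fun b => by linarith [b.1],
        indicator_of_notMem fun b => by linarith [b.1]]
      exact ⟨0, le_rfl, fun _ => norm_nonneg _, by simp⟩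
    rcases le_or_gt r r0 with a' | a'
    · rw [indicator_of_mem (show r ∈ Ioc _ _ from ⟨a, a'⟩),
        indicator_of_notMem fun b => by linarith [b.1],
        indicator_of_notMem fun b => by linarith [b.1]]
      have b1 := mul_le_mul_of_nonneg_right a.le C0.le
      have b2 := mul_le_mul_of_nonneg_right a' C0.le
      obtain ⟨δ, hδ⟩ : ∃ δ, δ = 1 - h - r * C := ⟨_, rfl⟩
      rw [← hδ]
      have d0 : 0 ≤ δ := by linarith
      have d1 : δ ≤ n := by linarith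
      refine ⟨1 + p - δ, by linarith, T1 r δ hr' ⟨d0, d1⟩ (by linarith),
        (mul_le_mul_of_nonneg_left (fl _) hr'.1.le).trans ?_⟩
      rw [sub_zero, sub_zero, mul_sub, mul_one, sub_le_sub_iff_left, div_le_iff₀ C0,
        mul_right_comm, show r * C = 1 - h - δ by linarith]
      linarith only [mul_nonneg (add_nonneg h0.le d0) (sq_nonneg (p - δ))]
    rw [indicator_of_notMem fun b => by linarith [b.2],
      indicator_of_mem (show r ∈ Ioc _ _ from ⟨a', hr'.2.le⟩)]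
    have b1 : 1 - h ≤ r * C := by linarith [mul_le_mul_of_nonneg_right a'.le C0.le]
    rcases le_or_gt r (1 - e₁) with c | c
    · rw [indicator_of_notMem fun b => by linarith [b.1]]
      refine ⟨1 + p, by linarith, fun hd => (T2 r (κ * Y + 1) hr' b1 (by positivity)
        (fun a => by linarith) hd).1,
        (mul_le_mul_of_nonneg_left (fl _) hr'.1.le).trans_eq (by ring)⟩
    · rw [indicator_of_mem (show r ∈ Ioc _ _ from ⟨c, hr'.2.le⟩)]
      obtain ⟨e, rfl⟩ : ∃ e, r = 1 - e := ⟨1 - r, by ring⟩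
      have f0 : 0 ≤ e := by linarith [hr'.2]
      have f1 : e ≤ Y := by linarith
      obtain ⟨-, g1, g2⟩ := theta M1 f0 f1 YM rfl
      obtain ⟨g3, g4⟩ := zone4 M1 f0 f1 YM p0 p1 rfl rfl
      generalize -3 * e * Y + 11 / 2 * e ^ 2 + 70 * M ^ 3 = a at *
      generalize e + a = s at *
      have k2 := H.κ2
      refine ⟨_, g3, fun hd => le_trans (le_of_eq ?_) (T2 _ (κ * s) hr' b1 (by positivity)
        (fun a => ?_) hd).2, (mul_le_mul_of_nonneg_left (fl _) hr'.1.le).trans ?_⟩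
      · linear_combination -(1 + p) * (Y - s) * k2
      · have s1 := le_of_mul_le_mul_left a κ0
        have v1 := mul_le_mul_of_nonneg_left (g2 s1) κ0.le
        have v2 := sin_ge_sub_cube (mul_nonneg κ0.le g1)
        have v3 := one_sub_sq_div_two_le_cos (x := κ * s)
        rw [mul_pow, k2] at v3
        rw [show κ * s - (κ * s) ^ 3 / 6 = κ * (s - s ^ 3 / 2) by
          linear_combination -κ * s ^ 3 / 6 * k2] at v2
        rw [show κ * (κ * Y - κ * s) = 3 * (Y - s) by linear_combination (Y - s) * k2]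
        have v4 := mul_le_mul_of_nonneg_left (mul_le_mul_of_nonneg_left v2 hr'.1.le)
          (show 0 ≤ 1 + 3 * (Y - s) by linarith)
        have v5 : 1 - (1 - e) * cos (κ * s) ≤ e + 3 / 2 * s ^ 2 := by
          linarith only [v3, mul_nonneg f0 (sub_nonneg.2 (cos_le_one (κ * s)))]
        linarith only [v1, v4, mul_le_mul_of_nonneg_left v5 κ0.le]
      · rw [sub_sub_cancel]
        linarith only [g4]
  have ae : ∀ᵐ r ∂(volume.restrict (Ioo (0 : ℝ) 1)), r ∈ Ioo (0 : ℝ) 1 :=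
    ae_restrict_mem measurableSet_Ioo
  have T0 : 0 ≤ᵐ[volume.restrict (Ioo (0 : ℝ) 1)] T := by
    filter_upwards [ae] with r hr'
    obtain ⟨R, -, -, a⟩ := key r hr'
    exact le_trans (mul_nonneg hr'.1.le (by positivity)) a
  have fin : ∫ r in Ioo (0 : ℝ) 1, T r ≤ B := by
    rw [← integral_Ioc_eq_integral_Ioo]
    refine eT.trans_le ?_
    rw [ha, hr, show r0 = (1 - h) * C⁻¹ by rw [← hr]; field_simp, div_eq_mul_inv _ (C ^ 2),
      div_eq_mul_inv _ (C ^ 2), ← inv_pow, mul_pow, hB]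
    have j1 : C⁻¹ ^ 2 - 1 ≤ 3 * Y ^ 2 + 9 * Y ^ 4 := by
      have v1 : 1 - C ≤ 1 / 100 := by linarith
      have v0 := sub_nonneg.2 C1
      have v2 : (1 - C) ^ 2 ≤ (3 / 2 * Y ^ 2) ^ 2 := by gcongr; linarith
      have : C⁻¹ ^ 2 ≤ 1 + 2 * (1 - C) + 4 * (1 - C) ^ 2 := by
        rw [inv_pow, inv_eq_one_div, div_le_iff₀ (by positivity)]
        linarith only [mul_le_mul_of_nonneg_left v1 (sq_nonneg (1 - C)), sq_nonneg (1 - C),
          sq_nonneg ((1 - C) ^ 2)]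
      linarith only [this, v2, u1]
    have j0 : 0 ≤ C⁻¹ ^ 2 - 1 := sub_nonneg.2 (one_le_pow₀ ((one_le_inv₀ C0).2 C1))
    generalize C⁻¹ ^ 2 = j at *
    obtain ⟨ν, hν⟩ : ∃ ν, ν = p * (p + 2 * h) / 2 := ⟨_, rfl⟩
    have ν0 : 0 ≤ ν := by rw [hν]; positivity
    have ν1 : ν ≤ M ^ 2 / 2 := by rw [hν, hp]; linarith only [sq_nonneg h]
    have ν2 : ν ^ 2 ≤ (M ^ 2 / 2) ^ 2 := by gcongr
    have MM : M * M ≤ 1 / 200 * (1 / 200) := by gcongr
    have ν3 : ν ^ 2 * ν ≤ ν ^ 2 * 1 := by gcongr; linarith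
    obtain ⟨E₀, hE⟩ : ∃ E₀, E₀ = ((1 + p) / 2 - p ^ 2 / 4) / 2 * (1 - (1 - h) ^ 2) +
      (((1 + p - h) / 2 - h * p / 2 - p ^ 2 / 4) * n - (1 + h / -2) / 2 * n ^ 2 + 1 / 12 * n ^ 3) :=
      ⟨_, rfl⟩
    have E1 : E₀ = M / 2 - M ^ 2 / 4 + (M ^ 3 - h ^ 3) / 12 - ν ^ 2 / 2 + ν ^ 2 * M / 4 -
        ν ^ 2 * ν / 12 + (h * p) ^ 2 / 8 := by rw [hE, hn, hν, hp]; ring
    have E2 : M / 2 - M ^ 2 / 4 + (M ^ 3 - h ^ 3) / 12 - M ^ 4 / 4 ≤ E₀ := by
      linarith only [E1, ν2, ν3, sq_nonneg (h * p), mul_nonneg (sq_nonneg ν) M0.le,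
        pow_nonneg M0.le 4]
    have h3 : h ^ 3 ≤ M ^ 3 := by gcongr
    have m4 : M ^ 2 * M ^ 2 ≤ M ^ 2 * 1 := by gcongr; linarith
    have Z1 : ((1 + p) / 2 - p ^ 2 / 4) / 2 - E₀ ≤ 1 / 4 - p / 4 - h / 2 + M ^ 2 / 2 := by
      linarith only [E2, h3, m4, hp, sq_nonneg p]
    have Z2 := (mul_le_mul_of_nonneg_right Z1 j0).trans (mul_le_mul_of_nonneg_left j1
      (by linarith [sq_nonneg M]))
    have y2 : M ^ 2 * Y ^ 2 ≤ M ^ 2 * M ^ 2 := by gcongr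
    have y4 : (1 / 4 - p / 4 - h / 2 + M ^ 2 / 2) * Y ^ 4 ≤ 1 / 3 * M ^ 4 := by
      gcongr; linarith
    have y5 : M ^ 3 * e₁ ≤ M ^ 3 * M := by gcongr; linarith
    have y6 : Y ^ 4 * Y ≤ Y ^ 4 * (1 / 200) := by gcongr; linarith
    rw [hE] at Z2 E2
    rw [he] at y5 ⊢
    linarith only [Z2, E2, y2, y4, y5, y6, pow_nonneg Y0 4, pow_nonneg Y0 6, pow_nonneg M0.le 4]
  refine ⟨(integral_nonneg_of_ae T0).trans fin, le_trans ?_ (ENNReal.ofReal_le_ofReal fin)⟩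
  rw [ofReal_integral_eq_lintegral_ofReal (iT.mono_set Ioo_subset_Ioc_self) T0]
  refine lintegral_mono_ae ?_
  filter_upwards [ae] with r hr'
  obtain ⟨R, a, b, c⟩ := key r hr'
  exact ENNReal.ofReal_le_ofReal ((mul_le_mul_of_nonneg_left (hF _ R a b) hr'.1.le).trans c)

lemma upper3 (hk : 3 ≤ k) (hb : k * b = π) (M1 : M ≤ 1 / 200) (h0 : 0 < h) (h1 : h ≤ M)
    (κh : √3 * h = b) : ∃ g : ℝ → ℝ, ConvexOn ℝ (Icc 0 1) g ∧ g 0 = -M ∧ g 1 = 0 ∧
      (∀ r ∈ Icc (0 : ℝ) 1, -M ≤ g r ∧ g r ≤ 0) ∧ ∀ α, resistance (bottom k α g) ≤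
        π * (1 - M + M ^ 2 / 2 - (M ^ 3 / 6 + M * h ^ 2 / 2 - 5 * h ^ 3 / 12) + 330 * M ^ 4) := by
  obtain ⟨p, hp⟩ : ∃ p, M = p + h := ⟨M - h, by ring⟩
  have p0 : 0 ≤ p := by linarith
  have hM := h0.trans_le h1
  have a : p * (p + 2 * h) ≤ p * 2 := by gcongr; linarith
  have a' : 0 ≤ p * (p + 2 * h) := by positivity
  have H : Par k M b (√3) (1 + p) h (p - p * (p + 2 * h) / 2) := ⟨hk, hb, M1, by positivity,
    sq_sqrt (by norm_num), κh, h0, h1, by linarith, by linarith, by linarith, by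
      rw [hp]; linarith [sq_nonneg (p * (p + 2 * h))]⟩
  obtain ⟨g, g1, g2, g3, P⟩ := H.exg
  refine ⟨g, g1, g2, g3, P.bd, fun α => ?_⟩
  have b0 := H.b0
  have p0 := pi_pos
  have df := ae_diff (M := M) (bottom_convex (k := k) (α := α) hM P.bd) fun x hx =>
    ⟨le_bottom hx fun z hz => hull_ge hM P.bd hz, bottom_le hM P.bd (mem_zero hx)⟩
  let F : E → ℝ := {x | DifferentiableAt ℝ (bottom k α g) x}.indicator
    fun x => 1 / (1 + ‖fderiv ℝ (bottom k α g) x‖ ^ 2)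
  have ae : (fun x => 1 / (1 + ‖fderiv ℝ (bottom k α g) x‖ ^ 2)) =ᵐ[volume.restrict
      (ball (0 : E) 1)] F := by
    filter_upwards [df] with x hx
    exact (indicator_of_mem (show x ∈ {x | DifferentiableAt ℝ (bottom k α g) x} from hx)
      fun x => 1 / (1 + ‖fderiv ℝ (bottom k α g) x‖ ^ 2)).symm
  let w : ℝ → ℝ := fun s => 1 / 2 - M / 2 + M ^ 2 / 4 - (M ^ 3 - h ^ 3) / 12 + 165 * M ^ 4 +
    -3 * (p / 4 + h / 2) * h ^ 2 * s ^ 2 + 3 / 2 * h ^ 3 * s ^ 3 + 0 * s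
  have key := fun (i : ℤ) (β : ℝ) (hβ : |β| ≤ b) => H.rayU (α := α) P hp rfl i
    (Y := h * (|β| / b)) (B := w (|β| / b)) (F := F) hβ (by positivity)
    (by rw [← mul_assoc, κh]; field_simp) (by simp only [w]; ring) fun x σ h0 h => by
      refine indicator_apply_le' (fun hx => ?_) fun _ => by positivity
      have := h hx
      gcongr
  have P0 : ∀ s ∈ Icc (0 : ℝ) 1, 0 ≤ w s := fun s hs => by
    have a : |b * s| = b * s := abs_of_nonneg (mul_nonneg b0.le hs.1)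
    have := (key 0 (b * s) (a.trans_le (mul_le_of_le_one_right b0.le hs.2))).1
    rwa [a, mul_div_cancel_left₀ _ b0.ne'] at this
  have main := avg hk hb α (p := w) (H := fun φ => ∫⁻ r in Ioo (0 : ℝ) 1, ENNReal.ofReal
    (r * F (r • nu φ))) (by fun_prop) P0 fun i β hβ => (key i β hβ).2
  have I0 := intervalIntegral.integral_nonneg zero_le_one P0 (μ := volume)
  rw [← polInt (Measurable.indicator
      (((measurable_fderiv ℝ _).norm.pow_const 2).const_add 1 |>.const_div 1)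
      (measurableSet_of_differentiableAt ℝ _))
    (indicator_nonneg fun _ _ => by positivity) ((resistance_eq _).2.congr ae),
    ENNReal.ofReal_le_ofReal_iff (by positivity), int_poly _ _ _ _ continuous_id'] at main
  rw [resistance, integral_congr_ae ae]
  refine main.trans_eq ?_
  rw [hp]; ring

end Pool.Agent.Lib.MP_b93bad_an
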