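import Pool.Agent.Lib.MP_b93bad_an.V6

/-! The third-order asymptotics of the least resistance of dihedral bodies. -/

namespace Pool.Agent.Lib.MP_b93bad_an

open Real Set

lemma few' (M : ℝ) (hM : 0 < M) (k : ℕ)
    (hk : 3 ≤ k) (α : ℝ) (g : ℝ → ℝ) (hg : ∀ r ∈ Set.Icc (0 : ℝ) 1, -M ≤ g r ∧ g r ≤ 0)
    (h : resistance (bottom k α g) ≤ π - π * M + π * M ^ 2 / 2) : 1 / 10 ^ 6 ≤ k * M := by
  by_contra hc
  push Not at hc
  have hk' : (3 : ℝ) ≤ k := by exact_mod_cast hk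
  have hM' : M ≤ 1 / 4 := by nlinarith
  have p3 := pi_gt_three
  have p4 := pi_le_four
  obtain ⟨j, hj⟩ : ∃ j : ℝ, j = 1 / k := ⟨_, rfl⟩
  have j0 : 0 < j := by rw [hj]; positivity
  have j1 : k * j = 1 := by rw [hj]; field_simp
  have j2 : π * M / (8 * k ^ 2) = π * M * j ^ 2 / 8 := by rw [hj]; field_simp
  have j3 : j ≤ 1 / 3 := by nlinarith
  have j4 : M ≤ j / 10 ^ 6 := by nlinarith
  have pm : 0 < π * M * j ^ 2 := by positivity
  by_cases h1 : ∀ r ∈ Set.Icc (0 : ℝ) 1, -g r - (1 - r) ≤ j ^ 2 / 16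
  · have := estimate (α := α) hk hM hM' hg (by positivity) h1 ⟨zero_le_one, le_rfl⟩ (by norm_num)
      le_rfl (by simp)
    rw [j2] at this
    linarith
  push Not at h1
  obtain ⟨r0, r1, r2⟩ := h1
  have hb : BddAbove ((fun r => -g r - (1 - r)) '' Set.Icc (0 : ℝ) 1) :=
    ⟨M, by rintro _ ⟨r, hr, rfl⟩; have := hg r hr; simp only; linarith [hr.2]⟩
  have he : ∀ r ∈ Set.Icc (0 : ℝ) 1, -g r - (1 - r) ≤ _ := fun r hr => le_csSup hb ⟨r, hr, rfl⟩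
  have e0 := r2.trans_le (he r0 r1)
  obtain ⟨_, ⟨r, hr, rfl⟩, e1⟩ := exists_lt_of_lt_csSup
    (s := (fun r => -g r - (1 - r)) '' Set.Icc (0 : ℝ) 1) ⟨_, r0, r1, rfl⟩ (half_lt_self (lt_trans (by positivity) e0))
  generalize sSup ((fun r => -g r - (1 - r)) '' Set.Icc (0 : ℝ) 1) = e at *
  have e2 : 0 < e := lt_trans (by positivity) e0
  obtain ⟨g1, g2⟩ := hg r hr
  simp only at e1
  have := estimate (α := α) hk hM hM' hg e2.le he hr (by linarith) (η := j / 100) (by positivity)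
    (by linarith)
  rw [j2, show k * (j / 100) / 4 = 1 / 400 by linarith] at this
  have a1 : j * (25 / 4 * (j / 100) * (1 - r)) ≤ j * (j * M / 16) :=
    mul_le_mul_of_nonneg_left (by nlinarith) j0.le
  have a2 : j * ((1 + 25 / 4 * (j / 100)) * j ^ 2) ≤ j * (32 * e) :=
    mul_le_mul_of_nonneg_left (by nlinarith [sq_nonneg j]) j0.le
  have a3 : j * (e / 2) ≤ j * (-g r - (1 - r)) := mul_le_mul_of_nonneg_left e1.le j0.le
  have a4 : π * e * M ≤ 4 * e * (j / 10 ^ 6) := by gcongr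
  have a5 : 3 * (M * j ^ 2) ≤ π * M * j ^ 2 := by nlinarith [mul_pos hM (pow_pos j0 2)]
  nlinarith [mul_pos j0 e2, mul_pos hM (pow_pos j0 2)]

lemma partA {ε : ℝ} (hε : 0 < ε) : ∃ M₀ > 0, ∀ M : ℝ, 0 < M → M < M₀ →
    ∀ k : ℕ, 3 ≤ k → ∀ (α : ℝ) (g : ℝ → ℝ), (∀ r ∈ Icc (0 : ℝ) 1, -M ≤ g r ∧ g r ≤ 0) →
      ∀ t : ℝ, t = min (π / (√3 * k * M)) 1 →
        π * (1 - M + M ^ 2 / 2 - (1 / 6 + t ^ 2 / 2 - 5 * t ^ 3 / 12 + ε) * M ^ 3) ≤
          resistance (bottom k α g) := by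
  obtain ⟨η, η0, η1, η2⟩ : ∃ η : ℝ, 0 < η ∧ η ≤ 1 / 100 ∧ 28 * η ≤ ε :=
    ⟨min (1 / 100) (ε / 28), by positivity, min_le_left _ _, by
      linarith [min_le_right (1 / 100) (ε / 28)]⟩
  refine ⟨η / 10 ^ 28, by positivity, fun M hM M1 k hk α g hg t ht => ?_⟩
  have p0 := pi_pos
  have k0 : (0 : ℝ) < k := by exact_mod_cast (by omega : 0 < k)
  have t0 : 0 ≤ t := ht ▸ le_min (by positivity) zero_le_one
  have t1 : t ≤ 1 := ht ▸ min_le_right _ _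
  have m3 : 0 < M ^ 3 := by positivity
  by_cases h : resistance (bottom k α g) ≤ π - π * M + π * M ^ 2 / 2
  swap
  · have a : t ^ 2 * t ≤ t ^ 2 * 1 := by gcongr
    have : 0 ≤ π * ((1 / 6 + t ^ 2 / 2 - 5 * t ^ 3 / 12 + ε) * M ^ 3) :=
      mul_nonneg p0.le (mul_nonneg (by linarith [sq_nonneg t]) m3.le)
    linarith [not_le.1 h]
  have f := few' M hM k hk α g hg h
  have b1 : π / k ≤ 10 ^ 7 * M := by
    rw [div_le_iff₀ k0]; linarith [pi_le_four]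
  have b0 : 0 < π / k := by positivity
  have b2 := pow_le_pow_left₀ b0.le b1 2
  have b4 := pow_le_pow_left₀ b0.le b1 4
  have s3 : √3 ^ 2 = 3 := sq_sqrt (by norm_num)
  refine le_trans ?_ (lower3 (b := π / k) (η := η) (t := t) (B := (π / (√3 * k * M)) ^ 2) hk
    (by field_simp) hM hg (by linarith) η1 ?_ ?_ t0 t1 ?_ ?_)
  · gcongr
  · have := mul_le_mul_of_nonneg_right M1.le hM.le
    linarith [mul_pos η0 hM]
  · have := mul_le_mul_of_nonneg_right M1.le m3.le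
    linarith
  · rw [div_pow π (_ * M), mul_pow, mul_pow, s3]; field_simp
  · rcases le_total (π / (√3 * k * M)) 1 with a | a
    · exact Or.inl (by rw [ht, min_eq_left a])
    · exact Or.inr ⟨by rw [ht, min_eq_right a], one_le_pow₀ a⟩

lemma partB {ε : ℝ} (hε : 0 < ε) : ∃ M₀ > 0, ∀ M : ℝ, 0 < M → M < M₀ →
    ∀ k : ℕ, 3 ≤ k → ∀ t : ℝ, t = π / (√3 * k * M) → t ≤ 1 →
      ∃ g : ℝ → ℝ, ConvexOn ℝ (Icc 0 1) g ∧ g 0 = -M ∧ g 1 = 0 ∧
        (∀ r ∈ Icc (0 : ℝ) 1, -M ≤ g r ∧ g r ≤ 0) ∧ ∀ α : ℝ, resistance (bottom k α g) ≤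
          π * (1 - M + M ^ 2 / 2 - (1 / 6 + t ^ 2 / 2 - 5 * t ^ 3 / 12 - ε) * M ^ 3) := by
  refine ⟨min (1 / 200) (ε / 330), by positivity, fun M hM M1 k hk t ht t1 => ?_⟩
  have p0 := pi_pos
  have k0 : (0 : ℝ) < k := by exact_mod_cast (by omega : 0 < k)
  have t0 : 0 < t := by rw [ht]; positivity
  obtain ⟨M2, M3⟩ := lt_min_iff.1 M1
  obtain ⟨g, g1, g2, g3, g4, g5⟩ := upper3 (b := π / k) (h := M * t) hk (by field_simp) M2.le
    (by positivity) (mul_le_of_le_one_right hM.le t1) (by rw [ht]; field_simp)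
  refine ⟨g, g1, g2, g3, g4, fun α => (g5 α).trans (mul_le_mul_of_nonneg_left ?_ p0.le)⟩
  have := mul_le_mul_of_nonneg_right M3.le (pow_pos hM 3).le
  linarith

lemma partC {ε : ℝ} (hε : 0 < ε) : ∃ δ > 0, ∃ M₀ > 0, ∀ M : ℝ, 0 < M → M < M₀ →
    ∀ k : ℕ, 3 ≤ k → ∀ (α : ℝ) (g : ℝ → ℝ), (∀ r ∈ Icc (0 : ℝ) 1, -M ≤ g r ∧ g r ≤ 0) →
      (∀ k' : ℕ, 3 ≤ k' → ∀ g' : ℝ → ℝ, ConvexOn ℝ (Icc 0 1) g' → g' 0 = -M → g' 1 = 0 →
        (∀ r ∈ Icc (0 : ℝ) 1, -M ≤ g' r ∧ g' r ≤ 0) →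
        resistance (bottom k α g) ≤ resistance (bottom k' 0 g') + δ * M ^ 3) →
      |k * M - 5 * π / (4 * √3)| ≤ ε ∧
        |resistance (bottom k α g) - π * (1 - M + M ^ 2 / 2 - 41 / 150 * M ^ 3)| ≤ ε * M ^ 3 := by
  obtain ⟨γ, γ0, γ1, γ2⟩ : ∃ γ : ℝ, 0 < γ ∧ γ ≤ 1 / 10 ∧ 10 * γ ≤ ε :=
    ⟨min (1 / 10) (ε / 10), by positivity, min_le_left _ _, by
      linarith [min_le_right (1 / 10) (ε / 10)]⟩
  obtain ⟨e, he⟩ : ∃ e, e = γ ^ 2 / 24 := ⟨_, rfl⟩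
  have e0 : 0 < e := by rw [he]; positivity
  have e1 : e ≤ γ / 240 := by nlinarith only [he, γ0, γ1]
  obtain ⟨A, A0, hA⟩ := partA e0
  obtain ⟨B, B0, hB⟩ := partB e0
  refine ⟨e, e0, min e (min A B), by positivity, fun M hM M1 k hk α g hg hmin => ?_⟩
  obtain ⟨M2, M3⟩ := lt_min_iff.1 M1
  obtain ⟨M3, M4⟩ := lt_min_iff.1 M3
  have p3 := pi_gt_three
  have p4 := pi_le_four
  have s0 : 0 < √3 := by positivity
  have s3 : √3 ^ 2 = 3 := sq_sqrt (by norm_num)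
  have s1 : 3 / 2 ≤ √3 := by nlinarith only [s0, s3]
  have s2 : √3 ≤ 2 := by nlinarith only [s0, s3]
  obtain ⟨c, hc⟩ : ∃ c, c = 5 * π / (4 * √3) := ⟨_, rfl⟩
  have c1 : 1 ≤ c := by rw [hc, le_div_iff₀ (by positivity)]; linarith
  have c2 : c ≤ 4 := by rw [hc, div_le_iff₀ (by positivity)]; linarith
  have tk : ∀ k : ℕ, π / (√3 * k * M) = 4 / 5 * c / (k * M) := fun k => by
    rw [hc, mul_assoc, ← div_div]; congr 1; field_simp
  have n1 := (div_le_iff₀ hM).1 (Nat.le_ceil (c / M))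
  have n2 := Nat.ceil_lt_add_one (show 0 ≤ c / M by positivity)
  generalize ⌈c / M⌉₊ = n at *
  have n3 : n * M ≤ c + M := by
    have := mul_le_mul_of_nonneg_right n2.le hM.le
    rwa [add_mul, div_mul_cancel₀ _ hM.ne', one_mul] at this
  have n4 : 3 ≤ n := by
    by_contra a
    have : (n : ℝ) ≤ 3 := by exact_mod_cast (not_le.1 a).le
    linarith only [mul_le_mul_of_nonneg_right this hM.le, n1, c1, M2, e1, γ1]
  have n0 : 0 < n * M := by linarith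
  have s4 : 4 / 5 * c / (n * M) ≤ 4 / 5 := by rw [div_le_iff₀ n0]; linarith
  have s5 : 4 / 5 - M ≤ 4 / 5 * c / (n * M) := by 
    rw [le_div_iff₀ n0]
    linarith only [n3, hM, mul_le_mul_of_nonneg_left (c1.trans n1) hM.le]
  obtain ⟨g', g1, g2, g3, g4, g5⟩ := hB M hM M4 n n4 _ (tk n).symm (by linarith)
  have U := (hmin n n4 g' g1 g2 g3 g4).trans (add_le_add_left (g5 0) _)
  have L := hA M hM M3 k hk α g hg _ rfl
  rw [tk] at L
  have k0 : (0 : ℝ) < k := by exact_mod_cast (by omega : 0 < k)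
  have t0 : 0 ≤ min (4 / 5 * c / (k * M)) 1 := le_min (by positivity) zero_le_one
  generalize 4 / 5 * c / (n * M) = s at *
  obtain ⟨t, ht⟩ : ∃ t, t = min (4 / 5 * c / (k * M)) 1 := ⟨_, rfl⟩
  rw [← ht] at L t0
  have m3 : 0 < M ^ 3 := by positivity
  have a1 : (4 / 5 - s) ^ 2 * (s + 2 / 5) ≤ M ^ 2 * 2 := by gcongr <;> linarith
  have a2 : M ^ 2 ≤ e := by nlinarith only [hM, M2, e1, γ1]
  have a3 := mul_le_mul_of_nonneg_left (show 41 / 150 - 2 * e ≤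
    1 / 6 + s ^ 2 / 2 - 5 * s ^ 3 / 12 - e by linarith only [a1, a2, e0]) (mul_pos pi_pos m3).le
  have a4 : (4 / 5 - t) ^ 2 * (2 / 5) ≤ (4 / 5 - t) ^ 2 * (t + 2 / 5) := by gcongr; linarith
  have a5 := mul_le_mul_of_nonneg_left (show 1 / 6 + t ^ 2 / 2 - 5 * t ^ 3 / 12 + e ≤
    41 / 150 - (4 / 5 - t) ^ 2 / 6 + e by linarith only [a4]) (mul_pos pi_pos m3).le
  have em := mul_pos e0 m3
  have a6 : e * M ^ 3 * 1 ≤ e * M ^ 3 * π := by gcongr; linarith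
  have a7 : e * M ^ 3 * π ≤ e * M ^ 3 * 4 := by gcongr
  have a8 : (4 / 5 - t) ^ 2 ≤ γ ^ 2 :=
    le_of_mul_le_mul_left (a := π * M ^ 3) (by
      rw [show γ ^ 2 = 24 * e by linarith only [he]]
      linarith only [U, L, a3, a5, a6])
      (mul_pos pi_pos m3)
  obtain ⟨a9, a10⟩ := abs_le_of_sq_le_sq' a8 γ0.le
  have a11 := mul_le_mul_of_nonneg_right (show 9 * e ≤ ε by linarith) m3.le
  have a12 := mul_nonneg (mul_pos pi_pos m3).le (sq_nonneg (4 / 5 - t))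
  refine ⟨?_, abs_le.2 ⟨by linarith only [L, a5, a7, a11, a12, em],
    by linarith only [U, a3, a7, a11]⟩⟩
  rw [← hc]
  have a13 : t * (k * M) = 4 / 5 * c := by
    rcases min_choice (4 / 5 * c / (k * M)) 1 with a | a
    · rw [ht, a]; field_simp
    · linarith only [a, ht, a9, γ1]
  have km : 0 < k * M := by positivity
  generalize k * M = x at *
  have b1 := mul_le_mul_of_nonneg_right a9 km.le
  have b2 := mul_le_mul_of_nonneg_right a10 km.le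
  have b3 := mul_le_mul_of_nonneg_right γ1 km.le
  have b4 : γ * x ≤ γ * 5 := mul_le_mul_of_nonneg_left (by linarith only [b2, b3, a13, c2]) γ0.le
  exact abs_le.2 ⟨by linarith only [b1, b4, a13, γ2, γ0], by linarith only [b2, b4, a13, γ2, γ0]⟩

end Pool.Agent.Lib.MP_b93bad_an
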